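import Pool.Agent.W2helper86.HU.Low2

/-!
# The sharp lower bound for subgraphs of a host graph: the parameters
-/

set_option autoImplicit false

namespace Pool.Agent.W2helper86.HU

open Finset Filter Pool.Agent.H540R2 Pool.Agent.H540R2.Circuit Pool.Agent.W2helper86.KQ
  Pool.Agent.W953.NW

lemma ev_ge' {s : ℝ} (hs : 0 < s) (A : ℝ) : ∀ᶠ n : ℕ in atTop, A ≤ (n : ℝ) ^ s :=
  ((tendsto_rpow_atTop hs).comp tendsto_natCast_atTop_atTop).eventually (eventually_ge_atTop A)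

/-- the number of letters is large -/
lemma letters_ok {n k q B X σ : ℕ} {δ ε s N T : ℝ} (hn : 2 ≤ n) (hδ : 0 < δ) (hε0 : 0 < ε)
    (hε1 : ε < 1) (hq : 8 / ε ≤ q) (hB : 8 * q / (δ * ε) ≤ B) (hs : s = 1 / (q * B))
    (hk : 6 ≤ δ * k) (hN : (n : ℝ) ^ (δ * k) ≤ N) (hT : N ≤ T)
    (hσ1 : (n : ℝ) ^ s ≤ σ) (hσ2 : (σ : ℝ) ≤ 2 * (n : ℝ) ^ s)
    (hX : T ≤ ((B : ℝ) + 1) ^ k * (σ : ℝ) ^ (q * X + q ^ 2 * k))
    (e2 : ((B : ℝ) + 1) ^ k * 2 ^ (q ^ 2 * k) ≤ (n : ℝ) ^ (δ * k * (ε / 8))) :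
    1 ≤ X ∧ N ^ (1 - 5 * ε / 8) ≤ (σ : ℝ) ^ ((1 - ε / 4) * (((q - 1) * X : ℕ) : ℝ)) := by
  have hn0 : (0 : ℝ) < n := by exact_mod_cast (by omega : 0 < n)
  have hn1 : (1 : ℝ) < n := by exact_mod_cast (by omega : 1 < n)
  have hq8 : (8 : ℝ) ≤ q := by
    refine le_trans ?_ hq
    rw [le_div_iff₀ hε0]
    linarith
  have hq0 : (0 : ℝ) < q := by linarith
  have hq1 : 1 ≤ q := by
    have : (1 : ℝ) ≤ q := by linarith
    exact_mod_cast this
  have hB0 : (0 : ℝ) < B := lt_of_lt_of_le (by positivity) hB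
  have hs0 : 0 < s := by rw [hs]; positivity
  have hns : 1 ≤ (n : ℝ) ^ s := Real.one_le_rpow hn1.le hs0.le
  have hσ0 : (0 : ℝ) < σ := by linarith
  have hσ1' : (1 : ℝ) ≤ σ := by linarith
  have hnk : 1 < (n : ℝ) ^ (δ * k) := Real.one_lt_rpow hn1 (by linarith)
  have hN1 : 1 < N := hnk.trans_le hN
  have hN0 : 0 < N := by linarith
  -- the loss
  have hl1 : (σ : ℝ) ^ (q ^ 2 * k) ≤ 2 ^ (q ^ 2 * k) * N ^ (ε / 8) := by
    calc (σ : ℝ) ^ (q ^ 2 * k) ≤ (2 * (n : ℝ) ^ s) ^ (q ^ 2 * k) := by gcongr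
      _ = 2 ^ (q ^ 2 * k) * (n : ℝ) ^ (s * ((q ^ 2 * k : ℕ) : ℝ)) := by
          rw [mul_pow, Real.rpow_mul hn0.le, Real.rpow_natCast]
      _ ≤ 2 ^ (q ^ 2 * k) * N ^ (ε / 8) := by
          gcongr
          calc (n : ℝ) ^ (s * ((q ^ 2 * k : ℕ) : ℝ)) ≤ (n : ℝ) ^ (δ * k * (ε / 8)) := by
                apply Real.rpow_le_rpow_of_exponent_le hn1.le
                rw [hs]
                push_cast
                have h1 : 1 / ((q : ℝ) * B) * ((q : ℝ) ^ 2 * k) = q * k / B := by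
                  field_simp
                rw [h1, div_le_iff₀ hB0]
                have h2 : 8 * (q : ℝ) ≤ B * (δ * ε) := by
                  rwa [div_le_iff₀ (by positivity)] at hB
                have h3 : (0 : ℝ) ≤ k := Nat.cast_nonneg k
                nlinarith
            _ = ((n : ℝ) ^ (δ * k)) ^ (ε / 8) := by rw [Real.rpow_mul hn0.le]
            _ ≤ N ^ (ε / 8) := Real.rpow_le_rpow (by positivity) hN (by positivity)
  have hl2 : ((B : ℝ) + 1) ^ k * 2 ^ (q ^ 2 * k) ≤ N ^ (ε / 8) := by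
    refine e2.trans ?_
    rw [Real.rpow_mul hn0.le]
    exact Real.rpow_le_rpow (by positivity) hN (by positivity)
  have hP : N ^ (1 - ε / 4) ≤ (σ : ℝ) ^ (q * X) := by
    have h1 : N ≤ (σ : ℝ) ^ (q * X) * N ^ (ε / 4) := by
      calc N ≤ T := hT
        _ ≤ ((B : ℝ) + 1) ^ k * (σ : ℝ) ^ (q * X + q ^ 2 * k) := hX
        _ = ((B : ℝ) + 1) ^ k * ((σ : ℝ) ^ (q * X) * (σ : ℝ) ^ (q ^ 2 * k)) := by rw [pow_add]
        _ ≤ ((B : ℝ) + 1) ^ k * ((σ : ℝ) ^ (q * X) * (2 ^ (q ^ 2 * k) * N ^ (ε / 8))) := by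
            gcongr
        _ = (σ : ℝ) ^ (q * X) * ((((B : ℝ) + 1) ^ k * 2 ^ (q ^ 2 * k)) * N ^ (ε / 8)) := by ring
        _ ≤ (σ : ℝ) ^ (q * X) * (N ^ (ε / 8) * N ^ (ε / 8)) := by gcongr
        _ = (σ : ℝ) ^ (q * X) * N ^ (ε / 4) := by
            rw [← Real.rpow_add hN0]
            congr 2
            ring
    have h2 : N = N ^ (1 - ε / 4) * N ^ (ε / 4) := by
      rw [← Real.rpow_add hN0]
      rw [sub_add_cancel, Real.rpow_one]
    have h3 : N ^ (1 - ε / 4) * N ^ (ε / 4) ≤ (σ : ℝ) ^ (q * X) * N ^ (ε / 4) := by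
      rw [← h2]
      exact h1
    exact le_of_mul_le_mul_right h3 (by positivity)
  have hX1 : 1 ≤ X := by
    by_contra hcon
    have hX0 : X = 0 := by omega
    rw [hX0, Nat.mul_zero, pow_zero] at hP
    have : 1 < N ^ (1 - ε / 4) := Real.one_lt_rpow hN1 (by linarith)
    linarith
  refine ⟨hX1, ?_⟩
  have hθ0 : 0 < 1 - ε / 4 := by linarith
  have hqq : 1 - ε / 8 ≤ ((q : ℝ) - 1) / q := by
    rw [le_div_iff₀ hq0]
    have : 8 ≤ q * ε := by rwa [div_le_iff₀ hε0] at hq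
    nlinarith
  calc N ^ (1 - 5 * ε / 8) ≤ N ^ ((1 - ε / 4) * ((1 - ε / 4) * (((q : ℝ) - 1) / q))) := by
        apply Real.rpow_le_rpow_of_exponent_le hN1.le
        have h1 : (1 - ε / 4) * ((1 - ε / 4) * (1 - ε / 8)) ≤
            (1 - ε / 4) * ((1 - ε / 4) * (((q : ℝ) - 1) / q)) := by gcongr
        refine le_trans ?_ h1
        nlinarith [mul_pos hε0 hε0, mul_pos (mul_pos hε0 hε0) hε0]
    _ = (N ^ (1 - ε / 4)) ^ ((1 - ε / 4) * (((q : ℝ) - 1) / q)) := by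
        rw [Real.rpow_mul hN0.le]
    _ ≤ ((σ : ℝ) ^ (q * X)) ^ ((1 - ε / 4) * (((q : ℝ) - 1) / q)) := by
        apply Real.rpow_le_rpow (by positivity) hP
        apply mul_nonneg hθ0.le
        apply div_nonneg _ hq0.le
        linarith
    _ = (σ : ℝ) ^ ((1 - ε / 4) * (((q - 1) * X : ℕ) : ℝ)) := by
        rw [← Real.rpow_natCast, ← Real.rpow_mul hσ0.le]
        congr 1
        push_cast [Nat.cast_sub hq1]
        field_simp

/-- **The sharp lower bound.** -/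
theorem low_sharp (δ ε : ℝ) (hδ0 : 0 < δ) (hδ1 : δ ≤ 1) (hε0 : 0 < ε) (hε1 : ε < 1) :
    ∃ γ : ℝ, 0 < γ ∧ ∀ k : ℕ, 6 ≤ δ * k → ∃ α : ℝ, 0 < α ∧
      ∀ᶠ n : ℕ in atTop, ∀ H : SimpleGraph (Fin n), (n : ℝ) ^ (δ * k) ≤ cliques H k →
        ∀ R : RandCircuit (n.choose 2),
          (∀ o, (2 : ℝ) ^ (R.C o).nots ≤ (n : ℝ) ^ γ ∧
            ((R.C o).size : ℝ) ≤ (cliques H k : ℝ) ^ (1 - ε)) →
          ∃ x, graph x ≤ H ∧ R.prob (Right k k x) < 1 / 2 + (n : ℝ) ^ (-α) := by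
  set q : ℕ := ⌈8 / ε⌉₊ with hqd
  have hq : 8 / ε ≤ q := Nat.le_ceil _
  have hq8 : (8 : ℝ) ≤ q := by
    refine le_trans ?_ hq
    rw [le_div_iff₀ hε0]
    linarith
  have hq8' : 8 ≤ q := by exact_mod_cast hq8
  have hq0 : (0 : ℝ) < q := by linarith
  set B : ℕ := ⌈8 * q / (δ * ε)⌉₊ with hBd
  have hB : 8 * q / (δ * ε) ≤ B := Nat.le_ceil _
  have hB0 : (0 : ℝ) < B := lt_of_lt_of_le (by positivity) hB
  set s : ℝ := 1 / (q * B) with hs
  have hs0 : 0 < s := by positivity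
  refine ⟨ε / 4 * s, by positivity, fun k hk => ?_⟩
  have hk6 : (6 : ℝ) ≤ k := by
    have h0 : (0 : ℝ) ≤ k := Nat.cast_nonneg k
    nlinarith
  have hk6' : 6 ≤ k := by exact_mod_cast hk6
  obtain ⟨α₀, hα₀, H0⟩ := core_unif (ε / 4) (1 - ε / 4) (by positivity) (by linarith)
    (by linarith) ((q - 1) * (B * k))
  obtain ⟨N₀, hN₀⟩ := eventually_atTop.1 H0
  set α : ℝ := min (s / 2) (s * α₀ / 2) with hα
  have hα0 : 0 < α := lt_min (by positivity) (by positivity)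
  refine ⟨α, hα0, ?_⟩
  have hδk : 0 < δ * k * (ε / 8) := by
    have : 0 < δ * k := by linarith
    positivity
  filter_upwards [ev_ge' hs0 ((N₀ : ℝ) + 2),
    ev_ge' hδk (((B : ℝ) + 1) ^ k * 2 ^ (q ^ 2 * k)),
    ev_ge' (s := 1 / 4) (by norm_num) (4 * (4 * (((q - 1 : ℕ) : ℝ) * B) ^ 2)),
    ev_ge' (s := 9 * ε / 4) (by positivity) 4, ev_ge' (s := s / 2) (by positivity) (4 * (k : ℝ) ^ 2),
    ev_ge' (s := s * α₀ / 2) (by positivity) 4,
    ev_ge' (s := α) (by positivity) 4, eventually_ge_atTop 2]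
    with n e1 e2 e3 e4 e5 e6 e7 hn H hH R hR
  have hn0 : (0 : ℝ) < n := by exact_mod_cast (by omega : 0 < n)
  have hn1 : (1 : ℝ) < n := by exact_mod_cast (by omega : 1 < n)
  have hn1' : (1 : ℝ) ≤ n := hn1.le
  set N : ℝ := (cliques H k : ℝ) with hN
  have hnk : 1 < (n : ℝ) ^ (δ * k) := Real.one_lt_rpow hn1 (by linarith)
  have hN1 : 1 < N := hnk.trans_le hH
  have hN0 : 0 < N := by linarith
  have hNT : N ≤ ((tup H k).card : ℝ) := by
    rw [hN]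
    exact_mod_cast cliques_le_tup H k
  have hT : (tup H k).Nonempty := by
    rw [← card_pos]
    have : (0 : ℝ) < ((tup H k).card : ℝ) := by linarith
    exact_mod_cast this
  set σ : ℕ := ⌈(n : ℝ) ^ s⌉₊ with hσ
  have hσ1 : (n : ℝ) ^ s ≤ σ := Nat.le_ceil _
  have hns : 1 ≤ (n : ℝ) ^ s := Real.one_le_rpow hn1' hs0.le
  have hσ2 : (σ : ℝ) ≤ 2 * (n : ℝ) ^ s := by
    have := Nat.ceil_lt_add_one (a := (n : ℝ) ^ s) (by positivity)
    rw [← hσ] at this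
    linarith
  have hσN : N₀ ≤ σ := by
    have : (N₀ : ℝ) ≤ σ := by linarith
    exact_mod_cast this
  have hσ2' : 2 ≤ σ := by
    have h0 : (0 : ℝ) ≤ N₀ := Nat.cast_nonneg _
    have : (2 : ℝ) ≤ σ := by linarith
    exact_mod_cast this
  have hσ0 : (0 : ℝ) < σ := by exact_mod_cast (by omega : 0 < σ)
  have hnσ : n ≤ σ ^ (q * B) := by
    have h1 : (n : ℝ) ≤ (σ : ℝ) ^ (q * B) := by
      calc (n : ℝ) = ((n : ℝ) ^ s) ^ (q * B) := by
            rw [← Real.rpow_natCast, ← Real.rpow_mul hn0.le, hs]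
            push_cast
            rw [one_div_mul_cancel (by positivity), Real.rpow_one]
        _ ≤ (σ : ℝ) ^ (q * B) := by gcongr
    exact_mod_cast h1
  obtain ⟨X, hXB, hXc, hXr⟩ := reduces H (by omega : 2 ≤ k) hσ2' (by omega : 1 ≤ q) hnσ hT
  have hXc' : ((tup H k).card : ℝ) ≤ ((B : ℝ) + 1) ^ k * (σ : ℝ) ^ (q * X + q ^ 2 * k) := by
    exact_mod_cast hXc
  obtain ⟨hX1, hsz⟩ := letters_ok hn hδ0 hε0 hε1 hq hB hs hk hH hNT hσ1 hσ2 hXc' e2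
  have hred := hXr ((q - 1) * X) le_rfl
  have hK3 : 3 ≤ (q - 1) * X := by
    have h7 : 7 ≤ q - 1 := by omega
    nlinarith
  have hKQ : (q - 1) * X ≤ (q - 1) * (B * k) := Nat.mul_le_mul_left _ hXB
  by_contra hcon
  push Not at hcon
  have hτ : ∀ y, graph y ≤ H → 1 / 2 + (n : ℝ) ^ (-α) ≤ R.prob (Right k k y) := hcon
  have h4inv : (n : ℝ) ^ (-α) ≤ 1 / 4 := by
    rw [Real.rpow_neg hn0.le, ← one_div]
    exact one_div_le_one_div_of_le (by norm_num) e7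
  obtain ⟨R', hR1, hR2⟩ := rand_red H ((k : ℝ) ^ 2 / σ) (by positivity) hred R
    (1 / 2 + (n : ℝ) ^ (-α)) (by positivity) (by linarith) hτ
  -- powers
  have hNn : (n : ℝ) ^ (6 : ℝ) ≤ N :=
    (Real.rpow_le_rpow_of_exponent_le hn1' hk).trans hH
  set W : ℝ := N ^ (1 - 5 * ε / 8) with hW
  have hW0 : 0 < W := by positivity
  have hW1 : (n : ℝ) ^ (9 / 4 : ℝ) ≤ W := by
    calc (n : ℝ) ^ (9 / 4 : ℝ) = ((n : ℝ) ^ (6 : ℝ)) ^ (3 / 8 : ℝ) := by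
          rw [← Real.rpow_mul hn0.le]
          norm_num
      _ ≤ N ^ (3 / 8 : ℝ) := Real.rpow_le_rpow (by positivity) hNn (by norm_num)
      _ ≤ W := by
          apply Real.rpow_le_rpow_of_exponent_le hN1.le
          linarith
  have hW2 : 4 * N ^ (1 - ε) ≤ W := by
    have h1 : W = N ^ (3 * ε / 8) * N ^ (1 - ε) := by
      rw [hW, ← Real.rpow_add hN0]
      congr 1
      ring
    rw [h1]
    have h2 : 4 ≤ N ^ (3 * ε / 8) := by
      calc (4 : ℝ) ≤ (n : ℝ) ^ (9 * ε / 4) := e4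
        _ = ((n : ℝ) ^ (6 : ℝ)) ^ (3 * ε / 8) := by
            rw [← Real.rpow_mul hn0.le]
            congr 1
            ring
        _ ≤ N ^ (3 * ε / 8) := Real.rpow_le_rpow (by positivity) hNn (by positivity)
    gcongr
  have hextra : ((n.choose 2 * (4 * ((q - 1) * B) ^ 2) : ℕ) : ℝ) ≤ W / 4 := by
    push_cast
    have h1 : ((n.choose 2 : ℕ) : ℝ) ≤ (n : ℝ) ^ (2 : ℝ) := by
      have : n.choose 2 ≤ n ^ 2 := Nat.choose_le_pow n 2
      rw [Real.rpow_two]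
      exact_mod_cast this
    have h2 : 4 * (((q - 1 : ℕ) : ℝ) * B) ^ 2 ≤ (n : ℝ) ^ (1 / 4 : ℝ) / 4 := by linarith
    calc ((n.choose 2 : ℕ) : ℝ) * (4 * (((q - 1 : ℕ) : ℝ) * B) ^ 2)
        ≤ (n : ℝ) ^ (2 : ℝ) * ((n : ℝ) ^ (1 / 4 : ℝ) / 4) := by gcongr
      _ = (n : ℝ) ^ (9 / 4 : ℝ) / 4 := by
          rw [← mul_div_assoc, ← Real.rpow_add hn0]
          norm_num
      _ ≤ W / 4 := by linarith
  obtain ⟨x, hx⟩ := hN₀ σ hσN ((q - 1) * X) hKQ hK3 R'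
    (fun o' => by
      obtain ⟨o, -, ho⟩ := hR1 o'
      calc (2 : ℝ) ^ (R'.C o').nots ≤ (2 : ℝ) ^ (R.C o).nots :=
            pow_le_pow_right₀ (by norm_num) ho
        _ ≤ (n : ℝ) ^ (ε / 4 * s) := (hR o).1
        _ = ((n : ℝ) ^ s) ^ (ε / 4) := by
            rw [← Real.rpow_mul hn0.le, mul_comm]
        _ ≤ (σ : ℝ) ^ (ε / 4) := Real.rpow_le_rpow (by positivity) hσ1 (by positivity))
    (fun o' => by
      obtain ⟨o, ho, -⟩ := hR1 o'
      have h5 : ((R'.C o').size : ℝ) ≤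
          ((n.choose 2 * (4 * ((q - 1) * B) ^ 2) : ℕ) : ℝ) + ((R.C o).size : ℝ) := by
        exact_mod_cast ho
      have h6 := (hR o).2
      have h7 : ((R'.C o').size : ℝ) ≤ W / 2 := by linarith
      exact lt_of_lt_of_le (by linarith) hsz)
  have hx2 := hR2 x
  have hσs : (0 : ℝ) < (n : ℝ) ^ s := by positivity
  have hη : (k : ℝ) ^ 2 / σ ≤ (n : ℝ) ^ (-α) / 4 := by
    have h1 : (n : ℝ) ^ (s / 2) * (n : ℝ) ^ (s / 2) = (n : ℝ) ^ s := by
      rw [← Real.rpow_add hn0]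
      congr 1
      ring
    have h2 : (k : ℝ) ^ 2 / σ ≤ (n : ℝ) ^ (-(s / 2)) / 4 := by
      rw [Real.rpow_neg hn0.le, div_le_div_iff₀ hσ0 (by norm_num)]
      have h3 : 0 < (n : ℝ) ^ (s / 2) := by positivity
      rw [inv_mul_eq_div, le_div_iff₀ h3]
      calc (k : ℝ) ^ 2 * 4 * (n : ℝ) ^ (s / 2) ≤ (n : ℝ) ^ (s / 2) * (n : ℝ) ^ (s / 2) := by
            gcongr
            linarith
        _ = (n : ℝ) ^ s := h1
        _ ≤ σ := hσ1
    refine h2.trans ?_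
    have h3 : (n : ℝ) ^ (-(s / 2)) ≤ (n : ℝ) ^ (-α) := by
      apply Real.rpow_le_rpow_of_exponent_le hn1'
      have := min_le_left (s / 2) (s * α₀ / 2)
      rw [hα]
      linarith
    linarith
  have hα2 : (σ : ℝ) ^ (-α₀) ≤ (n : ℝ) ^ (-α) / 4 := by
    have h1 : (σ : ℝ) ^ (-α₀) ≤ ((n : ℝ) ^ s) ^ (-α₀) :=
      Real.rpow_le_rpow_of_nonpos hσs hσ1 (by linarith)
    have h2 : ((n : ℝ) ^ s) ^ (-α₀) = (n : ℝ) ^ (-(s * α₀ / 2)) * (n : ℝ) ^ (-(s * α₀ / 2)) := by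
      rw [← Real.rpow_mul hn0.le, ← Real.rpow_add hn0]
      congr 1
      ring
    have h3 : (n : ℝ) ^ (-(s * α₀ / 2)) ≤ 1 / 4 := by
      rw [Real.rpow_neg hn0.le, ← one_div]
      exact one_div_le_one_div_of_le (by norm_num) e6
    have h4 : (n : ℝ) ^ (-(s * α₀ / 2)) ≤ (n : ℝ) ^ (-α) := by
      apply Real.rpow_le_rpow_of_exponent_le hn1'
      have := min_le_right (s / 2) (s * α₀ / 2)
      rw [hα]
      linarith
    rw [h2] at h1
    have h5 : 0 < (n : ℝ) ^ (-(s * α₀ / 2)) := by positivity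
    nlinarith
  have h5 : 0 < (n : ℝ) ^ (-α) := by positivity
  linarith

end Pool.Agent.W2helper86.HU
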