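import Mathlib

/-!
# Random maps hit a member of a weighted spread family of tuples
-/

set_option autoImplicit false

namespace Pool.Agent.W2helper86.HU

open Finset

/-- the number of maps with prescribed sets of values at distinct points -/
lemma card_hit {V β X : Type} [Fintype V] [DecidableEq V] [Fintype β] [DecidableEq β] [Fintype X]
    (ι : X → V) (hι : Function.Injective ι) (G : X → Finset β) (hβ : 0 < Fintype.card β) :
    ((univ.filter (fun φ : V → β => ∀ x, φ (ι x) ∈ G x)).card : ℝ) =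
      (Fintype.card β : ℝ) ^ Fintype.card V * ∏ x, ((G x).card : ℝ) / Fintype.card β := by
  classical
  set S : V → Finset β := fun v => if h : ∃ x, ι x = v then G h.choose else univ with hS
  have hSι : ∀ x, S (ι x) = G x := by
    intro x
    have h : ∃ y, ι y = ι x := ⟨x, rfl⟩
    simp only [hS]
    rw [dif_pos h]
    congr 1
    exact hι h.choose_spec
  have h1 : (univ.filter (fun φ : V → β => ∀ x, φ (ι x) ∈ G x)) = Fintype.piFinset S := by
    ext φ
    simp only [mem_filter, mem_univ, true_and, Fintype.mem_piFinset]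
    constructor
    · intro h v
      by_cases hv : ∃ x, ι x = v
      · obtain ⟨x, rfl⟩ := hv
        rw [hSι]
        exact h x
      · simp only [hS]
        rw [dif_neg hv]
        exact mem_univ _
    · intro h x
      have := h (ι x)
      rwa [hSι] at this
  rw [h1, Fintype.card_piFinset]
  have hβ0 : (Fintype.card β : ℝ) ≠ 0 := by
    have : (0 : ℝ) < Fintype.card β := by exact_mod_cast hβ
    exact this.ne'
  push_cast
  have h2 : ∀ v, ((S v).card : ℝ) = Fintype.card β * (((S v).card : ℝ) / Fintype.card β) := by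
    intro v
    field_simp
  rw [prod_congr rfl fun v _ => h2 v, prod_mul_distrib, prod_const, card_univ]
  congr 1
  rw [← prod_subset (subset_univ (univ.image ι))]
  · rw [prod_image fun x _ y _ h => hι h]
    exact prod_congr rfl fun x _ => by rw [hSι]
  · intro v _ hv
    have h3 : ¬ ∃ x, ι x = v := by
      rintro ⟨x, rfl⟩
      exact hv (mem_image_of_mem _ (mem_univ _))
    simp only [hS]
    rw [dif_neg h3, card_univ, div_self hβ0]

/-- two families of points -/
lemma card_hit2 {V β X Y : Type} [Fintype V] [DecidableEq V] [Fintype β] [DecidableEq β]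
    [Fintype X] [Fintype Y] (f : X → V) (g : Y → V) (hf : Function.Injective f)
    (hg : Function.Injective g) (hfg : ∀ x y, f x ≠ g y) (G : X → Finset β) (G' : Y → Finset β)
    (hβ : 0 < Fintype.card β) :
    ((univ.filter (fun φ : V → β => (∀ x, φ (f x) ∈ G x) ∧ ∀ y, φ (g y) ∈ G' y)).card : ℝ) =
      (Fintype.card β : ℝ) ^ Fintype.card V * ((∏ x, ((G x).card : ℝ) / Fintype.card β) *
        ∏ y, ((G' y).card : ℝ) / Fintype.card β) := by
  classical
  have h := card_hit (Sum.elim f g) (hf.sumElim hg hfg) (Sum.elim G G') hβ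
  rw [Fintype.prod_sum_type] at h
  simp only [Sum.elim_inl, Sum.elim_inr, Sum.forall] at h
  exact h

/-- **Random maps hit weighted spread families.** -/
theorem wspread_hit {V β : Type} [Fintype V] [DecidableEq V] [Fintype β] [DecidableEq β] {k : ℕ}
    (I : Finset (Fin k)) (F : Finset (Fin k → V)) (hinj : ∀ e ∈ F, Function.Injective e)
    (G : Fin k → Finset β) (hG : ∀ a ∉ I, ∀ b ∉ I, ∀ z, z ∈ G a → z ∈ G b → a = b)
    (hGne : ∀ a ∉ I, (G a).Nonempty) (w : Fin k → ℝ) (hw : ∀ a, 0 < w a)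
    (hF : F.Nonempty) (hβ : 0 < Fintype.card β)
    (hsp : ∀ e ∈ F, ∀ A : Finset (Fin k), A ⊆ Iᶜ →
      ((F.filter (fun e' => ∀ a ∈ A, e' a = e a)).card : ℝ) * ∏ a ∈ A, w a ≤ F.card) :
    ((univ.filter (fun φ : V → β => ∀ e ∈ F, ¬ ∀ a ∉ I, φ (e a) ∈ G a)).card : ℝ) ≤
      (∑ a ∈ Iᶜ, (Fintype.card β : ℝ) / ((G a).card * w a)) *
        (Fintype.card β : ℝ) ^ Fintype.card V := by
  classical
  set Q : ℝ := (Fintype.card β : ℝ) with hQ
  have hQ0 : 0 < Q := by
    rw [hQ]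
    exact_mod_cast hβ
  set n := Fintype.card V with hn
  set T : ℝ := (F.card : ℝ) with hT
  have hT0 : 0 < T := by
    rw [hT]
    exact_mod_cast hF.card_pos
  set p : Fin k → ℝ := fun a => ((G a).card : ℝ) / Q with hp
  have hp0 : ∀ a ∈ Iᶜ, 0 < p a := by
    intro a ha
    have : (0 : ℝ) < (G a).card := by exact_mod_cast (hGne a (mem_compl.mp ha)).card_pos
    exact div_pos this hQ0
  set P : ℝ := ∏ a ∈ Iᶜ, p a with hP
  have hP0 : 0 < P := prod_pos hp0
  clear_value P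
  set X : (V → β) → ℝ := fun φ => ∑ e ∈ F, if (∀ a ∉ I, φ (e a) ∈ G a) then (1 : ℝ) else 0
    with hX
  -- the first moment
  have hone : ∀ e ∈ F, ((univ.filter (fun φ : V → β => ∀ a ∉ I, φ (e a) ∈ G a)).card : ℝ) =
      Q ^ n * P := by
    intro e he
    have h1 := card_hit (V := V) (β := β) (X := {a : Fin k // a ∈ Iᶜ}) (fun a => e a.1)
      (fun a b h => Subtype.ext (hinj e he h)) (fun a => G a.1) hβ
    have h2 : (univ.filter (fun φ : V → β => ∀ a ∉ I, φ (e a) ∈ G a)) =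
        univ.filter (fun φ : V → β => ∀ x : {a : Fin k // a ∈ Iᶜ}, φ (e x.1) ∈ G x.1) := by
      ext φ
      simp only [mem_filter, mem_univ, true_and, Subtype.forall, mem_compl]
    rw [h2, h1, hP, ← Finset.prod_coe_sort Iᶜ p]
  have hS1 : ∑ φ, X φ = T * (Q ^ n * P) := by
    rw [hX, Finset.sum_comm]
    have h1 : ∀ e ∈ F, ∑ φ : V → β, (if (∀ a ∉ I, φ (e a) ∈ G a) then (1 : ℝ) else 0) =
        Q ^ n * P := by
      intro e he
      rw [Finset.sum_ite, Finset.sum_const_zero, add_zero, Finset.sum_const, nsmul_eq_mul,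
        mul_one]
      exact hone e he
    rw [Finset.sum_congr rfl h1, Finset.sum_const, nsmul_eq_mul]
  -- pairs
  have hpair : ∀ e ∈ F, ∀ e' ∈ F, ((univ.filter (fun φ : V → β => (∀ a ∉ I, φ (e a) ∈ G a) ∧
      ∀ a ∉ I, φ (e' a) ∈ G a)).card : ℝ) ≤
      Q ^ n * P * (P * ∏ a ∈ Iᶜ.filter (fun a => e' a = e a), (p a)⁻¹) := by
    intro e he e' he'
    set Bf := univ.filter (fun φ : V → β => (∀ a ∉ I, φ (e a) ∈ G a) ∧
      ∀ a ∉ I, φ (e' a) ∈ G a) with hBf
    have hrest : P * ∏ a ∈ Iᶜ.filter (fun a => e' a = e a), (p a)⁻¹ =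
        ∏ a ∈ Iᶜ.filter (fun a => ¬ e' a = e a), p a := by
      rw [hP, ← prod_filter_mul_prod_filter_not Iᶜ (fun a => e' a = e a)]
      have h1 : (∏ a ∈ Iᶜ.filter (fun a => e' a = e a), p a) *
          ∏ a ∈ Iᶜ.filter (fun a => e' a = e a), (p a)⁻¹ = 1 := by
        rw [← prod_mul_distrib]
        exact prod_eq_one fun a ha => mul_inv_cancel₀ (hp0 a (mem_filter.mp ha).1).ne'
      calc _ = ((∏ a ∈ Iᶜ.filter (fun a => e' a = e a), p a) *
          ∏ a ∈ Iᶜ.filter (fun a => e' a = e a), (p a)⁻¹) *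
            ∏ a ∈ Iᶜ.filter (fun a => ¬ e' a = e a), p a := by ring
        _ = _ := by rw [h1, one_mul]
    rw [hrest]
    have hp0' : 0 ≤ ∏ a ∈ Iᶜ.filter (fun a => ¬ e' a = e a), p a :=
      prod_nonneg fun a ha => (hp0 a (mem_filter.mp ha).1).le
    rcases Bf.eq_empty_or_nonempty with h0 | ⟨φ₀, h0⟩
    · rw [h0]
      rw [card_empty, Nat.cast_zero]
      exact mul_nonneg (mul_nonneg (pow_nonneg hQ0.le _) hP0.le) hp0'
    · rw [hBf, mem_filter] at h0
      obtain ⟨-, h1, h2⟩ := h0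
      have hne : ∀ a ∉ I, ∀ b ∉ I, e a = e' b → a = b := by
        intro a ha b hb hab
        apply hG a ha b hb (φ₀ (e a)) (h1 a ha)
        rw [hab]
        exact h2 b hb
      have h3 := card_hit2 (V := V) (β := β) (X := {a : Fin k // a ∈ Iᶜ})
        (Y := {a : Fin k // a ∈ Iᶜ.filter (fun a => ¬ e' a = e a)}) (fun a => e a.1)
        (fun a => e' a.1) (fun a b h => Subtype.ext (hinj e he h))
        (fun a b h => Subtype.ext (hinj e' he' h))
        (fun a b h => by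
          have hb := mem_filter.mp b.2
          have h4 := hne a.1 (mem_compl.mp a.2) b.1 (mem_compl.mp hb.1) h
          rw [h4] at h
          exact hb.2 h.symm)
        (fun a => G a.1) (fun a => G a.1) hβ
      have h4 : Bf ⊆ univ.filter (fun φ : V → β => (∀ x : {a : Fin k // a ∈ Iᶜ},
          φ (e x.1) ∈ G x.1) ∧ ∀ y : {a : Fin k // a ∈ Iᶜ.filter (fun a => ¬ e' a = e a)},
          φ (e' y.1) ∈ G y.1) := by
        intro φ hφ
        rw [hBf, mem_filter] at hφ
        rw [mem_filter]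
        refine ⟨mem_univ _, ?_, ?_⟩
        · rintro ⟨a, ha⟩
          exact hφ.2.1 a (mem_compl.mp ha)
        · rintro ⟨a, ha⟩
          exact hφ.2.2 a (mem_compl.mp (mem_filter.mp ha).1)
      have h5 : (Bf.card : ℝ) ≤ ((univ.filter (fun φ : V → β =>
          (∀ x : {a : Fin k // a ∈ Iᶜ}, φ (e x.1) ∈ G x.1) ∧
          ∀ y : {a : Fin k // a ∈ Iᶜ.filter (fun a => ¬ e' a = e a)},
          φ (e' y.1) ∈ G y.1)).card : ℝ) := by
        exact_mod_cast card_le_card h4
      refine h5.trans (le_of_eq ?_)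
      rw [h3, hP, ← Finset.prod_coe_sort Iᶜ p,
        ← Finset.prod_coe_sort (Iᶜ.filter (fun a => ¬ e' a = e a)) p, mul_assoc]
  -- the second moment
  have hS2 : ∑ φ, X φ ^ 2 ≤ T * (Q ^ n * P * (P * (T * ∏ a ∈ Iᶜ, (1 + (p a)⁻¹ / w a)))) := by
    have h1 : ∀ φ, X φ ^ 2 = ∑ e ∈ F, ∑ e' ∈ F,
        if ((∀ a ∉ I, φ (e a) ∈ G a) ∧ ∀ a ∉ I, φ (e' a) ∈ G a) then (1 : ℝ) else 0 := by
      intro φ
      rw [sq, hX, Finset.sum_mul_sum]
      refine Finset.sum_congr rfl fun e _ => Finset.sum_congr rfl fun e' _ => ?_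
      by_cases c1 : ∀ a ∉ I, φ (e a) ∈ G a
      · by_cases c2 : ∀ a ∉ I, φ (e' a) ∈ G a
        · rw [if_pos c1, if_pos c2, if_pos ⟨c1, c2⟩, mul_one]
        · rw [if_neg c2, mul_zero, if_neg (fun h => c2 h.2)]
      · rw [if_neg c1, zero_mul, if_neg (fun h => c1 h.1)]
    simp only [h1]
    rw [Finset.sum_comm]
    have h2 : ∀ e ∈ F, ∑ φ : V → β, ∑ e' ∈ F,
        (if ((∀ a ∉ I, φ (e a) ∈ G a) ∧ ∀ a ∉ I, φ (e' a) ∈ G a) then (1 : ℝ) else 0) ≤
        Q ^ n * P * (P * (T * ∏ a ∈ Iᶜ, (1 + (p a)⁻¹ / w a))) := by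
      intro e he
      rw [Finset.sum_comm]
      have h3 : ∀ e' ∈ F, ∑ φ : V → β,
          (if ((∀ a ∉ I, φ (e a) ∈ G a) ∧ ∀ a ∉ I, φ (e' a) ∈ G a) then (1 : ℝ) else 0) ≤
          Q ^ n * P * (P * ∏ a ∈ Iᶜ.filter (fun a => e' a = e a), (p a)⁻¹) := by
        intro e' he'
        rw [Finset.sum_ite, Finset.sum_const_zero, add_zero, Finset.sum_const, nsmul_eq_mul,
          mul_one]
        exact hpair e he e' he'
      refine (Finset.sum_le_sum h3).trans ?_
      rw [← Finset.mul_sum, ← Finset.mul_sum]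
      refine mul_le_mul_of_nonneg_left (mul_le_mul_of_nonneg_left ?_ hP0.le) (by positivity)
      have hnn : ∀ A : Finset (Fin k), A ⊆ Iᶜ → 0 ≤ ∏ a ∈ A, (p a)⁻¹ := fun A hA =>
        prod_nonneg fun a ha => (inv_pos.mpr (hp0 a (hA ha))).le
      have h4 : ∀ e' ∈ F, ∏ a ∈ Iᶜ.filter (fun a => e' a = e a), (p a)⁻¹ ≤
          ∑ A ∈ Iᶜ.powerset, if (∀ a ∈ A, e' a = e a) then ∏ a ∈ A, (p a)⁻¹ else 0 := by
        intro e' _
        have h5 : (Iᶜ.filter (fun a => e' a = e a)) ∈ Iᶜ.powerset :=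
          mem_powerset.mpr (filter_subset _ _)
        have h6 : (if (∀ a ∈ Iᶜ.filter (fun a => e' a = e a), e' a = e a)
            then ∏ a ∈ Iᶜ.filter (fun a => e' a = e a), (p a)⁻¹ else 0) ≤
            ∑ A ∈ Iᶜ.powerset, if (∀ a ∈ A, e' a = e a) then ∏ a ∈ A, (p a)⁻¹ else 0 :=
          Finset.single_le_sum (f := fun A : Finset (Fin k) =>
            if (∀ a ∈ A, e' a = e a) then ∏ a ∈ A, (p a)⁻¹ else 0)
            (fun A hA => by
              show 0 ≤ (if (∀ a ∈ A, e' a = e a) then ∏ a ∈ A, (p a)⁻¹ else 0)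
              split_ifs
              · exact hnn A (mem_powerset.mp hA)
              · exact le_rfl) h5
        rwa [if_pos (fun a ha => (mem_filter.mp ha).2)] at h6
      refine (Finset.sum_le_sum h4).trans ?_
      rw [Finset.sum_comm]
      have h7 : ∀ A ∈ Iᶜ.powerset,
          ∑ e' ∈ F, (if (∀ a ∈ A, e' a = e a) then ∏ a ∈ A, (p a)⁻¹ else 0) ≤
          T * ∏ a ∈ A, ((p a)⁻¹ / w a) := by
        intro A hA
        rw [Finset.sum_ite, Finset.sum_const_zero, add_zero, Finset.sum_const, nsmul_eq_mul]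
        have h8 := hsp e he A (mem_powerset.mp hA)
        have hwp : 0 < ∏ a ∈ A, w a := prod_pos fun a _ => hw a
        rw [prod_div_distrib, mul_div_assoc', le_div_iff₀ hwp]
        calc ((F.filter (fun e' => ∀ a ∈ A, e' a = e a)).card : ℝ) * (∏ a ∈ A, (p a)⁻¹) *
              ∏ a ∈ A, w a
            = (((F.filter (fun e' => ∀ a ∈ A, e' a = e a)).card : ℝ) * ∏ a ∈ A, w a) *
              ∏ a ∈ A, (p a)⁻¹ := by ring
          _ ≤ T * ∏ a ∈ A, (p a)⁻¹ :=
              mul_le_mul_of_nonneg_right h8 (hnn A (mem_powerset.mp hA))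
      refine (Finset.sum_le_sum h7).trans ?_
      rw [← Finset.mul_sum, ← Finset.prod_one_add]
    refine (Finset.sum_le_sum h2).trans (le_of_eq ?_)
    rw [Finset.sum_const, nsmul_eq_mul]
  -- Cauchy-Schwarz
  set bad := univ.filter (fun φ : V → β => ∀ e ∈ F, ¬ ∀ a ∉ I, φ (e a) ∈ G a) with hbad
  have hbadX : ∀ φ ∈ bad, X φ = 0 := by
    intro φ hφ
    rw [hbad, mem_filter] at hφ
    rw [hX]
    refine Finset.sum_eq_zero fun e he => ?_
    rw [if_neg (hφ.2 e he)]
  have hCS : (∑ φ, X φ) ^ 2 ≤ (badᶜ.card : ℝ) * ∑ φ, X φ ^ 2 := by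
    have h1 : ∑ φ, X φ = ∑ φ ∈ badᶜ, X φ := by
      rw [← Finset.sum_compl_add_sum bad X, Finset.sum_eq_zero hbadX, add_zero]
    rw [h1]
    refine (sq_sum_le_card_mul_sum_sq (s := badᶜ) (f := X)).trans ?_
    refine mul_le_mul_of_nonneg_left ?_ (Nat.cast_nonneg _)
    exact Finset.sum_le_sum_of_subset_of_nonneg (subset_univ _) fun φ _ _ => sq_nonneg _
  set y : ℝ := ∑ a ∈ Iᶜ, (p a)⁻¹ / w a with hy
  have hprod : ∏ a ∈ Iᶜ, (1 + (p a)⁻¹ / w a) ≤ Real.exp y := by
    rw [hy, Real.exp_sum]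
    refine prod_le_prod (fun a ha => ?_) (fun a _ => ?_)
    · have h1 := hp0 a ha
      have h2 := hw a
      positivity
    · have := Real.add_one_le_exp ((p a)⁻¹ / w a)
      linarith
  have hmain : Q ^ n ≤ (badᶜ.card : ℝ) * Real.exp y := by
    have h1 := hCS.trans (mul_le_mul_of_nonneg_left hS2 (Nat.cast_nonneg _))
    rw [hS1] at h1
    have h2 : (T * (Q ^ n * P)) ^ 2 = (T ^ 2 * (Q ^ n * P ^ 2)) * Q ^ n := by ring
    have h3 : (badᶜ.card : ℝ) * (T * (Q ^ n * P * (P * (T * ∏ a ∈ Iᶜ, (1 + (p a)⁻¹ / w a))))) =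
        (T ^ 2 * (Q ^ n * P ^ 2)) * ((badᶜ.card : ℝ) * ∏ a ∈ Iᶜ, (1 + (p a)⁻¹ / w a)) := by ring
    rw [h2, h3] at h1
    refine (le_of_mul_le_mul_left h1 (by positivity)).trans ?_
    exact mul_le_mul_of_nonneg_left hprod (Nat.cast_nonneg _)
  have htot : (badᶜ.card : ℝ) + bad.card = Q ^ n := by
    have h1 := Finset.card_compl_add_card bad
    have h2 : Fintype.card (V → β) = Fintype.card β ^ n := by rw [Fintype.card_fun]
    rw [h2] at h1
    rw [hQ]
    exact_mod_cast h1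
  have hQn : 0 < Q ^ n := by positivity
  have hgood : Q ^ n * (1 - y) ≤ badᶜ.card := by
    have h1 : 1 - y ≤ Real.exp (-y) := by
      have := Real.add_one_le_exp (-y)
      linarith
    have h2 : Real.exp y * Real.exp (-y) = 1 := by
      rw [← Real.exp_add, add_neg_cancel, Real.exp_zero]
    calc Q ^ n * (1 - y) ≤ Q ^ n * Real.exp (-y) := by gcongr
      _ ≤ ((badᶜ.card : ℝ) * Real.exp y) * Real.exp (-y) := by
          have := Real.exp_pos (-y)
          gcongr
      _ = badᶜ.card * (Real.exp y * Real.exp (-y)) := by ring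
      _ = badᶜ.card := by rw [h2, mul_one]
  have hfin : (bad.card : ℝ) ≤ y * Q ^ n := by linarith
  refine hfin.trans (le_of_eq ?_)
  congr 1
  rw [hy]
  refine sum_congr rfl fun a _ => ?_
  rw [hp]
  simp only
  rw [inv_div, div_div]

end Pool.Agent.W2helper86.HU
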