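import Pool.Agent.W2helper86.HU.Reg

/-!
# Weighted spread subfamilies
-/

set_option autoImplicit false

namespace Pool.Agent.W2helper86.HU

open Finset

section wsp

variable {V : Type} [Fintype V] [DecidableEq V] {k : ℕ}

lemma dg_mono {F F' : Finset (Fin k → V)} (h : F' ⊆ F) (i : Fin k) (e : Fin k → V) :
    dg F' i e ≤ dg F i e := by
  unfold dg
  apply card_le_card
  apply image_subset_image
  intro x hx
  rw [mem_cls] at hx ⊢
  exact ⟨h hx.1, hx.2⟩

/-- the admissible triples -/
def Adm (T : Finset (Fin k → V)) (s B : ℕ)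
    (p : Finset (Fin k) × Finset (Fin k → V) × (Fin k → Fin (B + 1))) : Prop :=
  p.2.1 ⊆ T ∧ p.2.1.Nonempty ∧ (∀ e ∈ p.2.1, ∀ e' ∈ p.2.1, ∀ a ∈ p.1, e' a = e a) ∧
    ∀ e ∈ p.2.1, ∀ a ∉ p.1, dg p.2.1 a e ≤ s ^ (p.2.2 a).val

/-- the exponents of the score -/
def hh (q B : ℕ) (p : Finset (Fin k) × (Fin k → Fin (B + 1))) (a : Fin k) : ℕ :=
  if a ∈ p.1 then (q - 1) * B + 1 else (q - 1) * (B - (p.2 a).val)

/-- **Weighted spread subfamilies.** -/
theorem exists_wspread (T : Finset (Fin k → V)) (hT : T.Nonempty) (σ q B : ℕ) (hσ : 2 ≤ σ)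
    (hq : 1 ≤ q) (hV : Fintype.card V ≤ σ ^ (q * B)) :
    ∃ I : Finset (Fin k), ∃ F ⊆ T, ∃ b : Fin k → ℕ, F.Nonempty ∧ (∀ a, b a ≤ B) ∧
      (∀ e ∈ F, ∀ e' ∈ F, ∀ a ∈ I, e' a = e a) ∧
      (∀ e ∈ F, ∀ A : Finset (Fin k), A ⊆ Iᶜ →
        (F.filter (fun e' => ∀ a ∈ A, e' a = e a)).card * σ ^ (∑ a ∈ A, ((q - 1) * b a + 1)) ≤
          F.card) ∧
      T.card ≤ (B + 1) ^ k * σ ^ (q * (∑ a ∈ Iᶜ, b a) + q ^ 2 * k) := by
  classical
  have hs2 : 2 ≤ σ ^ q := by
    calc 2 ≤ σ := hσ
      _ = σ ^ 1 := (pow_one σ).symm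
      _ ≤ σ ^ q := Nat.pow_le_pow_right (by omega) hq
  obtain ⟨T1, hT1, b1, hne1, hb1, hc1, hdeg1, hlow1⟩ := exists_reg T hT (σ ^ q) B hs2
    (by rw [← pow_mul]; exact hV) k le_rfl
  set b1' : Fin k → Fin (B + 1) := fun a => ⟨b1 a.val, Nat.lt_succ_of_le (hb1 _)⟩ with hb1'
  have hadm1 : Adm T (σ ^ q) B (∅, T1, b1') :=
    ⟨hT1, hne1, fun _ _ _ _ a ha => absurd ha (notMem_empty a),
      fun e he a _ => hdeg1 e he a (by omega)⟩
  obtain ⟨⟨I, F, b⟩, hp, hmax⟩ := exists_max_image
    ((univ : Finset (Finset (Fin k) × Finset (Fin k → V) × (Fin k → Fin (B + 1)))).filter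
      (fun p => Adm T (σ ^ q) B p))
    (fun p => p.2.1.card * σ ^ (∑ a, hh q B (p.1, p.2.2) a))
    ⟨(∅, T1, b1'), mem_filter.mpr ⟨mem_univ _, hadm1⟩⟩
  rw [mem_filter] at hp
  obtain ⟨-, hF1, hF2, hF3, hF4⟩ := hp
  simp only at hF1 hF2 hF3 hF4
  refine ⟨I, F, hF1, fun a => (b a).val, hF2, fun a => Nat.lt_succ_iff.mp (b a).2,
    hF3, ?_, ?_⟩
  · intro e he A hA
    have hadm : Adm T (σ ^ q) B (I ∪ A, F.filter (fun e' => ∀ a ∈ A, e' a = e a), b) := by
      refine ⟨(filter_subset _ _).trans hF1, ⟨e, mem_filter.mpr ⟨he, fun _ _ => rfl⟩⟩, ?_, ?_⟩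
      · intro x hx y hy a ha
        rw [mem_filter] at hx hy
        rcases mem_union.mp ha with h1 | h1
        · exact hF3 x hx.1 y hy.1 a h1
        · rw [hy.2 a h1, hx.2 a h1]
      · intro x hx a ha
        rw [mem_union, not_or] at ha
        rw [mem_filter] at hx
        exact (dg_mono (filter_subset _ _) a x).trans (hF4 x hx.1 a ha.1)
    have h1 := hmax _ (mem_filter.mpr ⟨mem_univ _, hadm⟩)
    simp only at h1
    have h2 : ∀ a : Fin k, hh q B (I ∪ A, b) a = hh q B (I, b) a +
        if a ∈ A then (q - 1) * (b a).val + 1 else 0 := by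
      intro a
      unfold hh
      by_cases haA : a ∈ A
      · have haI : a ∉ I := mem_compl.mp (hA haA)
        have hbB : (b a).val ≤ B := Nat.lt_succ_iff.mp (b a).2
        simp only [mem_union, haA, haI, or_true, if_true, if_false]
        have h3 : (q - 1) * B = (q - 1) * (B - (b a).val) + (q - 1) * (b a).val := by
          rw [← mul_add, Nat.sub_add_cancel hbB]
        omega
      · simp only [mem_union, haA, or_false, if_false, add_zero]
    simp only [h2] at h1
    rw [sum_add_distrib, sum_ite_mem, univ_inter, pow_add] at h1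
    have h3 : 0 < σ ^ (∑ a, hh q B (I, b) a) := pow_pos (by omega) _
    have h4 : ((F.filter (fun e' => ∀ a ∈ A, e' a = e a)).card *
        σ ^ (∑ a ∈ A, ((q - 1) * (b a).val + 1))) * σ ^ (∑ a, hh q B (I, b) a) ≤
        F.card * σ ^ (∑ a, hh q B (I, b) a) := by
      calc _ = (F.filter (fun e' => ∀ a ∈ A, e' a = e a)).card *
        (σ ^ (∑ a, hh q B (I, b) a) * σ ^ (∑ a ∈ A, ((q - 1) * (b a).val + 1))) := by ring
        _ ≤ _ := h1
    exact Nat.le_of_mul_le_mul_right h4 h3
  · -- the number of free letters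
    obtain ⟨e₁, he₁⟩ := hF2
    set X := ∑ a ∈ Iᶜ, (b a).val with hX
    have hup : F.card ≤ σ ^ (q * X) := by
      have h1 := cls_upper F (fun i => if h : i < k then (if (⟨i, h⟩ : Fin k) ∈ I then 1
        else (σ ^ q) ^ (b ⟨i, h⟩).val) else 1) (by
          intro e he i
          rw [dif_pos i.2]
          by_cases hi : i ∈ I
          · rw [if_pos hi]
            unfold dg
            rw [card_le_one]
            intro x hx y hy
            rw [mem_image] at hx hy
            obtain ⟨x', hx', rfl⟩ := hx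
            obtain ⟨y', hy', rfl⟩ := hy
            exact hF3 y' (mem_cls.mp hy').1 x' (mem_cls.mp hx').1 i hi
          · rw [if_neg hi]
            exact hF4 e he i hi) k le_rfl e₁ he₁
      rw [Nat.sub_self, cls_zero] at h1
      refine h1.trans (le_of_eq ?_)
      rw [← Finset.range_eq_Ico, Finset.prod_range]
      have h2 : ∀ a : Fin k, (if h : a.val < k then (if (⟨a.val, h⟩ : Fin k) ∈ I then 1
          else (σ ^ q) ^ (b ⟨a.val, h⟩).val) else 1) =
          σ ^ (q * (if a ∈ Iᶜ then (b a).val else 0)) := by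
        intro a
        rw [dif_pos a.2]
        by_cases ha : a ∈ I
        · have : a ∉ Iᶜ := by simp [ha]
          simp [ha]
        · simp [ha, pow_mul]
      simp only [h2]
      rw [prod_pow_eq_pow_sum, ← mul_sum, sum_ite_mem, univ_inter]
    -- upper bound of the score
    have hG2 : F.card * σ ^ (∑ a, hh q B (I, b) a) ≤ σ ^ (X + (q - 1) * B * k + k) := by
      calc F.card * σ ^ (∑ a, hh q B (I, b) a)
          ≤ σ ^ (q * X) * σ ^ (∑ a, hh q B (I, b) a) := Nat.mul_le_mul_right _ hup
        _ = σ ^ (q * X + ∑ a, hh q B (I, b) a) := (pow_add _ _ _).symm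
        _ ≤ σ ^ (X + (q - 1) * B * k + k) := by
            apply Nat.pow_le_pow_right (by omega)
            have h1 : ∀ a : Fin k, hh q B (I, b) a + (if a ∈ Iᶜ then (q - 1) * (b a).val else 0) ≤
                (q - 1) * B + 1 := by
              intro a
              unfold hh
              by_cases ha : a ∈ I
              · simp [ha]
              · have hbB : (b a).val ≤ B := Nat.lt_succ_iff.mp (b a).2
                simp only [ha, if_false, mem_compl, not_false_iff, if_true]
                rw [← mul_add, Nat.sub_add_cancel hbB]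
                omega
            have h2 : ∑ a, hh q B (I, b) a + (q - 1) * X ≤ k * ((q - 1) * B + 1) := by
              have h3 := sum_le_sum (s := (univ : Finset (Fin k))) fun a _ => h1 a
              rw [sum_add_distrib, sum_ite_mem, univ_inter, ← mul_sum, sum_const, card_univ,
                Fintype.card_fin, smul_eq_mul] at h3
              exact h3
            have h4 : q * X = X + (q - 1) * X := by
              obtain ⟨r, rfl⟩ : ∃ r, q = r + 1 := ⟨q - 1, by omega⟩
              rw [Nat.add_sub_cancel]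
              ring
            have h5 : k * ((q - 1) * B + 1) = (q - 1) * B * k + k := by ring
            omega
    -- lower bound of the score
    have hG1 := hmax _ (mem_filter.mpr ⟨mem_univ _, hadm1⟩)
    simp only at hG1
    set E1 := ∑ a, hh q B (∅, b1') a with hE1
    set S1 := ∑ a : Fin k, b1 a.val with hS1
    have hE : E1 + (q - 1) * S1 = (q - 1) * B * k := by
      rw [hE1, hS1, mul_sum, ← sum_add_distrib]
      have h1 : ∀ a : Fin k, hh q B (∅, b1') a + (q - 1) * b1 a.val = (q - 1) * B := by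
        intro a
        unfold hh
        simp only [notMem_empty, if_false, hb1']
        rw [← mul_add, Nat.sub_add_cancel (hb1 _)]
      simp only [h1]
      rw [sum_const, card_univ, Fintype.card_fin, smul_eq_mul]
      ring
    have h3 : σ ^ (q * S1) ≤ σ ^ (q * k) * T1.card := by
      obtain ⟨e, he⟩ := hne1
      have h4 := hlow1 e he
      rw [Nat.sub_self, cls_zero, ← Finset.range_eq_Ico, Finset.sum_range, ← pow_mul,
        ← pow_mul] at h4
      exact h4
    have h5 : T1.card * σ ^ E1 ≤ σ ^ (X + (q - 1) * B * k + k) := hG1.trans hG2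
    have ht1 : 0 < T1.card := card_pos.mpr hne1
    have h6 : T1.card ≤ σ ^ (q * X + q ^ 2 * k) := by
      obtain ⟨r, rfl⟩ : ∃ r, q = r + 1 := ⟨q - 1, by omega⟩
      rw [Nat.add_sub_cancel] at hE h5
      set t1 := T1.card
      have e1 : t1 ^ (r + 1) * σ ^ ((r + 1) * (r * B * k)) ≤
          σ ^ ((r + 1) * X + (r + 1) ^ 2 * k) * t1 ^ r * σ ^ ((r + 1) * (r * B * k)) := by
        calc t1 ^ (r + 1) * σ ^ ((r + 1) * (r * B * k))
            = (t1 * σ ^ E1) ^ (r + 1) * (σ ^ ((r + 1) * S1)) ^ r := by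
              rw [← hE, mul_pow, ← pow_mul, ← pow_mul, mul_assoc, ← pow_add]
              congr 2
              ring
          _ ≤ (σ ^ (X + r * B * k + k)) ^ (r + 1) * (σ ^ ((r + 1) * k) * t1) ^ r :=
              Nat.mul_le_mul (Nat.pow_le_pow_left h5 _) (Nat.pow_le_pow_left h3 _)
          _ = σ ^ ((r + 1) * X + (r + 1) ^ 2 * k) * t1 ^ r * σ ^ ((r + 1) * (r * B * k)) := by
              rw [mul_pow, ← pow_mul, ← pow_mul]
              have : (X + r * B * k + k) * (r + 1) + (r + 1) * k * r =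
                  ((r + 1) * X + (r + 1) ^ 2 * k) + (r + 1) * (r * B * k) := by ring
              calc σ ^ ((X + r * B * k + k) * (r + 1)) * (σ ^ ((r + 1) * k * r) * t1 ^ r)
                  = σ ^ ((X + r * B * k + k) * (r + 1) + (r + 1) * k * r) * t1 ^ r := by
                    rw [pow_add]
                    ring
                _ = _ := by
                    rw [this, pow_add]
                    ring
      have e2 := Nat.le_of_mul_le_mul_right e1 (pow_pos (by omega) _)
      have e3 : t1 * t1 ^ r ≤ σ ^ ((r + 1) * X + (r + 1) ^ 2 * k) * t1 ^ r := by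
        rw [← pow_succ']
        exact e2
      exact Nat.le_of_mul_le_mul_right e3 (pow_pos ht1 _)
    exact hc1.trans (Nat.mul_le_mul_left _ h6)

end wsp

end Pool.Agent.W2helper86.HU
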