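import Pool.Agent.W2helper86.HU.Circ
import Pool.Agent.W2helper86.HU.WSp
import Pool.Agent.W2helper86.HU.WHit

/-!
# Random reductions with blocks of letters from the clique problem to subgraphs of a host graph
-/

set_option autoImplicit false

namespace Pool.Agent.W2helper86.HU

open Finset Pool.Agent.H540R2 Pool.Agent.W2helper86.KQ Pool.Agent.W953.NW

section blk

variable {n m k L : ℕ} (H : SimpleGraph (Fin n)) (I : Finset (Fin k)) (e0 : Fin k → Fin n)
  (c : Fin k → ℕ) (φ : Fin n → Fin k × (Fin L → Fin m))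

/-- the usable vertices which are not fixed -/
def BFree (u : Fin n) : Prop := ¬ InR I e0 u ∧ (φ u).1 ∉ I

/-- a pair which may be an edge -/
def BBase (u v : Fin n) : Prop := H.Adj u v ∧ (InR I e0 u ∨ BFree I e0 φ u) ∧
  (InR I e0 v ∨ BFree I e0 φ v) ∧ (BFree I e0 φ u → BFree I e0 φ v → (φ u).1 ≠ (φ v).1)

/-- the letters of a vertex which count -/
def Act (u : Fin n) (i : Fin L) : Prop := BFree I e0 φ u ∧ i.val < c (φ u).1

/-- all letters of the two vertices which count are different and adjacent -/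
def Ltr (F : SimpleGraph (Fin m)) (u v : Fin n) : Prop :=
  ∀ π π' : Bool × Fin L, π ≠ π' → Act I e0 c φ (cond π.1 v u) π.2 →
    Act I e0 c φ (cond π'.1 v u) π'.2 → F.Adj ((φ (cond π.1 v u)).2 π.2)
      ((φ (cond π'.1 v u)).2 π'.2)

lemma bbase_symm {u v : Fin n} (h : BBase H I e0 φ u v) : BBase H I e0 φ v u :=
  ⟨h.1.symm, h.2.2.1, h.2.1, fun h1 h2 => (h.2.2.2 h2 h1).symm⟩

lemma ltr_symm {F : SimpleGraph (Fin m)} {u v : Fin n} (h : Ltr I e0 c φ F u v) :
    Ltr I e0 c φ F v u := by
  rintro ⟨b, i⟩ ⟨b', i'⟩ hne h1 h2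
  have h3 := h (!b, i) (!b', i') (by
    intro h4
    apply hne
    rw [Prod.mk.injEq] at h4 ⊢
    exact ⟨Bool.not_inj h4.1, h4.2⟩)
  have h4 : ∀ b : Bool, cond (!b) v u = cond b u v := by
    intro b
    cases b <;> rfl
  simp only [h4] at h3
  exact h3 h1 h2

/-- the graph on the vertices of the host graph -/
def projB (F : SimpleGraph (Fin m)) : SimpleGraph (Fin n) where
  Adj u v := BBase H I e0 φ u v ∧ Ltr I e0 c φ F u v
  symm := ⟨fun _ _ h => ⟨bbase_symm H I e0 φ h.1, ltr_symm I e0 c φ h.2⟩⟩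
  loopless := ⟨fun u h => H.loopless.irrefl u h.1.1⟩

lemma projB_le (F : SimpleGraph (Fin m)) : projB H I e0 c φ F ≤ H := fun _ _ h => h.1.1

/-- the positions of the letters -/
def lam (L : ℕ) (I : Finset (Fin k)) (c : Fin k → ℕ) : Finset (Fin k × Fin L) :=
  univ.filter (fun l => l.1 ∉ I ∧ l.2.val < c l.1)

lemma card_lt_fin (L c : ℕ) (h : c ≤ L) : (univ.filter (fun i : Fin L => i.val < c)).card = c := by
  have h1 : (univ.filter (fun i : Fin L => i.val < c)) = univ.image (Fin.castLE h) := by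
    ext i
    rw [mem_filter, mem_image]
    constructor
    · rintro ⟨-, hi⟩
      exact ⟨⟨i.val, hi⟩, mem_univ _, rfl⟩
    · rintro ⟨j, -, rfl⟩
      exact ⟨mem_univ _, j.2⟩
  rw [h1, card_image_of_injective _ (Fin.castLE_injective h), card_univ, Fintype.card_fin]

lemma lam_card (hc : ∀ a, c a ≤ L) : (lam L I c).card = ∑ a ∈ Iᶜ, c a := by
  classical
  rw [card_eq_sum_card_fiberwise (f := Prod.fst) (t := Iᶜ) (fun l hl => by
    rw [mem_coe, lam, mem_filter] at hl
    rw [mem_coe, mem_compl]
    exact hl.2.1)]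
  refine sum_congr rfl fun a ha => ?_
  have h1 : (lam L I c).filter (fun l => l.1 = a) =
      (univ.filter (fun i : Fin L => i.val < c a)).image (fun i => (a, i)) := by
    ext ⟨a', i⟩
    rw [mem_filter, lam, mem_filter, mem_image]
    constructor
    · rintro ⟨⟨-, -, h3⟩, h4⟩
      have h4' : a' = a := h4
      subst h4'
      exact ⟨i, mem_filter.mpr ⟨mem_univ _, h3⟩, rfl⟩
    · rintro ⟨j, hj, h⟩
      rw [Prod.mk.injEq] at h
      obtain ⟨rfl, rfl⟩ := h
      exact ⟨⟨mem_univ _, mem_compl.mp ha, (mem_filter.mp hj).2⟩, rfl⟩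
  rw [h1, card_image_of_injective _ (fun x y h => (Prod.mk.inj h).2), card_lt_fin _ _ (hc a)]

lemma projB_sound (F : SimpleGraph (Fin m)) (hk : 2 ≤ k)
    (h : ¬ (projB H I e0 c φ F).CliqueFree k) : ¬ F.CliqueFree (lam L I c).card := by
  classical
  intro hF
  apply h
  intro Q hQ
  have hother : ∀ u ∈ Q, ∃ v ∈ Q, v ≠ u ∧ (projB H I e0 c φ F).Adj u v := by
    intro u hu
    have h1 : 1 < Q.card := by
      rw [hQ.card_eq]
      omega
    obtain ⟨v, hv, hvu⟩ := exists_mem_ne h1 u
    exact ⟨v, hv, hvu, hQ.isClique (mem_coe.mpr hu) (mem_coe.mpr hv) hvu.symm⟩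
  have hall : ∀ u ∈ Q, InR I e0 u ∨ BFree I e0 φ u := by
    intro u hu
    obtain ⟨v, -, -, h2⟩ := hother u hu
    exact h2.1.2.1
  set QR := Q.filter (fun u => InR I e0 u) with hQR
  set QF := Q.filter (fun u => BFree I e0 φ u) with hQF
  have hcard1 : Q.card ≤ QR.card + QF.card := by
    have h1 : Q ⊆ QR ∪ QF := by
      intro u hu
      rw [mem_union, hQR, hQF, mem_filter, mem_filter]
      rcases hall u hu with h2 | h2
      · exact Or.inl ⟨hu, h2⟩
      · exact Or.inr ⟨hu, h2⟩
    exact (card_le_card h1).trans (card_union_le _ _)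
  have hcard2 : QR.card ≤ I.card := by
    have h1 : QR ⊆ I.image e0 := by
      intro u hu
      rw [hQR, mem_filter] at hu
      obtain ⟨a, ha, hau⟩ := hu.2
      exact mem_image.mpr ⟨a, ha, hau⟩
    exact (card_le_card h1).trans card_image_le
  have hinj : ∀ u ∈ QF, ∀ v ∈ QF, (φ u).1 = (φ v).1 → u = v := by
    intro u hu v hv huv
    by_contra hne
    rw [hQF, mem_filter] at hu hv
    have h2 := hQ.isClique (mem_coe.mpr hu.1) (mem_coe.mpr hv.1) hne
    exact h2.1.2.2.2 hu.2 hv.2 huv
  have hI : I.card + Iᶜ.card = k := by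
    rw [card_add_card_compl, Fintype.card_fin]
  have himg : QF.image (fun u => (φ u).1) = Iᶜ := by
    apply eq_of_subset_of_card_le
    · intro a ha
      rw [mem_image] at ha
      obtain ⟨u, hu, rfl⟩ := ha
      rw [hQF, mem_filter] at hu
      exact mem_compl.mpr hu.2.2
    · rw [card_image_of_injOn (fun u hu v hv h => hinj u hu v hv h)]
      have := hQ.card_eq
      omega
  have hex : ∀ a, a ∉ I → ∃ u ∈ QF, (φ u).1 = a := by
    intro a ha
    have h1 : a ∈ QF.image (fun u => (φ u).1) := by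
      rw [himg]
      exact mem_compl.mpr ha
    rw [mem_image] at h1
    exact h1
  have hkne : Nonempty (Fin n) := by
    have h1 : 0 < Q.card := by
      rw [hQ.card_eq]
      omega
    exact ⟨(card_pos.mp h1).choose⟩
  choose! v hv1 hv2 using hex
  set y : Fin k × Fin L → Fin m := fun l => (φ (v l.1)).2 l.2 with hy
  have hact : ∀ l ∈ lam L I c, Act I e0 c φ (v l.1) l.2 := by
    intro l hl
    rw [lam, mem_filter] at hl
    refine ⟨(mem_filter.mp (hv1 l.1 hl.2.1)).2, ?_⟩
    rw [hv2 l.1 hl.2.1]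
    exact hl.2.2
  have hadj : ∀ l ∈ lam L I c, ∀ l' ∈ lam L I c, l ≠ l' → F.Adj (y l) (y l') := by
    intro l hl l' hl' hne
    have hl1 := (mem_filter.mp hl).2.1
    have hl1' := (mem_filter.mp hl').2.1
    have hvQ : v l.1 ∈ Q := (mem_filter.mp (hv1 l.1 hl1)).1
    have hvQ' : v l'.1 ∈ Q := (mem_filter.mp (hv1 l'.1 hl1')).1
    by_cases haa : l.1 = l'.1
    · obtain ⟨u', -, -, h2⟩ := hother (v l.1) hvQ
      have h3 := h2.2 (false, l.2) (false, l'.2) (by
        intro h4
        apply hne
        exact Prod.ext haa (Prod.mk.inj h4).2) (hact l hl) (by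
          have := hact l' hl'
          rw [← haa] at this
          exact this)
      simp only [hy]
      rw [← haa]
      exact h3
    · have hvne : v l.1 ≠ v l'.1 := by
        intro h4
        apply haa
        rw [← hv2 l.1 hl1, ← hv2 l'.1 hl1', h4]
      have h2 := hQ.isClique (mem_coe.mpr hvQ) (mem_coe.mpr hvQ') hvne
      exact h2.2 (false, l.2) (true, l'.2) (by
        intro h4
        exact absurd (Prod.mk.inj h4).1 (by simp)) (hact l hl) (hact l' hl')
  apply hF ((lam L I c).image y)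
  constructor
  · intro a ha b hb hab
    rw [mem_coe, mem_image] at ha hb
    obtain ⟨l, hl, rfl⟩ := ha
    obtain ⟨l', hl', rfl⟩ := hb
    exact hadj l hl l' hl' (fun h1 => hab (by rw [h1]))
  · rw [card_image_of_injOn]
    intro l hl l' hl' hll
    by_contra hne
    have h2 := hadj l (mem_coe.mp hl) l' (mem_coe.mp hl') hne
    have h3 : y l = y l' := hll
    rw [h3] at h2
    exact F.loopless.irrefl _ h2

lemma projB_complete (F : SimpleGraph (Fin m)) (x : Fin k × Fin L → Fin m)
    (hx : ∀ l ∈ lam L I c, ∀ l' ∈ lam L I c, l ≠ l' → F.Adj (x l) (x l'))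
    (e : Fin k → Fin n) (he : e ∈ tup H k) (he0 : ∀ a ∈ I, e a = e0 a)
    (hφ : ∀ a ∉ I, (φ (e a)).1 = a ∧ ∀ i : Fin L, i.val < c a → (φ (e a)).2 i = x (a, i)) :
    ¬ (projB H I e0 c φ F).CliqueFree k := by
  classical
  have hinj := tup_inj he
  rw [tup, mem_filter] at he
  have hR : ∀ a ∈ I, InR I e0 (e a) := fun a ha => ⟨a, ha, (he0 a ha).symm⟩
  have hRn : ∀ a ∉ I, ¬ InR I e0 (e a) := by
    rintro a ha ⟨b, hb, hbe⟩
    rw [← he0 b hb] at hbe
    exact ha ((hinj hbe) ▸ hb)
  have hF : ∀ a ∉ I, BFree I e0 φ (e a) := by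
    intro a ha
    refine ⟨hRn a ha, ?_⟩
    rw [(hφ a ha).1]
    exact ha
  have hRnot : ∀ a, BFree I e0 φ (e a) → a ∉ I := fun a h ha => h.1 (hR a ha)
  intro hcf
  apply hcf (univ.image e)
  constructor
  · intro u hu v hv huv
    rw [mem_coe, mem_image] at hu hv
    obtain ⟨a, -, rfl⟩ := hu
    obtain ⟨b, -, rfl⟩ := hv
    have hab : a ≠ b := fun h => huv (by rw [h])
    refine ⟨⟨he.2 a b hab, ?_, ?_, ?_⟩, ?_⟩
    · by_cases ha : a ∈ I
      · exact Or.inl (hR a ha)
      · exact Or.inr (hF a ha)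
    · by_cases hb : b ∈ I
      · exact Or.inl (hR b hb)
      · exact Or.inr (hF b hb)
    · intro h1 h2
      rw [(hφ a (hRnot a h1)).1, (hφ b (hRnot b h2)).1]
      exact hab
    · rintro ⟨β, i⟩ ⟨β', i'⟩ hne h1 h2
      -- the positions
      have hpos : ∀ β : Bool, ∃ d : Fin k, cond β (e b) (e a) = e d ∧
          d = cond β b a := by
        intro β
        cases β
        · exact ⟨a, rfl, rfl⟩
        · exact ⟨b, rfl, rfl⟩
      obtain ⟨d, hd1, hd2⟩ := hpos β
      obtain ⟨d', hd1', hd2'⟩ := hpos β'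
      simp only [hd1] at h1 ⊢
      simp only [hd1'] at h2 ⊢
      have hdI : d ∉ I := hRnot d h1.1
      have hdI' : d' ∉ I := hRnot d' h2.1
      have h3 := h1.2
      have h3' := h2.2
      rw [(hφ d hdI).1] at h3
      rw [(hφ d' hdI').1] at h3'
      rw [(hφ d hdI).2 i h3, (hφ d' hdI').2 i' h3']
      apply hx
      · rw [lam, mem_filter]
        exact ⟨mem_univ _, hdI, h3⟩
      · rw [lam, mem_filter]
        exact ⟨mem_univ _, hdI', h3'⟩
      · intro h4
        apply hne
        rw [Prod.mk.injEq] at h4 ⊢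
        refine ⟨?_, h4.2⟩
        have h5 := h4.1
        rw [hd2, hd2'] at h5
        cases β <;> cases β'
        · rfl
        · exact absurd h5 hab
        · exact absurd h5.symm hab
        · rfl
  · rw [card_image_of_injective _ hinj, card_univ, Fintype.card_fin]

end blk

/-! ### circuits -/

lemma mc_nodes {N : ℕ} {ι : Type} [DecidableEq ι] (S : Finset ι) (ν : ι → Node N)
    (hν : ∀ i l, (ν i).wires l = 0) (F : BF N)
    (hF : ∀ x, (F x = true ↔ ∀ i ∈ S, (ν i).eval x (fun _ => false) = true)) :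
    MC F S.card S.card := by
  classical
  induction S using Finset.induction_on generalizing F with
  | empty =>
    refine (MC.const true 0 0).congr fun x => ?_
    exact ((hF x).mpr (fun i hi => absurd hi (Finset.notMem_empty i))).symm
  | insert p S hp ih =>
    have h0 : MC (fun x : Fin N → Bool => (ν p).eval x (fun _ => false)) 0 0 :=
      MC.of_av (Stp.refl _ _ _) (av_node _ _ (hν p))
    have h1 : ∃ G : BF N, ∀ x, (G x = true ↔ ∀ i ∈ S, (ν i).eval x (fun _ => false) = true) :=
      ⟨fun x => decide (∀ i ∈ S, (ν i).eval x (fun _ => false) = true), fun x => by simp⟩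
    obtain ⟨G, hG⟩ := h1
    have h := h0.and (ih G hG)
    rw [card_insert_of_notMem hp]
    refine (h.le (by omega) (by omega)).congr fun x => ?_
    rw [Bool.eq_iff_iff, Bool.and_eq_true, hG, hF]
    constructor
    · rintro ⟨h2, h3⟩ i hi
      rcases mem_insert.mp hi with rfl | hi
      · exact h2
      · exact h3 i hi
    · intro h2
      exact ⟨h2 p (mem_insert_self p S), fun i hi => h2 i (mem_insert_of_mem hi)⟩

open Classical in
/-- the bit of a pair of vertices -/
noncomputable def bitB {n m k L : ℕ} (H : SimpleGraph (Fin n)) (I : Finset (Fin k))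
    (e0 : Fin k → Fin n) (c : Fin k → ℕ) (φ : Fin n → Fin k × (Fin L → Fin m))
    (p : Fin (n.choose 2)) : BF (m.choose 2) := fun x =>
  decide (BBase H I e0 φ ((pairNo n).symm p).1.1 ((pairNo n).symm p).1.2 ∧
    Ltr I e0 c φ (graph x) ((pairNo n).symm p).1.1 ((pairNo n).symm p).1.2)

lemma bitB_mc {n m k L : ℕ} (H : SimpleGraph (Fin n)) (I : Finset (Fin k))
    (e0 : Fin k → Fin n) (c : Fin k → ℕ) (φ : Fin n → Fin k × (Fin L → Fin m))
    (p : Fin (n.choose 2)) : MC (bitB H I e0 c φ p) (4 * L ^ 2) (4 * L ^ 2) := by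
  classical
  set u := ((pairNo n).symm p).1.1 with hu
  set v := ((pairNo n).symm p).1.2 with hv
  by_cases hb : BBase H I e0 φ u v
  · set S : Finset ((Bool × Fin L) × (Bool × Fin L)) := univ.filter (fun z => z.1 ≠ z.2 ∧
      Act I e0 c φ (cond z.1.1 v u) z.1.2 ∧ Act I e0 c φ (cond z.2.1 v u) z.2.2) with hS
    have h1 := mc_nodes S (fun z => en ((φ (cond z.1.1 v u)).2 z.1.2)
      ((φ (cond z.2.1 v u)).2 z.2.2)) (fun z l => en_wires _ _ l) (bitB H I e0 c φ p) (by
        intro x
        unfold bitB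
        rw [decide_eq_true_iff]
        constructor
        · rintro ⟨-, h⟩ ⟨π, π'⟩ hz
          rw [hS, mem_filter] at hz
          rw [en_eval]
          exact h π π' hz.2.1 hz.2.2.1 hz.2.2.2
        · intro h
          refine ⟨hb, fun π π' hne ha ha' => ?_⟩
          rw [← en_eval x (fun _ => false)]
          exact h (π, π') (mem_filter.mpr ⟨mem_univ _, hne, ha, ha'⟩))
    have h2 : S.card ≤ 4 * L ^ 2 := by
      refine (card_le_univ _).trans (le_of_eq ?_)
      rw [Fintype.card_prod, Fintype.card_prod, Fintype.card_bool, Fintype.card_fin]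
      ring
    exact h1.le h2 h2
  · refine (MC.const false _ _).congr fun x => ?_
    unfold bitB
    rw [eq_comm, decide_eq_false_iff_not]
    exact fun h => hb h.1

lemma bitB_graph {n m k L : ℕ} (H : SimpleGraph (Fin n)) (I : Finset (Fin k))
    (e0 : Fin k → Fin n) (c : Fin k → ℕ) (φ : Fin n → Fin k × (Fin L → Fin m))
    (x : Fin (m.choose 2) → Bool) :
    graph (fun p => bitB H I e0 c φ p x) = projB H I e0 c φ (graph x) := by
  classical
  have hlt : ∀ u v : Fin n, u < v →
      ((graph (fun p => bitB H I e0 c φ p x)).Adj u v ↔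
        (projB H I e0 c φ (graph x)).Adj u v) := by
    intro u v huv
    rw [graph_adj _ huv]
    unfold bitB
    rw [decide_eq_true_iff, Equiv.symm_apply_apply]
    exact Iff.rfl
  ext u v
  rcases lt_trichotomy u v with h | h | h
  · exact hlt u v h
  · subst h
    constructor
    · intro h1
      exact absurd h1 (SimpleGraph.irrefl _)
    · intro h1
      exact absurd h1 (SimpleGraph.irrefl _)
  · rw [SimpleGraph.adj_comm, hlt v u h, SimpleGraph.adj_comm]

lemma exists_sub_sum {α : Type} [DecidableEq α] (S : Finset α) (f : α → ℕ) :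
    ∀ K ≤ ∑ a ∈ S, f a, ∃ c : α → ℕ, (∀ a, c a ≤ f a) ∧ ∑ a ∈ S, c a = K := by
  induction S using Finset.induction_on with
  | empty =>
    intro K hK
    rw [sum_empty] at hK
    exact ⟨fun _ => 0, fun _ => Nat.zero_le _, by rw [sum_empty]; omega⟩
  | insert a S ha ih =>
    intro K hK
    rw [sum_insert ha] at hK
    by_cases h : K ≤ ∑ a ∈ S, f a
    · obtain ⟨c, h1, h2⟩ := ih K h
      refine ⟨Function.update c a 0, fun b => ?_, ?_⟩
      · by_cases hb : b = a
        · rw [hb, Function.update_self]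
          exact Nat.zero_le _
        · rw [Function.update_of_ne hb]
          exact h1 b
      · rw [sum_insert ha, Function.update_self, zero_add, ← h2]
        exact sum_congr rfl fun b hb => Function.update_of_ne (by
          rintro rfl
          exact ha hb) _ _
    · refine ⟨Function.update f a (K - ∑ a ∈ S, f a), fun b => ?_, ?_⟩
      · by_cases hb : b = a
        · rw [hb, Function.update_self]
          omega
        · rw [Function.update_of_ne hb]
      · rw [sum_insert ha, Function.update_self]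
        have h3 : ∑ b ∈ S, Function.update f a (K - ∑ a ∈ S, f a) b = ∑ a ∈ S, f a :=
          sum_congr rfl fun b hb => Function.update_of_ne (by
            rintro rfl
            exact ha hb) _ _
        rw [h3]
        omega

/-- a random reduction from the clique problem for `K` and `m` to the one for `k` and the
subgraphs of `H` -/
def Reduces {n : ℕ} (H : SimpleGraph (Fin n)) (k m K S : ℕ) (ε : ℝ) : Prop :=
  ∃ (Φ : Type) (_ : Fintype Φ) (_ : Nonempty Φ) (g : Φ → Fin (n.choose 2) → BF (m.choose 2)),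
    (∀ φ p, MC (g φ p) S S) ∧
    ∀ x : Fin (m.choose 2) → Bool,
      (∀ φ, graph (fun p => g φ p x) ≤ H) ∧
      ((graph x).CliqueFree K → ∀ φ, (graph (fun p => g φ p x)).CliqueFree k) ∧
      (¬ (graph x).CliqueFree K →
        ({φ : Φ | (graph (fun p => g φ p x)).CliqueFree k}.ncard : ℝ) ≤ ε * Fintype.card Φ)

/-- **Random reductions with blocks.** -/
theorem reduces {n m k q B : ℕ} (H : SimpleGraph (Fin n)) (hk : 2 ≤ k) (hm : 2 ≤ m)
    (hq : 1 ≤ q) (hn : n ≤ m ^ (q * B)) (hT : (tup H k).Nonempty) :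
    ∃ X : ℕ, X ≤ B * k ∧ (tup H k).card ≤ (B + 1) ^ k * m ^ (q * X + q ^ 2 * k) ∧
      ∀ K ≤ (q - 1) * X, Reduces H k m K (4 * ((q - 1) * B) ^ 2) ((k : ℝ) ^ 2 / m) := by
  classical
  obtain ⟨I, Fm, hFT, b, hFne, hbB, hFI, hsp, hcard⟩ := exists_wspread (tup H k) hT m q B hm hq
    (by rw [Fintype.card_fin]; exact hn)
  refine ⟨∑ a ∈ Iᶜ, b a, ?_, hcard, fun K hK => ?_⟩
  · have h1 : ∑ a ∈ Iᶜ, b a ≤ ∑ _a ∈ Iᶜ, B := sum_le_sum fun a _ => hbB a
    rw [sum_const, smul_eq_mul] at h1
    have h2 : Iᶜ.card ≤ k := by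
      have := card_le_univ (Iᶜ : Finset (Fin k))
      rwa [Fintype.card_fin] at this
    calc ∑ a ∈ Iᶜ, b a ≤ Iᶜ.card * B := h1
      _ ≤ k * B := Nat.mul_le_mul_right _ h2
      _ = B * k := mul_comm _ _
  · obtain ⟨c, hc1, hc2⟩ := exists_sub_sum Iᶜ (fun a => (q - 1) * b a) K
      (by rw [← mul_sum]; exact hK)
    obtain ⟨e₁, he₁⟩ := hFne
    set L := (q - 1) * B with hL
    have hcL : ∀ a, c a ≤ L := fun a => (hc1 a).trans (Nat.mul_le_mul_left _ (hbB a))
    have hlam : (lam L I c).card = K := by rw [lam_card I c hcL, hc2]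
    have hm0 : 0 < m := by omega
    refine ⟨Fin n → Fin k × (Fin L → Fin m), inferInstance,
      ⟨fun _ => (⟨0, by omega⟩, fun _ => ⟨0, hm0⟩)⟩, fun φ => bitB H I e₁ c φ,
      fun φ p => bitB_mc H I e₁ c φ p, fun x => ?_⟩
    simp only [bitB_graph]
    refine ⟨fun φ => projB_le H I e₁ c φ _, fun hx φ => ?_, fun hx => ?_⟩
    · by_contra hcon
      have h1 := projB_sound H I e₁ c φ (graph x) hk hcon
      rw [hlam] at h1
      exact h1 hx
    · -- the targets
      obtain ⟨f⟩ : Nonempty ((⊤ : SimpleGraph (Fin K)) ↪g graph x) :=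
        ⟨SimpleGraph.topEmbeddingOfNotCliqueFree hx⟩
      set ε := (lam L I c).equivFinOfCardEq hlam with hε
      set z : Fin k × Fin L → Fin m := fun l => if h : l ∈ lam L I c then f (ε ⟨l, h⟩)
        else ⟨0, hm0⟩ with hz
      have hzadj : ∀ l ∈ lam L I c, ∀ l' ∈ lam L I c, l ≠ l' → (graph x).Adj (z l) (z l') := by
        intro l hl l' hl' hne
        simp only [hz]
        rw [dif_pos hl, dif_pos hl', f.map_adj_iff, SimpleGraph.top_adj]
        intro h3
        have h4 := ε.injective h3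
        exact hne (congrArg Subtype.val h4)
      set G : Fin k → Finset (Fin k × (Fin L → Fin m)) := fun a =>
        ({a} : Finset (Fin k)) ×ˢ (univ.filter (fun w : Fin L → Fin m =>
          ∀ i ∈ univ.filter (fun i : Fin L => i.val < c a), w i = (fun i => z (a, i)) i)) with hG
      have hGc : ∀ a, (G a).card = m ^ (L - c a) := by
        intro a
        simp only [hG]
        rw [card_product, card_singleton, one_mul]
        have h := card_fix (V := Fin L) (β := Fin m)
          (univ.filter (fun i : Fin L => i.val < c a)) (fun i => z (a, i))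
        rw [Fintype.card_fin, Fintype.card_fin, card_lt_fin _ _ (hcL a)] at h
        convert h
      have hmem : ∀ a y, y ∈ G a ↔ y.1 = a ∧ ∀ i : Fin L, i.val < c a → y.2 i = z (a, i) := by
        intro a y
        simp only [hG]
        rw [mem_product, mem_singleton, mem_filter]
        constructor
        · rintro ⟨h1, -, h2⟩
          exact ⟨h1, fun i hi => h2 i (mem_filter.mpr ⟨mem_univ _, hi⟩)⟩
        · rintro ⟨h1, h2⟩
          exact ⟨h1, mem_univ _, fun i hi => h2 i (mem_filter.mp hi).2⟩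
      have hkm : Fintype.card (Fin k × (Fin L → Fin m)) = k * m ^ L := by
        rw [Fintype.card_prod, Fintype.card_fun, Fintype.card_fin, Fintype.card_fin,
          Fintype.card_fin]
      have hkm0 : 0 < Fintype.card (Fin k × (Fin L → Fin m)) := by
        rw [hkm]
        have : 0 < k := by omega
        positivity
      have hmr : (0 : ℝ) < m := by exact_mod_cast hm0
      have hhit := wspread_hit (V := Fin n) (β := Fin k × (Fin L → Fin m)) I Fm
        (fun e he => tup_inj (hFT he)) G (fun a _ b _ y h1 h2 => by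
          rw [hmem] at h1 h2
          rw [← h1.1, h2.1]) (fun a _ => by
          rw [← card_pos, hGc]
          positivity) (fun a => (m : ℝ) ^ ((q - 1) * b a + 1)) (fun a => by positivity)
        ⟨e₁, he₁⟩ hkm0
        (fun e he A hA => by
          have h1 := hsp e he A hA
          rw [prod_pow_eq_pow_sum]
          exact_mod_cast h1)
      have hsub : {φ : Fin n → Fin k × (Fin L → Fin m) |
          (projB H I e₁ c φ (graph x)).CliqueFree k} ⊆
          (univ.filter (fun φ : Fin n → Fin k × (Fin L → Fin m) =>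
            ∀ e ∈ Fm, ¬ ∀ a ∉ I, φ (e a) ∈ G a) : Finset _) := by
        intro φ hφ
        rw [mem_coe, mem_filter]
        refine ⟨mem_univ _, fun e he hcon => ?_⟩
        exact projB_complete H I e₁ c φ (graph x) z hzadj e (hFT he)
          (fun a ha => hFI e₁ he₁ e he a ha) (fun a ha => (hmem a _).mp (hcon a ha)) hφ
      have hcc := Set.ncard_le_ncard hsub (Finset.finite_toSet _)
      rw [Set.ncard_coe_finset] at hcc
      have hc' : (({φ : Fin n → Fin k × (Fin L → Fin m) |
          (projB H I e₁ c φ (graph x)).CliqueFree k}.ncard : ℕ) : ℝ) ≤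
          ((univ.filter (fun φ : Fin n → Fin k × (Fin L → Fin m) =>
            ∀ e ∈ Fm, ¬ ∀ a ∉ I, φ (e a) ∈ G a)).card : ℝ) := by exact_mod_cast hcc
      refine hc'.trans (hhit.trans ?_)
      have hfun : (Fintype.card (Fin n → Fin k × (Fin L → Fin m)) : ℝ) =
          (Fintype.card (Fin k × (Fin L → Fin m)) : ℝ) ^ Fintype.card (Fin n) := by
        rw [Fintype.card_fun]
        push_cast
        rfl
      rw [hfun]
      refine mul_le_mul_of_nonneg_right ?_ (by positivity)
      have hterm : ∀ a ∈ Iᶜ, (Fintype.card (Fin k × (Fin L → Fin m)) : ℝ) /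
          ((G a).card * (m : ℝ) ^ ((q - 1) * b a + 1)) ≤ (k : ℝ) / m := by
        intro a _
        rw [hkm, hGc]
        push_cast
        rw [div_le_div_iff₀ (by positivity) hmr]
        have h1 : (m : ℝ) ^ L = (m : ℝ) ^ (L - c a) * (m : ℝ) ^ c a := by
          rw [← pow_add, Nat.sub_add_cancel (hcL a)]
        have h2 : (m : ℝ) ^ c a ≤ (m : ℝ) ^ ((q - 1) * b a) :=
          pow_le_pow_right₀ (by exact_mod_cast hm0) (hc1 a)
        rw [h1, pow_succ]
        calc (k : ℝ) * ((m : ℝ) ^ (L - c a) * (m : ℝ) ^ c a) * m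
            ≤ (k : ℝ) * ((m : ℝ) ^ (L - c a) * (m : ℝ) ^ ((q - 1) * b a)) * m := by gcongr
          _ = k * ((m : ℝ) ^ (L - c a) * ((m : ℝ) ^ ((q - 1) * b a) * m)) := by ring
      refine (sum_le_sum hterm).trans ?_
      rw [sum_const, nsmul_eq_mul]
      have h2 : (Iᶜ.card : ℝ) ≤ k := by
        have := card_le_univ (Iᶜ : Finset (Fin k))
        rw [Fintype.card_fin] at this
        exact_mod_cast this
      calc (Iᶜ.card : ℝ) * ((k : ℝ) / m) ≤ k * ((k : ℝ) / m) := by gcongr
        _ = (k : ℝ) ^ 2 / m := by ring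

end Pool.Agent.W2helper86.HU
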