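import Pool.Agent.W2helper86.HU.Proj
import Pool.Agent.W953.NW.Base

/-!
# Circuits: substitution, disjunctions, the list of the cliques
-/

set_option autoImplicit false

namespace Pool.Agent.W2helper86.HU

open Finset Pool.Agent.H540R2 Pool.Agent.H540R2.Circuit Pool.Agent.W2helper86.KQ
  Pool.Agent.W953.NW

lemma av_node {N' : ℕ} (P : Circuit N') (a : Node N') (ha : ∀ l, a.wires l = 0) :
    Av P (fun x => a.eval x (fun _ => false)) 0 := by
  refine ⟨a, fun j hj => absurd (ha j) hj, fun x => ?_, ?_⟩
  · exact Node.eval_congr (fun j hj => absurd (ha j) hj)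
  · cases a with
    | var i => exact le_rfl
    | const b => exact le_rfl
    | gate j =>
      have := ha j
      simp [Node.wires] at this

/-- substitution of variables and constants for the inputs -/
lemma exists_subst {N N' : ℕ} (C : Circuit N) (ν : Fin N → Node N')
    (hν : ∀ p l, (ν p).wires l = 0) : ∃ C' : Circuit N', C'.size ≤ C.size ∧ C'.nots ≤ C.nots ∧
      ∀ x, C'.eval x = C.eval (fun p => (ν p).eval x (fun _ => false)) := by
  obtain ⟨P, hP, hA⟩ := Av.app (Circuit.empty N') C
    (fun p x => (ν p).eval x (fun _ => false)) 0 (fun p => av_node _ _ (hν p))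
  obtain ⟨C', h1, h2, -, h4⟩ := hA.circuit
  refine ⟨C', ?_, ?_, h4⟩
  · rw [h1]
    have := hP.2.1
    have h0 : (Circuit.empty N').size = 0 := rfl
    omega
  · rw [h2]
    have := hP.2.2
    rw [empty_nots] at this
    omega

/-- a disjunction of circuits -/
lemma exists_or {N S : ℕ} (t : ℕ) (C : ℕ → Circuit N) (hC : ∀ i < t, (C i).size ≤ S) :
    ∃ C' : Circuit N, C'.size ≤ t * (S + 1) ∧
      ∀ x, (C'.eval x = true ↔ ∃ i < t, (C i).eval x = true) := by
  have key : ∃ (P : Circuit N) (f : BF N) (d : ℕ), P.size ≤ t * (S + 1) ∧ Av P f d ∧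
      ∀ x, (f x = true ↔ ∃ i < t, (C i).eval x = true) := by
    induction t with
    | zero =>
      refine ⟨Circuit.empty N, fun _ => false, 0, Nat.zero_le _, Av.const _ _ _, fun x => ?_⟩
      constructor
      · intro h
        exact absurd h (by simp)
      · rintro ⟨i, hi, -⟩
        exact absurd hi (Nat.not_lt_zero i)
    | succ t ih =>
      obtain ⟨P, f, d, h1, h2, h3⟩ := ih (fun i hi => hC i (by omega))
      obtain ⟨P1, p1, a1⟩ := Av.app P (C t) (fun i x => x i) 0 (fun i => Av.var P i 0)
      obtain ⟨P2, p2, a2⟩ := (h2.ext p1.1).or a1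
      refine ⟨P2, _, _, ?_, a2, fun x => ?_⟩
      · have e1 := p1.2.1
        have e2 := p2.2.1
        have e3 := hC t (Nat.lt_succ_self t)
        rw [Nat.succ_mul]
        omega
      · rw [Bool.or_eq_true, h3]
        constructor
        · rintro (⟨i, hi, h⟩ | h)
          · exact ⟨i, by omega, h⟩
          · exact ⟨t, Nat.lt_succ_self t, h⟩
        · rintro ⟨i, hi, h⟩
          rcases Nat.lt_succ_iff_lt_or_eq.mp hi with h' | rfl
          · exact Or.inl ⟨i, h', h⟩
          · exact Or.inr h
  obtain ⟨P, f, d, h1, h2, h3⟩ := key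
  obtain ⟨C', c1, -, -, c4⟩ := h2.circuit
  exact ⟨C', by rw [c1]; exact h1, fun x => by rw [c4]; exact h3 x⟩

/-! ### the list of the cliques -/

lemma mc_all {N : ℕ} (S : Finset (Fin N)) :
    MC (fun x : Fin N → Bool => decide (∀ p ∈ S, x p = true)) S.card S.card := by
  classical
  induction S using Finset.induction_on with
  | empty =>
    refine (MC.const true 0 0).congr fun x => ?_
    simp
  | insert p S hp ih =>
    have h := (MC.var (n := N) p 0 0).and ih
    rw [card_insert_of_notMem hp]
    refine (h.le (by omega) (by omega)).congr fun x => ?_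
    rw [Bool.eq_iff_iff]
    simp

lemma mc_any {N : ℕ} {ι : Type} [DecidableEq ι] (T : Finset ι) (S : ι → Finset (Fin N)) (q : ℕ)
    (hq : ∀ i ∈ T, (S i).card ≤ q) :
    MC (fun x : Fin N → Bool => decide (∃ i ∈ T, ∀ p ∈ S i, x p = true)) (T.card * (q + 1))
      (q + T.card) := by
  classical
  induction T using Finset.induction_on with
  | empty =>
    refine ((MC.const false 0 0).le (by simp) (by simp)).congr fun x => ?_
    simp
  | insert i T hi ih =>
    have h1 := (mc_all (S i)).le (hq i (mem_insert_self i T)) (hq i (mem_insert_self i T))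
    have h2 := h1.or (ih (fun i hi => hq i (mem_insert_of_mem hi)))
    rw [card_insert_of_notMem hi]
    refine (h2.le (by rw [Nat.succ_mul]; omega) (by omega)).congr fun x => ?_
    rw [Bool.eq_iff_iff]
    simp

/-- **Few cliques.** -/
theorem few_cliques {n : ℕ} (k : ℕ) (hk : 1 ≤ k) (H : SimpleGraph (Fin n)) :
    ∃ C : Circuit (n.choose 2), C.nots = 0 ∧ C.size ≤ k ^ 2 * cliques H k ∧
      ∀ x, graph x ≤ H → Right k k x C := by
  classical
  set T : Finset (Finset (Fin n)) := univ.filter (fun s => H.IsNClique k s) with hT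
  set S : Finset (Fin n) → Finset (Fin (n.choose 2)) := fun s =>
    univ.filter (fun p => ((pairNo n).symm p).1.1 ∈ s ∧ ((pairNo n).symm p).1.2 ∈ s) with hS
  have hTc : T.card = cliques H k := by
    unfold cliques
    rw [← Set.ncard_coe_finset]
    congr 1
    ext s
    simp [hT]
  have hSc : ∀ s ∈ T, (S s).card ≤ k * k - k := by
    intro s hs
    rw [hT, mem_filter] at hs
    have h1 : (S s).card ≤ s.offDiag.card := by
      refine card_le_card_of_injOn (fun p => ((pairNo n).symm p).1) ?_ ?_
      · intro p hp
        rw [mem_coe, hS, mem_filter] at hp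
        rw [mem_coe, mem_offDiag]
        exact ⟨hp.2.1, hp.2.2, (((pairNo n).symm p).2).ne⟩
      · intro p _ p' _ h
        exact (pairNo n).symm.injective (Subtype.ext h)
    rw [offDiag_card, hs.2.card_eq] at h1
    exact h1
  obtain ⟨C, c1, c2, -, c4⟩ := mc_any T S (k * k - k) hSc
  refine ⟨C, (nots_eq_zero_iff C).mpr c1, c2.trans ?_, fun x hx => ?_⟩
  · rw [hTc, mul_comm]
    apply Nat.mul_le_mul_right
    have h1 : k ≤ k * k := Nat.le_mul_of_pos_left k hk
    rw [sq]
    omega
  · have hiff : C.eval x = true ↔ ¬ (graph x).CliqueFree k := by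
      rw [c4, decide_eq_true_eq]
      constructor
      · rintro ⟨s, hs, h⟩ hcf
        rw [hT, mem_filter] at hs
        apply hcf s
        refine ⟨?_, hs.2.card_eq⟩
        intro u hu v hv huv
        rcases lt_or_gt_of_ne huv with h1 | h1
        · rw [graph_adj x h1]
          apply h
          rw [hS, mem_filter, Equiv.symm_apply_apply]
          exact ⟨mem_univ _, hu, hv⟩
        · rw [SimpleGraph.adj_comm, graph_adj x h1]
          apply h
          rw [hS, mem_filter, Equiv.symm_apply_apply]
          exact ⟨mem_univ _, hv, hu⟩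
      · intro hcf
        unfold SimpleGraph.CliqueFree at hcf
        push Not at hcf
        obtain ⟨s, hs⟩ := hcf
        refine ⟨s, ?_, fun p hp => ?_⟩
        · rw [hT, mem_filter]
          exact ⟨mem_univ _, hs.mono hx⟩
        · rw [hS, mem_filter] at hp
          have h1 := ((pairNo n).symm p).2
          have h2 := hs.isClique (mem_coe.mpr hp.2.1) (mem_coe.mpr hp.2.2) h1.ne
          rw [graph_adj x h1] at h2
          rw [← h2]
          congr 1
          exact ((pairNo n).apply_symm_apply p).symm
    unfold Right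
    constructor
    · intro h
      exact hiff.mpr h
    · intro h
      cases hC : C.eval x with
      | false => rfl
      | true => exact absurd h (hiff.mp hC)

end Pool.Agent.W2helper86.HU
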