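import Pool.Agent.W2helper86.HU.Circ

/-!
# The equivalence for circuits with any number of NOT gates
-/

set_option autoImplicit false

namespace Pool.Agent.W2helper86.HU

open Finset Filter Pool.Agent.H540R2 Pool.Agent.H540R2.Circuit Pool.Agent.W2helper86.KQ
  Pool.Agent.W953.NW

/-- few tries suffice for all inputs at once -/
lemma exists_tries {Φ X : Type} [Fintype Φ] [DecidableEq Φ] [Nonempty Φ] [Fintype X]
    (bad : X → Finset Φ) (hb : ∀ x, 2 * (bad x).card ≤ Fintype.card Φ) (t : ℕ)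
    (ht : Fintype.card X < 2 ^ t) : ∃ ψ : Fin t → Φ, ∀ x, ∃ i, ψ i ∉ bad x := by
  classical
  by_contra hcon
  push Not at hcon
  have h1 : (univ : Finset (Fin t → Φ)) ⊆
      (univ : Finset X).biUnion (fun x => Fintype.piFinset (fun _ : Fin t => bad x)) := by
    intro ψ _
    rw [mem_biUnion]
    obtain ⟨x, hx⟩ := hcon ψ
    exact ⟨x, mem_univ _, Fintype.mem_piFinset.mpr hx⟩
  have h2 := (card_le_card h1).trans card_biUnion_le
  rw [card_univ, Fintype.card_fun, Fintype.card_fin] at h2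
  have h3 : ∀ x : X, (Fintype.piFinset (fun _ : Fin t => bad x)).card = (bad x).card ^ t := by
    intro x
    rw [Fintype.card_piFinset, prod_const, card_univ, Fintype.card_fin]
  simp only [h3] at h2
  have hΦ : 0 < Fintype.card Φ := Fintype.card_pos
  have h4 : 2 ^ t * Fintype.card Φ ^ t ≤ Fintype.card X * Fintype.card Φ ^ t := by
    calc 2 ^ t * Fintype.card Φ ^ t ≤ 2 ^ t * ∑ x : X, (bad x).card ^ t :=
          Nat.mul_le_mul_left _ h2
      _ = ∑ x : X, (2 * (bad x).card) ^ t := by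
          rw [mul_sum]
          exact sum_congr rfl fun x _ => (mul_pow _ _ _).symm
      _ ≤ ∑ _x : X, Fintype.card Φ ^ t := sum_le_sum fun x _ => Nat.pow_le_pow_left (hb x) t
      _ = Fintype.card X * Fintype.card Φ ^ t := by
          rw [sum_const, card_univ, smul_eq_mul]
  have h5 := Nat.le_of_mul_le_mul_right h4 (pow_pos hΦ t)
  omega

/-- abstract form -/
theorem det_proj_abs {n m k j : ℕ} (H : SimpleGraph (Fin n)) (Φ : Type) [Fintype Φ] [Nonempty Φ]
    (σ : Φ → Fin (n.choose 2) → Node (m.choose 2))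
    (hσ1 : ∀ φ p l, (σ φ p).wires l = 0)
    (hσ2 : ∀ (x : Fin (m.choose 2) → Bool) (w : ℕ → Bool),
        (∀ φ, graph (fun p => (σ φ p).eval x w) ≤ H) ∧
        ((graph x).CliqueFree j → ∀ φ, (graph (fun p => (σ φ p).eval x w)).CliqueFree k) ∧
        (¬ (graph x).CliqueFree j →
          2 * {φ : Φ | (graph (fun p => (σ φ p).eval x w)).CliqueFree k}.ncard ≤
            Fintype.card Φ))
    (C : Circuit (n.choose 2)) (hC : ∀ y, graph y ≤ H → Right k k y C) :
    ∃ C' : Circuit (m.choose 2), C'.size ≤ (m.choose 2 + 1) * (C.size + 1) ∧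
      ∀ x, Right j j x C' := by
  classical
  set bad : (Fin (m.choose 2) → Bool) → Finset Φ := fun x =>
    univ.filter (fun φ => ¬ (graph x).CliqueFree j ∧
      (graph (fun p => (σ φ p).eval x (fun _ => false))).CliqueFree k) with hbad
  have hb : ∀ x, 2 * (bad x).card ≤ Fintype.card Φ := by
    intro x
    by_cases hx : (graph x).CliqueFree j
    · have h1 : bad x = ∅ := by
        simp only [hbad]
        rw [filter_eq_empty_iff]
        intro φ _ h
        exact h.1 hx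
      rw [h1, card_empty]
      omega
    · refine le_trans (le_of_eq ?_) ((hσ2 x (fun _ => false)).2.2 hx)
      rw [← Set.ncard_coe_finset]
      congr 2
      ext φ
      simp [hbad, hx]
  obtain ⟨ψ, hψ⟩ := exists_tries bad hb (m.choose 2 + 1) (by
    rw [Fintype.card_fun, Fintype.card_bool, Fintype.card_fin]
    exact Nat.pow_lt_pow_right (by norm_num) (Nat.lt_succ_self _))
  choose S hS1 hS2 hS3 using fun φ : Φ => exists_subst C (σ φ) (hσ1 φ)
  obtain ⟨C', c1, c2⟩ := exists_or (S := C.size) (m.choose 2 + 1)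
    (fun i => if h : i < m.choose 2 + 1 then S (ψ ⟨i, h⟩) else Circuit.empty _) (by
      intro i hi
      rw [dif_pos hi]
      exact hS1 _)
  refine ⟨C', c1, fun x => ?_⟩
  have h1 := (hσ2 x (fun _ => false)).1
  have h2 := (hσ2 x (fun _ => false)).2.1
  have hiff : C'.eval x = true ↔ ¬ (graph x).CliqueFree j := by
    rw [c2]
    constructor
    · rintro ⟨i, hi, h⟩ hcf
      rw [dif_pos hi, hS3] at h
      have h3 := (hC _ (h1 (ψ ⟨i, hi⟩))).2 (h2 hcf _)
      rw [h3] at h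
      exact absurd h (by simp)
    · intro hcf
      obtain ⟨i, hi⟩ := hψ x
      refine ⟨i, i.2, ?_⟩
      rw [dif_pos i.2, hS3]
      apply (hC _ (h1 _)).1
      intro h3
      apply hi
      simp only [hbad]
      rw [mem_filter]
      exact ⟨mem_univ _, hcf, h3⟩
  unfold Right
  constructor
  · intro h
    exact hiff.mpr h
  · intro h
    cases hE : C'.eval x with
    | false => rfl
    | true => exact absurd h (hiff.mp hE)

/-- A circuit for the subgraphs of the host graph gives one for all graphs on `m` vertices. -/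
theorem det_proj {n m k j M : ℕ} (H : SimpleGraph (Fin n)) (hk : 2 ≤ k) (hj1 : 1 ≤ j)
    (hjk : j ≤ k) (hm : 0 < m) (hM : 0 < M) (hMn : M ≤ n)
    (hN : n ^ (j - 1) * M ^ (k - j + 1) < (tup H k).card) (hη : 2 * (k ^ 2 * m) ≤ M)
    (C : Circuit (n.choose 2)) (hC : ∀ y, graph y ≤ H → Right k k y C) :
    ∃ C' : Circuit (m.choose 2), C'.size ≤ (m.choose 2 + 1) * (C.size + 1) ∧
      ∀ x, Right j j x C' := by
  obtain ⟨σ, hσ1, hσ2⟩ := projection H hk hj1 hjk hm hM hMn hN
  have hne : Nonempty (Fin n → Fin k × Fin m) := ⟨fun _ => (⟨0, by omega⟩, ⟨0, hm⟩)⟩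
  refine det_proj_abs H (Fin n → Fin k × Fin m) σ hσ1 (fun x w => ?_) C hC
  obtain ⟨h1, h2, h3⟩ := hσ2 x w
  refine ⟨h1, h2, fun hx => ?_⟩
  have h4 := h3 hx
  have hM0 : (0 : ℝ) < M := by exact_mod_cast hM
  have h5 : (k : ℝ) ^ 2 * m / M ≤ 1 / 2 := by
    rw [div_le_iff₀ hM0]
    have : (2 : ℝ) * ((k : ℝ) ^ 2 * m) ≤ M := by exact_mod_cast hη
    linarith
  have h6 : (({φ : Fin n → Fin k × Fin m |
      (graph (fun p => (σ φ p).eval x w)).CliqueFree k}.ncard : ℕ) : ℝ) ≤
      1 / 2 * Fintype.card (Fin n → Fin k × Fin m) := by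
    refine h4.trans ?_
    gcongr
  have h7 : (2 : ℝ) * (({φ : Fin n → Fin k × Fin m |
      (graph (fun p => (σ φ p).eval x w)).CliqueFree k}.ncard : ℕ) : ℝ) ≤
      Fintype.card (Fin n → Fin k × Fin m) := by linarith
  exact_mod_cast h7

/-! ### the asymptotic statement -/

/-- The question whether a subgraph of the host graph `H k n` has a clique of `k` vertices has
circuits of size `f k * n ^ o(k)`. -/
def Fast (H : ∀ _k n : ℕ, SimpleGraph (Fin n)) : Prop :=
  ∃ (f : ℕ → ℕ) (g : ℕ → ℝ), Tendsto (fun k : ℕ => g k / k) atTop (nhds 0) ∧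
    ∀ k n : ℕ, 1 ≤ k → 2 ≤ n → ∃ C : Circuit (n.choose 2),
      (C.size : ℝ) ≤ f k * (n : ℝ) ^ g k ∧ ∀ x, graph x ≤ H k n → Right k k x C

/-- few cliques in the host graphs -/
theorem fast_of_few {H : ∀ _k n : ℕ, SimpleGraph (Fin n)} {f : ℕ → ℕ} {g : ℕ → ℝ}
    (hg : Tendsto (fun k : ℕ => g k / k) atTop (nhds 0))
    (h : ∀ k n : ℕ, 1 ≤ k → 2 ≤ n → (cliques (H k n) k : ℝ) ≤ f k * (n : ℝ) ^ g k) : Fast H := by
  refine ⟨fun k => k ^ 2 * f k, g, hg, fun k n hk hn => ?_⟩
  obtain ⟨C, -, c2, c3⟩ := few_cliques k hk (H k n)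
  refine ⟨C, ?_, c3⟩
  have h1 : (C.size : ℝ) ≤ (k : ℝ) ^ 2 * cliques (H k n) k := by exact_mod_cast c2
  push_cast
  calc (C.size : ℝ) ≤ (k : ℝ) ^ 2 * cliques (H k n) k := h1
    _ ≤ (k : ℝ) ^ 2 * (f k * (n : ℝ) ^ g k) := by
        have := h k n hk hn
        gcongr
    _ = (k : ℝ) ^ 2 * f k * (n : ℝ) ^ g k := by ring

theorem fast_mono {H H' : ∀ _k n : ℕ, SimpleGraph (Fin n)} (hH : ∀ k n, H k n ≤ H' k n)
    (h : Fast H') : Fast H := by
  obtain ⟨f, g, hg, h⟩ := h
  refine ⟨f, g, hg, fun k n hk hn => ?_⟩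
  obtain ⟨C, c1, c2⟩ := h k n hk hn
  exact ⟨C, c1, fun x hx => c2 x (hx.trans (hH k n))⟩

lemma cliques_le_pow {n : ℕ} (H : SimpleGraph (Fin n)) (k : ℕ) : cliques H k ≤ n ^ k := by
  refine (cliques_le_tup H k).trans ?_
  refine (card_le_univ _).trans (le_of_eq ?_)
  rw [Fintype.card_fun, Fintype.card_fin, Fintype.card_fin]

lemma count_ok' {n k j : ℕ} {β : ℝ} (hn : 2 ≤ n) (hβ0 : 0 < β) (hβ1 : β < 1) (hj1 : 1 ≤ j)
    (hjk : j ≤ k) (hj : (j : ℝ) - 1 < β * k) (H : SimpleGraph (Fin n))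
    (hH : (n : ℝ) ^ ((1 - (1 - β) ^ 2) * k) ≤ cliques H k) :
    n ^ (j - 1) * ⌊(n : ℝ) ^ β⌋₊ ^ (k - j + 1) < (tup H k).card := by
  have hn0 : (0 : ℝ) < n := by exact_mod_cast (by omega : 0 < n)
  have hn1 : (1 : ℝ) < n := by exact_mod_cast (by omega : 1 < n)
  have h1 : ((n ^ (j - 1) * ⌊(n : ℝ) ^ β⌋₊ ^ (k - j + 1) : ℕ) : ℝ) <
      (n : ℝ) ^ ((1 - (1 - β) ^ 2) * k) := by
    push_cast
    have h2 : ((⌊(n : ℝ) ^ β⌋₊ : ℕ) : ℝ) ≤ (n : ℝ) ^ β := Nat.floor_le (by positivity)
    calc (n : ℝ) ^ (j - 1) * (⌊(n : ℝ) ^ β⌋₊ : ℝ) ^ (k - j + 1)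
        ≤ (n : ℝ) ^ (j - 1) * ((n : ℝ) ^ β) ^ (k - j + 1) := by gcongr
      _ = (n : ℝ) ^ (((j : ℝ) - 1) + β * ((k : ℝ) - j + 1)) := by
          rw [Real.rpow_add hn0, Real.rpow_mul hn0.le]
          congr 1
          · rw [← Real.rpow_natCast]
            congr 1
            push_cast [Nat.cast_sub hj1]
            ring
          · rw [← Real.rpow_natCast]
            congr 1
            push_cast [Nat.cast_sub hjk]
            ring
      _ < (n : ℝ) ^ ((1 - (1 - β) ^ 2) * k) := by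
          apply Real.rpow_lt_rpow_of_exponent_lt hn1
          have : 0 < 1 - β := by linarith
          have h3 : ((j : ℝ) - 1) * (1 - β) < β * k * (1 - β) :=
            mul_lt_mul_of_pos_right hj this
          have h4 : (1 - (1 - β) ^ 2) * k = β * k * (1 - β) + β * k := by ring
          rw [h4]
          linarith
  have h3 : ((cliques H k : ℕ) : ℝ) ≤ ((tup H k).card : ℝ) := by
    exact_mod_cast cliques_le_tup H k
  have h4 := h1.trans_le (hH.trans h3)
  exact_mod_cast h4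

/-- many cliques in the host graphs -/
theorem top_of_fast {H : ∀ _k n : ℕ, SimpleGraph (Fin n)} {β : ℝ} (hβ0 : 0 < β) (hβ1 : β < 1)
    (hr : ∀ᶠ k : ℕ in atTop, ∀ᶠ n : ℕ in atTop,
      (n : ℝ) ^ ((1 - (1 - β) ^ 2) * k) ≤ cliques (H k n) k)
    (h : Fast H) : Fast (fun _ _ => ⊤) := by
  classical
  obtain ⟨f, g, hg, h⟩ := h
  obtain ⟨k₀, hk₀⟩ := eventually_atTop.1 hr
  have h0 : ∀ k, ∃ n₀ : ℕ, k₀ ≤ k → ∀ n ≥ n₀,
      (n : ℝ) ^ ((1 - (1 - β) ^ 2) * k) ≤ cliques (H k n) k := by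
    intro k
    by_cases hk : k₀ ≤ k
    · obtain ⟨n₀, hn₀⟩ := eventually_atTop.1 (hk₀ k hk)
      exact ⟨n₀, fun _ => hn₀⟩
    · exact ⟨0, fun h => absurd h hk⟩
  choose n₀ hn₀ using h0
  set κ : ℕ → ℕ := fun j => ⌈(j : ℝ) / β⌉₊ with hκ
  have hκ1 : ∀ j : ℕ, (j : ℝ) ≤ β * κ j := by
    intro j
    have h1 : (j : ℝ) / β ≤ κ j := Nat.le_ceil _
    rw [div_le_iff₀ hβ0] at h1
    linarith
  have hκ2 : ∀ j, j ≤ κ j := by
    intro j
    have h1 := hκ1 j
    have h2 : (0 : ℝ) ≤ κ j := Nat.cast_nonneg _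
    have h3 : (j : ℝ) ≤ κ j := by nlinarith
    exact_mod_cast h3
  have hκ3 : ∀ j : ℕ, (κ j : ℝ) ≤ j / β + 1 := fun j => (Nat.ceil_lt_add_one (by positivity)).le
  set Fc : ℕ → ℝ := fun k => ((f k : ℝ) + 1) * (4 + n₀ k) ^ |g k| *
    (4 * (k : ℝ) ^ 2) ^ (|g k| / β) with hFc
  refine ⟨fun j => if max k₀ 2 ≤ j then ⌈Fc (κ j)⌉₊ else j ^ 2,
    fun j => if max k₀ 2 ≤ j then 2 + |g (κ j)| / β else j, ?_, ?_⟩
  · -- the exponent
    have hκt : Tendsto κ atTop atTop := tendsto_atTop_mono hκ2 tendsto_id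
    have h1 : Tendsto (fun j : ℕ => |g (κ j) / (κ j : ℝ)|) atTop (nhds 0) := by
      have := (hg.comp hκt).abs
      simpa using this
    have h2 : Tendsto (fun j : ℕ => 2 / (j : ℝ) + |g (κ j) / (κ j : ℝ)| * ((1 / β + 1) / β))
        atTop (nhds 0) := by
      have h3 := (tendsto_const_div_atTop_nhds_zero_nat (2 : ℝ)).add
        (h1.mul_const ((1 / β + 1) / β))
      simpa using h3
    refine squeeze_zero' ?_ ?_ h2
    · filter_upwards with j
      split_ifs
      · positivity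
      · positivity
    · filter_upwards [eventually_ge_atTop (max k₀ 2)] with j hj
      rw [if_pos hj]
      have hj1 : (1 : ℝ) ≤ j := by
        have : 1 ≤ j := by
          have := le_trans (le_max_right k₀ 2) hj
          omega
        exact_mod_cast this
      have hj0 : (0 : ℝ) < j := by linarith
      have hκ0 : (0 : ℝ) < κ j := by
        have : (j : ℝ) ≤ κ j := by exact_mod_cast hκ2 j
        linarith
      have h3 : |g (κ j)| = |g (κ j) / (κ j : ℝ)| * κ j := by
        rw [abs_div, Nat.abs_cast, div_mul_cancel₀ _ hκ0.ne']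
      rw [add_div]
      have h4 : |g (κ j)| / β / j ≤ |g (κ j) / (κ j : ℝ)| * ((1 / β + 1) / β) := by
        rw [h3]
        have h5 : (κ j : ℝ) / j ≤ 1 / β + 1 := by
          rw [div_le_iff₀ hj0]
          have h6 := hκ3 j
          have h7 : (j : ℝ) / β = 1 / β * j := by ring
          nlinarith
        calc |g (κ j) / (κ j : ℝ)| * κ j / β / j =
              |g (κ j) / (κ j : ℝ)| * (((κ j : ℝ) / j) / β) := by ring
          _ ≤ |g (κ j) / (κ j : ℝ)| * ((1 / β + 1) / β) := by gcongr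
      linarith
  · intro j m hj hm
    have hm0 : (0 : ℝ) < m := by exact_mod_cast (by omega : 0 < m)
    have hm1 : (1 : ℝ) ≤ m := by exact_mod_cast (by omega : 1 ≤ m)
    by_cases hjk : max k₀ 2 ≤ j
    · simp only [if_pos hjk]
      have hjk0 : k₀ ≤ j := le_trans (le_max_left _ _) hjk
      have hj2 : 2 ≤ j := le_trans (le_max_right _ _) hjk
      set k := κ j with hk
      have hkj : j ≤ k := hκ2 j
      have hk1r : (1 : ℝ) ≤ k := by exact_mod_cast (by omega : 1 ≤ k)
      set A : ℝ := 4 * (k : ℝ) ^ 2 * m with hA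
      have hA1 : 1 ≤ A := by
        have h1 : (1 : ℝ) ≤ (k : ℝ) ^ 2 := one_le_pow₀ hk1r
        rw [hA]
        nlinarith
      have hA0 : 0 < A := by linarith
      set n : ℕ := ⌈A ^ (1 / β)⌉₊ + n₀ k + 2 with hn
      have hAn : A ^ (1 / β) ≤ n := by
        have h1 : A ^ (1 / β) ≤ (⌈A ^ (1 / β)⌉₊ : ℝ) := Nat.le_ceil _
        rw [hn]
        push_cast
        have h2 : (0 : ℝ) ≤ n₀ k := Nat.cast_nonneg _
        linarith
      have hA2 : 1 ≤ A ^ (1 / β) := Real.one_le_rpow hA1 (by positivity)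
      have hnA : (n : ℝ) ≤ (4 + n₀ k) * A ^ (1 / β) := by
        have h1 := (Nat.ceil_lt_add_one (a := A ^ (1 / β)) (by positivity)).le
        rw [hn]
        push_cast
        have h2 : (0 : ℝ) ≤ n₀ k := Nat.cast_nonneg _
        nlinarith
      have hnβ : A ≤ (n : ℝ) ^ β := by
        calc A = (A ^ (1 / β)) ^ β := by
              rw [← Real.rpow_mul hA0.le, one_div, inv_mul_cancel₀ hβ0.ne', Real.rpow_one]
          _ ≤ (n : ℝ) ^ β := Real.rpow_le_rpow (by positivity) hAn hβ0.le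
      have hn2 : 2 ≤ n := by rw [hn]; omega
      have hn1 : (1 : ℝ) ≤ n := by exact_mod_cast (by omega : 1 ≤ n)
      have hn0 : (0 : ℝ) < n := by linarith
      set M : ℕ := ⌊(n : ℝ) ^ β⌋₊ with hM
      have hMA : 4 * k ^ 2 * m ≤ M := by
        rw [hM]
        apply Nat.le_floor
        push_cast
        exact hnβ
      have hM0 : 0 < M := by
        have : 0 < 4 * k ^ 2 * m := by
          have : 0 < k := by omega
          positivity
        omega
      have hMn : M ≤ n := by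
        rw [hM]
        apply Nat.floor_le_of_le
        calc (n : ℝ) ^ β ≤ (n : ℝ) ^ (1 : ℝ) := Real.rpow_le_rpow_of_exponent_le hn1 hβ1.le
          _ = n := Real.rpow_one _
      have hrich := hn₀ k (hjk0.trans hkj) n (by rw [hn]; omega)
      obtain ⟨C, c1, c2⟩ := h k n (by omega) hn2
      obtain ⟨C', d1, d2⟩ := det_proj (m := m) (j := j) (M := M) (H k n) (by omega) hj hkj
        (by omega) hM0 hMn
        (count_ok' hn2 hβ0 hβ1 hj hkj (by have := hκ1 j; linarith) (H k n) hrich)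
        (by nlinarith) C c2
      refine ⟨C', ?_, fun x _ => d2 x⟩
      have e1 : ((m.choose 2 + 1 : ℕ) : ℝ) ≤ (m : ℝ) ^ (2 : ℝ) := by
        have h1 : m.choose 2 + 1 ≤ m ^ 2 := by
          have h2 : m.choose 2 < m ^ 2 := by
            have h3 : 2 * m.choose 2 = m * (m - 1) := by
              rw [Nat.choose_two_right]
              exact Nat.mul_div_cancel' (Nat.even_mul_pred_self m).two_dvd
            have h4 : m * (m - 1) ≤ m * m := Nat.mul_le_mul_left m (by omega)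
            have h5 : 0 < m * m := by positivity
            rw [sq]
            omega
          omega
        rw [Real.rpow_two]
        exact_mod_cast h1
      have e2 : (C.size : ℝ) + 1 ≤ ((f k : ℝ) + 1) * (n : ℝ) ^ |g k| := by
        have h1 : (n : ℝ) ^ g k ≤ (n : ℝ) ^ |g k| :=
          Real.rpow_le_rpow_of_exponent_le hn1 (le_abs_self _)
        have h2 : 1 ≤ (n : ℝ) ^ |g k| := Real.one_le_rpow hn1 (abs_nonneg _)
        have h3 : (f k : ℝ) * (n : ℝ) ^ g k ≤ f k * (n : ℝ) ^ |g k| :=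
          mul_le_mul_of_nonneg_left h1 (Nat.cast_nonneg _)
        linarith
      have e3 : (n : ℝ) ^ |g k| ≤ (4 + n₀ k) ^ |g k| * ((4 * (k : ℝ) ^ 2) ^ (|g k| / β) *
          (m : ℝ) ^ (|g k| / β)) := by
        have h2 : (0 : ℝ) ≤ n₀ k := Nat.cast_nonneg _
        calc (n : ℝ) ^ |g k| ≤ ((4 + n₀ k) * A ^ (1 / β)) ^ |g k| :=
              Real.rpow_le_rpow hn0.le hnA (abs_nonneg _)
          _ = (4 + n₀ k) ^ |g k| * (A ^ (1 / β)) ^ |g k| :=
              Real.mul_rpow (by positivity) (by positivity)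
          _ = (4 + n₀ k) ^ |g k| * A ^ (|g k| / β) := by
              rw [← Real.rpow_mul hA0.le]
              congr 2
              ring
          _ = _ := by
              rw [hA, Real.mul_rpow (by positivity) hm0.le]
      have e4 : (C'.size : ℝ) ≤ ((m.choose 2 + 1 : ℕ) : ℝ) * ((C.size : ℝ) + 1) := by
        exact_mod_cast d1
      calc (C'.size : ℝ) ≤ ((m.choose 2 + 1 : ℕ) : ℝ) * ((C.size : ℝ) + 1) := e4
        _ ≤ (m : ℝ) ^ (2 : ℝ) * (((f k : ℝ) + 1) * ((4 + n₀ k) ^ |g k| *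
            ((4 * (k : ℝ) ^ 2) ^ (|g k| / β) * (m : ℝ) ^ (|g k| / β)))) := by
            refine mul_le_mul e1 (e2.trans ?_) (by positivity) (by positivity)
            exact mul_le_mul_of_nonneg_left e3 (by positivity)
        _ = Fc k * (m : ℝ) ^ (2 + |g k| / β) := by
            rw [hFc, Real.rpow_add hm0]
            ring
        _ ≤ (⌈Fc k⌉₊ : ℝ) * (m : ℝ) ^ (2 + |g k| / β) := by
            refine mul_le_mul_of_nonneg_right (Nat.le_ceil _) (by positivity)
    · simp only [if_neg hjk]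
      obtain ⟨C, -, c2, c3⟩ := few_cliques (n := m) j hj ⊤
      refine ⟨C, ?_, c3⟩
      have h1 : (C.size : ℝ) ≤ (j : ℝ) ^ 2 * (m : ℝ) ^ j := by
        have h2 := c2.trans (Nat.mul_le_mul_left (j ^ 2) (cliques_le_pow (n := m) ⊤ j))
        exact_mod_cast h2
      rw [Real.rpow_natCast]
      push_cast
      exact h1

end Pool.Agent.W2helper86.HU
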