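import Mathlib

/-!
# Random maps hit a member of a spread family of tuples (second moment)
-/

set_option autoImplicit false

namespace Pool.Agent.W2helper86.HU

open Finset

/-- the number of maps with prescribed values on a set -/
lemma card_fix {V β : Type} [Fintype V] [DecidableEq V] [Fintype β] [DecidableEq β]
    (S : Finset V) (g : V → β) :
    (univ.filter (fun φ : V → β => ∀ v ∈ S, φ v = g v)).card =
      Fintype.card β ^ (Fintype.card V - S.card) := by
  classical
  have h1 : (univ.filter (fun φ : V → β => ∀ v ∈ S, φ v = g v)) =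
      Fintype.piFinset (fun v => if v ∈ S then {g v} else (univ : Finset β)) := by
    ext φ
    simp only [mem_filter, mem_univ, true_and, Fintype.mem_piFinset]
    constructor
    · intro h v
      by_cases hv : v ∈ S
      · simp [hv, h v hv]
      · simp [hv]
    · intro h v hv
      have := h v
      simpa [hv] using this
  rw [h1, Fintype.card_piFinset]
  have h2 : ∀ v : V, (if v ∈ S then {g v} else (univ : Finset β)).card =
      if v ∈ S then 1 else Fintype.card β := by
    intro v
    split_ifs <;> simp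
  simp only [h2]
  rw [Finset.prod_ite, Finset.prod_const_one, one_mul, Finset.prod_const]
  congr 1
  have h3 : (univ.filter (fun v : V => v ∉ S)) = Sᶜ := by
    ext v
    simp
  rw [h3, Finset.card_compl]

/-- upper bound, when one map with the prescribed values exists -/
lemma card_both_le {V β : Type} [Fintype V] [DecidableEq V] [Fintype β] [DecidableEq β] {k : ℕ}
    (I : Finset (Fin k)) (e e' : Fin k → V) (he : Function.Injective e)
    (he' : Function.Injective e') (g : Fin k → β)
    (hg : ∀ a ∉ I, ∀ b ∉ I, g a = g b → a = b) (hβ : 0 < Fintype.card β) :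
    ((univ.filter (fun φ : V → β => (∀ a ∉ I, φ (e a) = g a) ∧ ∀ a ∉ I, φ (e' a) = g a)).card : ℝ)
      ≤ (Fintype.card β : ℝ) ^ Fintype.card V / (Fintype.card β : ℝ) ^ (2 * Iᶜ.card) *
        (Fintype.card β : ℝ) ^ (Iᶜ.filter (fun a => e' a = e a)).card := by
  classical
  set Q : ℝ := (Fintype.card β : ℝ) with hQ
  have hQ0 : 0 < Q := by
    rw [hQ]
    exact_mod_cast hβ
  set B := univ.filter (fun φ : V → β => (∀ a ∉ I, φ (e a) = g a) ∧ ∀ a ∉ I, φ (e' a) = g a)
    with hB
  rcases B.eq_empty_or_nonempty with h0 | ⟨φ₀, h0⟩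
  · rw [h0]
    simp only [card_empty, Nat.cast_zero]
    positivity
  · rw [hB, mem_filter] at h0
    obtain ⟨-, h1, h2⟩ := h0
    set S : Finset V := Iᶜ.image e ∪ Iᶜ.image e' with hS
    have hsub : B ⊆ univ.filter (fun φ : V → β => ∀ v ∈ S, φ v = φ₀ v) := by
      intro φ hφ
      rw [hB, mem_filter] at hφ
      rw [mem_filter]
      refine ⟨mem_univ _, fun v hv => ?_⟩
      rw [hS, mem_union, mem_image, mem_image] at hv
      rcases hv with ⟨a, ha, rfl⟩ | ⟨a, ha, rfl⟩
      · rw [mem_compl] at ha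
        rw [hφ.2.1 a ha, h1 a ha]
      · rw [mem_compl] at ha
        rw [hφ.2.2 a ha, h2 a ha]
    have hint : Iᶜ.image e ∩ Iᶜ.image e' ⊆ (Iᶜ.filter (fun a => e' a = e a)).image e := by
      intro v hv
      rw [mem_inter, mem_image, mem_image] at hv
      obtain ⟨⟨a, ha, hav⟩, ⟨b, hb, hbv⟩⟩ := hv
      rw [mem_compl] at ha hb
      have hab : a = b := by
        apply hg a ha b hb
        rw [← h1 a ha, ← h2 b hb, hav, hbv]
      subst hab
      rw [mem_image]
      exact ⟨a, by rw [mem_filter, mem_compl]; exact ⟨ha, by rw [hbv, hav]⟩, hav⟩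
    have hcard : 2 * Iᶜ.card ≤ S.card + (Iᶜ.filter (fun a => e' a = e a)).card := by
      have h3 := card_union_add_card_inter (Iᶜ.image e) (Iᶜ.image e')
      rw [card_image_of_injective _ he, card_image_of_injective _ he'] at h3
      have h4 := (card_le_card hint).trans card_image_le
      rw [← hS] at h3
      omega
    have hSV : S.card ≤ Fintype.card V := card_le_univ S
    have h5 : (B.card : ℝ) ≤ Q ^ (Fintype.card V - S.card) := by
      have := card_le_card hsub
      rw [card_fix] at this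
      rw [hQ]
      exact_mod_cast this
    refine h5.trans ?_
    have hQ1 : 1 ≤ Q := by
      rw [hQ]
      exact_mod_cast hβ
    rw [div_mul_eq_mul_div, le_div_iff₀ (by positivity), ← pow_add, ← pow_add]
    exact pow_le_pow_right₀ hQ1 (by omega)

/-- **Random maps hit spread families.** -/
theorem spread_hit {V β : Type} [Fintype V] [DecidableEq V] [Fintype β] [DecidableEq β] {k : ℕ}
    (I : Finset (Fin k)) (F : Finset (Fin k → V)) (hinj : ∀ e ∈ F, Function.Injective e)
    (g : Fin k → β) (hg : ∀ a ∉ I, ∀ b ∉ I, g a = g b → a = b) (M : ℝ) (hM : 0 < M)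
    (hF : F.Nonempty) (hβ : 0 < Fintype.card β)
    (hsp : ∀ e ∈ F, ∀ A : Finset (Fin k), A ⊆ Iᶜ →
      ((F.filter (fun e' => ∀ a ∈ A, e' a = e a)).card : ℝ) * M ^ A.card ≤ F.card) :
    ((univ.filter (fun φ : V → β => ∀ e ∈ F, ¬ ∀ a ∉ I, φ (e a) = g a)).card : ℝ) ≤
      k * Fintype.card β / M * (Fintype.card β : ℝ) ^ Fintype.card V := by
  classical
  set Q : ℝ := (Fintype.card β : ℝ) with hQ
  have hQ0 : 0 < Q := by
    rw [hQ]
    exact_mod_cast hβ
  set n := Fintype.card V with hn
  set J := Iᶜ.card with hJ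
  set T : ℝ := (F.card : ℝ) with hT
  have hT0 : 0 < T := by
    rw [hT]
    exact_mod_cast hF.card_pos
  set X : (V → β) → ℝ := fun φ => ∑ e ∈ F, if (∀ a ∉ I, φ (e a) = g a) then (1 : ℝ) else 0
    with hX
  have hX0 : ∀ φ, 0 ≤ X φ := fun φ => Finset.sum_nonneg fun e _ => by split_ifs <;> norm_num
  -- the first moment
  have hS1 : ∑ φ, X φ = T * (Q ^ n / Q ^ J) := by
    rw [hX, Finset.sum_comm]
    have h1 : ∀ e ∈ F, ∑ φ : V → β, (if (∀ a ∉ I, φ (e a) = g a) then (1 : ℝ) else 0) =
        Q ^ n / Q ^ J := by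
      intro e he
      rw [Finset.sum_ite, Finset.sum_const_zero, add_zero, Finset.sum_const, nsmul_eq_mul,
        mul_one]
      have hcJ : (Iᶜ.image e).card = J := by
        rw [card_image_of_injective _ (hinj e he)]
      have hJn : J ≤ n := by
        rw [← hcJ, hn]
        exact card_le_univ _
      by_cases hIc : Iᶜ.Nonempty
      · obtain ⟨a₀, ha₀⟩ := hIc
        -- a map with the prescribed values
        have hex : ∃ φ₀ : V → β, ∀ a ∉ I, φ₀ (e a) = g a := by
          refine ⟨fun v => if h : ∃ a, a ∉ I ∧ e a = v then g h.choose else g a₀, fun a ha => ?_⟩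
          have h : ∃ b, b ∉ I ∧ e b = e a := ⟨a, ha, rfl⟩
          have h' : (fun v => if h : ∃ a, a ∉ I ∧ e a = v then g h.choose else g a₀) (e a) =
              g h.choose := dif_pos h
          rw [h']
          congr 1
          exact hinj e he h.choose_spec.2
        obtain ⟨φ₀, hφ₀⟩ := hex
        have h2 : (univ.filter (fun φ : V → β => ∀ a ∉ I, φ (e a) = g a)) =
            univ.filter (fun φ : V → β => ∀ v ∈ Iᶜ.image e, φ v = φ₀ v) := by
          ext φ
          simp only [mem_filter, mem_univ, true_and, mem_image, mem_compl]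
          constructor
          · rintro h v ⟨a, ha, rfl⟩
            rw [h a ha, hφ₀ a ha]
          · intro h a ha
            rw [h (e a) ⟨a, ha, rfl⟩, hφ₀ a ha]
        rw [h2, card_fix, hcJ, eq_div_iff (by positivity)]
        push_cast
        rw [← hQ, ← hn, ← pow_add]
        congr 1
        omega
      · rw [not_nonempty_iff_eq_empty] at hIc
        have hJ0 : J = 0 := by rw [hJ, hIc, card_empty]
        have h3 : (univ.filter (fun φ : V → β => ∀ a ∉ I, φ (e a) = g a)) = univ := by
          rw [filter_true_of_mem]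
          intro φ _ a ha
          have : a ∈ Iᶜ := mem_compl.mpr ha
          rw [hIc] at this
          exact absurd this (notMem_empty a)
        rw [h3, hJ0, pow_zero, div_one, card_univ, Fintype.card_fun]
        push_cast
        rw [← hQ, ← hn]
    rw [Finset.sum_congr rfl h1, Finset.sum_const, nsmul_eq_mul]
  -- the second moment
  have hS2 : ∑ φ, X φ ^ 2 ≤ T * (Q ^ n / Q ^ (2 * J) * (T * (1 + Q / M) ^ J)) := by
    have h1 : ∀ φ, X φ ^ 2 = ∑ e ∈ F, ∑ e' ∈ F,
        if ((∀ a ∉ I, φ (e a) = g a) ∧ ∀ a ∉ I, φ (e' a) = g a) then (1 : ℝ) else 0 := by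
      intro φ
      rw [sq, hX, Finset.sum_mul_sum]
      refine Finset.sum_congr rfl fun e _ => Finset.sum_congr rfl fun e' _ => ?_
      by_cases c1 : ∀ a ∉ I, φ (e a) = g a
      · by_cases c2 : ∀ a ∉ I, φ (e' a) = g a
        · rw [if_pos c1, if_pos c2, if_pos ⟨c1, c2⟩, mul_one]
        · rw [if_neg c2, mul_zero, if_neg (fun h => c2 h.2)]
      · rw [if_neg c1, zero_mul, if_neg (fun h => c1 h.1)]
    simp only [h1]
    rw [Finset.sum_comm]
    have h2 : ∀ e ∈ F, ∑ φ : V → β, ∑ e' ∈ F,
        (if ((∀ a ∉ I, φ (e a) = g a) ∧ ∀ a ∉ I, φ (e' a) = g a) then (1 : ℝ) else 0) ≤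
        Q ^ n / Q ^ (2 * J) * (T * (1 + Q / M) ^ J) := by
      intro e he
      rw [Finset.sum_comm]
      have h3 : ∀ e' ∈ F, ∑ φ : V → β,
          (if ((∀ a ∉ I, φ (e a) = g a) ∧ ∀ a ∉ I, φ (e' a) = g a) then (1 : ℝ) else 0) ≤
          Q ^ n / Q ^ (2 * J) * Q ^ (Iᶜ.filter (fun a => e' a = e a)).card := by
        intro e' he'
        rw [Finset.sum_ite, Finset.sum_const_zero, add_zero, Finset.sum_const, nsmul_eq_mul,
          mul_one]
        exact card_both_le I e e' (hinj e he) (hinj e' he') g hg hβ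
      refine (Finset.sum_le_sum h3).trans ?_
      rw [← Finset.mul_sum]
      refine mul_le_mul_of_nonneg_left ?_ (by positivity)
      have h4 : ∀ e' ∈ F, Q ^ (Iᶜ.filter (fun a => e' a = e a)).card ≤
          ∑ A ∈ Iᶜ.powerset, if (∀ a ∈ A, e' a = e a) then Q ^ A.card else 0 := by
        intro e' _
        have h5 : (Iᶜ.filter (fun a => e' a = e a)) ∈ Iᶜ.powerset :=
          mem_powerset.mpr (filter_subset _ _)
        have h6 : (if (∀ a ∈ Iᶜ.filter (fun a => e' a = e a), e' a = e a)
            then Q ^ (Iᶜ.filter (fun a => e' a = e a)).card else 0) ≤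
            ∑ A ∈ Iᶜ.powerset, if (∀ a ∈ A, e' a = e a) then Q ^ A.card else 0 :=
          Finset.single_le_sum (f := fun A : Finset (Fin k) =>
            if (∀ a ∈ A, e' a = e a) then Q ^ A.card else 0)
            (fun A _ => by
              show 0 ≤ (if (∀ a ∈ A, e' a = e a) then Q ^ A.card else 0)
              split_ifs
              · positivity
              · exact le_rfl) h5
        rwa [if_pos (fun a ha => (mem_filter.mp ha).2)] at h6
      refine (Finset.sum_le_sum h4).trans ?_
      rw [Finset.sum_comm]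
      have h7 : ∀ A ∈ Iᶜ.powerset, ∑ e' ∈ F, (if (∀ a ∈ A, e' a = e a) then Q ^ A.card else 0) ≤
          T * (Q / M) ^ A.card := by
        intro A hA
        rw [Finset.sum_ite, Finset.sum_const_zero, add_zero, Finset.sum_const, nsmul_eq_mul]
        have h8 := hsp e he A (mem_powerset.mp hA)
        rw [div_pow, mul_div_assoc', le_div_iff₀ (by positivity)]
        calc ((F.filter (fun e' => ∀ a ∈ A, e' a = e a)).card : ℝ) * Q ^ A.card * M ^ A.card
            = (((F.filter (fun e' => ∀ a ∈ A, e' a = e a)).card : ℝ) * M ^ A.card) *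
              Q ^ A.card := by ring
          _ ≤ T * Q ^ A.card := mul_le_mul_of_nonneg_right h8 (by positivity)
      refine (Finset.sum_le_sum h7).trans ?_
      rw [← Finset.mul_sum]
      refine mul_le_mul_of_nonneg_left (le_of_eq ?_) hT0.le
      have h9 := Finset.sum_pow_mul_eq_add_pow (Q / M) 1 Iᶜ
      simp only [one_pow, mul_one] at h9
      rw [h9, add_comm, ← hJ]
    refine (Finset.sum_le_sum h2).trans (le_of_eq ?_)
    rw [Finset.sum_const, nsmul_eq_mul]
  -- Cauchy-Schwarz
  set bad := univ.filter (fun φ : V → β => ∀ e ∈ F, ¬ ∀ a ∉ I, φ (e a) = g a) with hbad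
  have hbadX : ∀ φ ∈ bad, X φ = 0 := by
    intro φ hφ
    rw [hbad, mem_filter] at hφ
    rw [hX]
    refine Finset.sum_eq_zero fun e he => ?_
    rw [if_neg (hφ.2 e he)]
  have hCS : (∑ φ, X φ) ^ 2 ≤ (badᶜ.card : ℝ) * ∑ φ, X φ ^ 2 := by
    have h1 : ∑ φ, X φ = ∑ φ ∈ badᶜ, X φ := by
      rw [← Finset.sum_compl_add_sum bad X, Finset.sum_eq_zero hbadX, add_zero]
    rw [h1]
    refine (sq_sum_le_card_mul_sum_sq (s := badᶜ) (f := X)).trans ?_
    refine mul_le_mul_of_nonneg_left ?_ (Nat.cast_nonneg _)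
    exact Finset.sum_le_sum_of_subset_of_nonneg (subset_univ _) fun φ _ _ => sq_nonneg _
  set y : ℝ := Q / M with hy
  have hy0 : 0 < y := div_pos hQ0 hM
  have hmain : Q ^ n ≤ (badᶜ.card : ℝ) * (1 + y) ^ J := by
    have h1 := hCS.trans (mul_le_mul_of_nonneg_left hS2 (Nat.cast_nonneg _))
    rw [hS1] at h1
    have h2 : (T * (Q ^ n / Q ^ J)) ^ 2 = (T ^ 2 * (Q ^ n / Q ^ (2 * J))) * Q ^ n := by
      rw [mul_pow, div_pow, two_mul, pow_add]
      ring
    have h3 : (badᶜ.card : ℝ) * (T * (Q ^ n / Q ^ (2 * J) * (T * (1 + y) ^ J))) =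
        (T ^ 2 * (Q ^ n / Q ^ (2 * J))) * ((badᶜ.card : ℝ) * (1 + y) ^ J) := by ring
    rw [h2, h3] at h1
    exact le_of_mul_le_mul_left h1 (by positivity)
  have htot : (badᶜ.card : ℝ) + bad.card = Q ^ n := by
    have h1 := Finset.card_compl_add_card bad
    have h2 : Fintype.card (V → β) = Fintype.card β ^ n := by rw [Fintype.card_fun]
    rw [h2] at h1
    rw [hQ]
    exact_mod_cast h1
  have hJk : (J : ℝ) ≤ k := by
    have h1 : J ≤ k := by
      have := card_le_univ (Iᶜ : Finset (Fin k))
      rwa [Fintype.card_fin] at this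
    exact_mod_cast h1
  have hb0 : (0 : ℝ) ≤ bad.card := Nat.cast_nonneg _
  have hQn : 0 < Q ^ n := by positivity
  -- Bernoulli
  have hJy : Q ^ n * (1 - J * y) ≤ badᶜ.card := by
    by_cases hy1 : y ≤ 1
    · have h1 : 1 - J * y ≤ (1 - y) ^ J := by
        have := one_add_mul_le_pow (a := -y) (by linarith) J
        calc 1 - J * y = 1 + J * (-y) := by ring
          _ ≤ (1 + -y) ^ J := this
          _ = (1 - y) ^ J := by rw [← sub_eq_add_neg]
      have h2 : (1 - y) ^ J * (1 + y) ^ J ≤ 1 := by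
        rw [← mul_pow]
        exact pow_le_one₀ (by nlinarith) (by nlinarith)
      have h3 : 0 ≤ (1 - y) ^ J := pow_nonneg (by linarith) _
      calc Q ^ n * (1 - J * y) ≤ Q ^ n * (1 - y) ^ J := by gcongr
        _ ≤ ((badᶜ.card : ℝ) * (1 + y) ^ J) * (1 - y) ^ J := by gcongr
        _ = (badᶜ.card : ℝ) * ((1 - y) ^ J * (1 + y) ^ J) := by ring
        _ ≤ (badᶜ.card : ℝ) * 1 := by gcongr
        _ = badᶜ.card := mul_one _
    · push Not at hy1
      by_cases hJ0 : J = 0
      · rw [hJ0] at hmain ⊢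
        simp only [pow_zero, mul_one] at hmain
        simp only [Nat.cast_zero, zero_mul, sub_zero, mul_one]
        exact hmain
      · have h1 : (1 : ℝ) ≤ J := by exact_mod_cast Nat.one_le_iff_ne_zero.mpr hJ0
        have h2 : 1 - (J : ℝ) * y ≤ 0 := by nlinarith
        have h3 : Q ^ n * (1 - J * y) ≤ 0 := mul_nonpos_of_nonneg_of_nonpos hQn.le h2
        exact h3.trans (Nat.cast_nonneg _)
  have hfin : (bad.card : ℝ) ≤ J * y * Q ^ n := by nlinarith
  refine hfin.trans ?_
  have h1 : (J : ℝ) * y ≤ k * Q / M := by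
    rw [hy, mul_div_assoc]
    gcongr
  exact mul_le_mul_of_nonneg_right h1 hQn.le

end Pool.Agent.W2helper86.HU
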