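import Pool.Agent.W2helper86.HU.Circ
import Pool.Agent.W2helper86.KQ.Low

/-!
# The lower bound for subgraphs of a host graph
-/

set_option autoImplicit false

namespace Pool.Agent.W2helper86.HU

open Finset Filter Pool.Agent.H540R2 Pool.Agent.H540R2.Circuit Pool.Agent.W2helper86.KQ
  Pool.Agent.W953.NW

/-- abstract form -/
theorem rand_proj_abs {n m k j : ℕ} (H : SimpleGraph (Fin n)) (Φ : Type) [Fintype Φ] [Nonempty Φ]
    (σ : Φ → Fin (n.choose 2) → Node (m.choose 2)) (ε : ℝ) (hε : 0 ≤ ε)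
    (hσ1 : ∀ φ p l, (σ φ p).wires l = 0)
    (hσ2 : ∀ (x : Fin (m.choose 2) → Bool) (w : ℕ → Bool),
        (∀ φ, graph (fun p => (σ φ p).eval x w) ≤ H) ∧
        ((graph x).CliqueFree j → ∀ φ, (graph (fun p => (σ φ p).eval x w)).CliqueFree k) ∧
        (¬ (graph x).CliqueFree j →
          ({φ : Φ | (graph (fun p => (σ φ p).eval x w)).CliqueFree k}.ncard : ℝ) ≤
            ε * Fintype.card Φ)) (R : RandCircuit (n.choose 2))
    (τ : ℝ) (hτ0 : 0 ≤ τ) (hτ1 : τ ≤ 1)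
    (hR : ∀ y, graph y ≤ H → τ ≤ R.prob (Right k k y)) :
    ∃ R' : RandCircuit (m.choose 2),
      (∀ o', ∃ o, (R'.C o').size ≤ (R.C o).size ∧ (R'.C o').nots ≤ (R.C o).nots) ∧
      ∀ x, τ - ε ≤ R'.prob (Right j j x) := by
  classical
  letI := R.fin
  have hΦc : (0 : ℝ) < Fintype.card Φ := by exact_mod_cast Fintype.card_pos
  choose S hS1 hS2 hS3 using fun (q : Φ × R.Ω) => exists_subst (R.C q.2) (σ q.1) (hσ1 q.1)
  let R' : RandCircuit (m.choose 2) :=
    { Ω := Φ × R.Ω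
      fin := inferInstance
      w := fun q => R.w q.2 / Fintype.card Φ
      nonneg := fun q => div_nonneg (R.nonneg q.2) hΦc.le
      sum_one := by
        rw [Fintype.sum_prod_type]
        simp only
        rw [Finset.sum_const, card_univ, nsmul_eq_mul, ← Finset.sum_div, R.sum_one]
        field_simp
      C := S }
  refine ⟨R', fun q => ⟨q.2, hS1 q, hS2 q⟩, fun x => ?_⟩
  obtain ⟨h1, h2, h3⟩ := hσ2 x (fun _ => false)
  -- the bad maps
  set bad : Finset Φ := univ.filter (fun φ => ¬ (graph x).CliqueFree j ∧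
    (graph (fun p => (σ φ p).eval x (fun _ => false))).CliqueFree k) with hbad
  have hbc : (bad.card : ℝ) ≤ ε * Fintype.card Φ := by
    by_cases hx : (graph x).CliqueFree j
    · have : bad = ∅ := by
        rw [hbad, filter_eq_empty_iff]
        intro φ _ h
        exact h.1 hx
      rw [this, card_empty, Nat.cast_zero]
      positivity
    · refine le_trans (le_of_eq ?_) (h3 hx)
      rw [← Set.ncard_coe_finset]
      congr 2
      ext φ
      simp [hbad, hx]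
  have hgood : ∀ φ ∉ bad, ∀ o, Right k k (fun p => (σ φ p).eval x (fun _ => false)) (R.C o) →
      Right j j x (S (φ, o)) := by
    intro φ hφ o hr
    rw [hbad, mem_filter] at hφ
    have hφ' : ¬ (graph x).CliqueFree j →
        ¬ (graph (fun p => (σ φ p).eval x (fun _ => false))).CliqueFree k := by
      intro ha hb
      exact hφ ⟨mem_univ _, ha, hb⟩
    unfold Right at hr ⊢
    rw [hS3 (φ, o)]
    exact ⟨fun h => hr.1 (hφ' h), fun h => hr.2 (h2 h φ)⟩
  have hprob : R'.prob (Right j j x) =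
      ∑ φ : Φ, ∑ o : R.Ω, if Right j j x (S (φ, o)) then R.w o / Fintype.card Φ else 0 := by
    unfold RandCircuit.prob
    rw [Finset.sum_filter, Fintype.sum_prod_type]
  rw [hprob]
  have hin : ∀ φ : Φ, 0 ≤ ∑ o : R.Ω, (if Right j j x (S (φ, o)) then R.w o / Fintype.card Φ
      else 0) := by
    intro φ
    refine Finset.sum_nonneg fun o _ => ?_
    split_ifs
    · exact div_nonneg (R.nonneg o) hΦc.le
    · exact le_rfl
  have hin2 : ∀ φ ∈ badᶜ, τ / Fintype.card Φ ≤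
      ∑ o : R.Ω, (if Right j j x (S (φ, o)) then R.w o / Fintype.card Φ else 0) := by
    intro φ hφ
    rw [mem_compl] at hφ
    have h4 := hR _ (h1 φ)
    have h5 : R.prob (Right k k (fun p => (σ φ p).eval x (fun _ => false))) / Fintype.card Φ ≤
        ∑ o : R.Ω, (if Right j j x (S (φ, o)) then R.w o / Fintype.card Φ else 0) := by
      unfold RandCircuit.prob
      rw [Finset.sum_div, ← Finset.sum_filter]
      refine Finset.sum_le_sum_of_subset_of_nonneg ?_ fun o _ _ =>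
        div_nonneg (R.nonneg o) hΦc.le
      intro o ho
      rw [mem_filter] at ho ⊢
      exact ⟨mem_univ _, hgood φ hφ o ho.2⟩
    refine le_trans ?_ h5
    gcongr
  calc τ - ε ≤ τ * (1 - (bad.card : ℝ) / Fintype.card Φ) := by
        have h4 : (bad.card : ℝ) / Fintype.card Φ ≤ ε := by
          rw [div_le_iff₀ hΦc]
          exact hbc
        have h5 : 0 ≤ (bad.card : ℝ) / Fintype.card Φ := by positivity
        nlinarith
    _ = ∑ _φ ∈ badᶜ, τ / Fintype.card Φ := by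
        rw [Finset.sum_const, nsmul_eq_mul]
        have h4 : ((badᶜ : Finset Φ).card : ℝ) = Fintype.card Φ - bad.card := by
          rw [card_compl, Nat.cast_sub (card_le_univ bad)]
        rw [h4]
        field_simp
    _ ≤ ∑ φ ∈ badᶜ, ∑ o : R.Ω, (if Right j j x (S (φ, o)) then R.w o / Fintype.card Φ
          else 0) := Finset.sum_le_sum hin2
    _ ≤ ∑ φ : Φ, ∑ o : R.Ω, (if Right j j x (S (φ, o)) then R.w o / Fintype.card Φ else 0) :=
        Finset.sum_le_sum_of_subset_of_nonneg (subset_univ _) fun φ _ _ => hin φ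

/-- A random circuit for the subgraphs of the host graph gives one for all graphs on `m`
vertices. -/
theorem rand_proj {n m k j M : ℕ} (H : SimpleGraph (Fin n)) (hk : 2 ≤ k) (hj1 : 1 ≤ j)
    (hjk : j ≤ k) (hm : 0 < m) (hM : 0 < M) (hMn : M ≤ n)
    (hN : n ^ (j - 1) * M ^ (k - j + 1) < (tup H k).card) (R : RandCircuit (n.choose 2))
    (τ : ℝ) (hτ0 : 0 ≤ τ) (hτ1 : τ ≤ 1)
    (hR : ∀ y, graph y ≤ H → τ ≤ R.prob (Right k k y)) :
    ∃ R' : RandCircuit (m.choose 2),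
      (∀ o', ∃ o, (R'.C o').size ≤ (R.C o).size ∧ (R'.C o').nots ≤ (R.C o).nots) ∧
      ∀ x, τ - (k : ℝ) ^ 2 * m / M ≤ R'.prob (Right j j x) := by
  obtain ⟨σ, hσ1, hσ2⟩ := projection H hk hj1 hjk hm hM hMn hN
  have hne : Nonempty (Fin n → Fin k × Fin m) := ⟨fun _ => (⟨0, by omega⟩, ⟨0, hm⟩)⟩
  exact rand_proj_abs H (Fin n → Fin k × Fin m) σ ((k : ℝ) ^ 2 * m / M) (by positivity) hσ1 hσ2
    R τ hτ0 hτ1 hR

/-- the numerical condition on the number of cliques -/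
lemma count_ok {n k j : ℕ} {β : ℝ} (hn : 2 ≤ n) (hβ0 : 0 < β) (hβ1 : β < 1) (hj1 : 1 ≤ j)
    (hjk : j ≤ k) (hj : (j : ℝ) - 1 < β * k) (H : SimpleGraph (Fin n))
    (hH : (n : ℝ) ^ ((1 - (1 - β) ^ 2) * k) ≤ cliques H k) :
    n ^ (j - 1) * ⌊(n : ℝ) ^ β⌋₊ ^ (k - j + 1) < (tup H k).card := by
  have hn0 : (0 : ℝ) < n := by exact_mod_cast (by omega : 0 < n)
  have hn1 : (1 : ℝ) < n := by exact_mod_cast (by omega : 1 < n)
  have h1 : ((n ^ (j - 1) * ⌊(n : ℝ) ^ β⌋₊ ^ (k - j + 1) : ℕ) : ℝ) <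
      (n : ℝ) ^ ((1 - (1 - β) ^ 2) * k) := by
    push_cast
    have h2 : ((⌊(n : ℝ) ^ β⌋₊ : ℕ) : ℝ) ≤ (n : ℝ) ^ β := Nat.floor_le (by positivity)
    calc (n : ℝ) ^ (j - 1) * (⌊(n : ℝ) ^ β⌋₊ : ℝ) ^ (k - j + 1)
        ≤ (n : ℝ) ^ (j - 1) * ((n : ℝ) ^ β) ^ (k - j + 1) := by gcongr
      _ = (n : ℝ) ^ (((j : ℝ) - 1) + β * ((k : ℝ) - j + 1)) := by
          rw [Real.rpow_add hn0, Real.rpow_mul hn0.le]
          congr 1
          · rw [← Real.rpow_natCast]
            congr 1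
            push_cast [Nat.cast_sub hj1]
            ring
          · rw [← Real.rpow_natCast]
            congr 1
            push_cast [Nat.cast_sub hjk]
            ring
      _ < (n : ℝ) ^ ((1 - (1 - β) ^ 2) * k) := by
          apply Real.rpow_lt_rpow_of_exponent_lt hn1
          nlinarith
  have h3 : ((cliques H k : ℕ) : ℝ) ≤ ((tup H k).card : ℝ) := by
    exact_mod_cast cliques_le_tup H k
  have h4 := h1.trans_le (hH.trans h3)
  exact_mod_cast h4

lemma ev_ge {s : ℝ} (hs : 0 < s) (A : ℝ) : ∀ᶠ n : ℕ in atTop, A ≤ (n : ℝ) ^ s :=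
  ((tendsto_rpow_atTop hs).comp tendsto_natCast_atTop_atTop).eventually (eventually_ge_atTop A)

/-- **The lower bound.** -/
theorem low_beta (β c γ : ℝ) (hβ0 : 0 < β) (hβ1 : β < 1) (hc : 0 ≤ c) (hγ : 0 ≤ γ)
    (hcγ : c / β ^ 2 + γ / (2 * β) < 1) (k : ℕ) (hk : 3 ≤ β * k) :
    ∃ α : ℝ, 0 < α ∧ ∀ᶠ n : ℕ in atTop, ∀ H : SimpleGraph (Fin n),
      (n : ℝ) ^ ((1 - (1 - β) ^ 2) * k) ≤ cliques H k →
      ∀ R : RandCircuit (n.choose 2),
        (∀ o, (2 : ℝ) ^ (R.C o).nots ≤ (n : ℝ) ^ γ ∧ ((R.C o).size : ℝ) ≤ (n : ℝ) ^ (c * k)) →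
        ∃ x, graph x ≤ H ∧ R.prob (Right k k x) < 1 / 2 + (n : ℝ) ^ (-α) := by
  set s : ℝ := 1 - c / β ^ 2 - γ / (2 * β) with hs
  have hs0 : 0 < s := by rw [hs]; linarith
  have hs1 : s ≤ 1 := by
    have h1 : 0 ≤ c / β ^ 2 := by positivity
    have h2 : 0 ≤ γ / (2 * β) := by positivity
    rw [hs]
    linarith
  set θ : ℝ := c / β ^ 2 + s / 4 with hθ
  set γ' : ℝ := γ / β + s / 4 with hγ'
  have hθ0 : 0 < θ := by
    have h1 : 0 ≤ c / β ^ 2 := by positivity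
    rw [hθ]
    linarith
  have hγ'0 : 0 ≤ γ' := by
    have h1 : 0 ≤ γ / β := by positivity
    rw [hγ']
    linarith
  have hγβ : γ / (2 * β) = γ / β / 2 := by
    rw [div_div, mul_comm 2 β]
  have hsum : θ + γ' / 2 < 1 := by
    rw [hθ, hγ']
    rw [hs, hγβ] at hs0
    have : s = 1 - c / β ^ 2 - γ / β / 2 := by rw [hs, hγβ]
    linarith
  have hθ1 : θ < 1 := by linarith
  have hγ'2 : γ' < 2 := by linarith
  set ι : ℝ := s * β / 32 with hι
  have hι0 : 0 < ι := by positivity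
  have hιβ : 3 * ι < β := by rw [hι]; nlinarith
  -- the size of the cliques
  set j : ℕ := ⌈β * k⌉₊ with hj
  have hj3 : 3 ≤ j := by
    have h1 : (3 : ℝ) ≤ j := hk.trans (Nat.le_ceil _)
    exact_mod_cast h1
  have hkr : (0 : ℝ) < k := by
    by_contra hcon
    push Not at hcon
    nlinarith
  have hjk : j ≤ k := by
    rw [hj]
    apply Nat.ceil_le.mpr
    nlinarith
  have hjl : (j : ℝ) - 1 < β * k := by
    have := Nat.ceil_lt_add_one (a := β * k) (by positivity)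
    rw [← hj] at this
    linarith
  have hjg : β * k ≤ j := Nat.le_ceil _
  obtain ⟨α₀, hα₀, H0⟩ := core_gap j j hj3 le_rfl γ' θ hγ'0 hθ0 hsum
  obtain ⟨N₀, hN₀⟩ := eventually_atTop.1 H0
  set α : ℝ := min ι ((β - 3 * ι) * α₀) / 2 with hα
  have hb3 : 0 < β - 3 * ι := by linarith
  have hmin : 0 < min ι ((β - 3 * ι) * α₀) := lt_min hι0 (mul_pos hb3 hα₀)
  refine ⟨α, by positivity, ?_⟩
  filter_upwards [ev_ge hι0 2, ev_ge hb3 ((N₀ : ℝ) + 1), ev_ge hι0 (8 * (k : ℝ) ^ 2),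
    ev_ge (s := α) (by positivity) 4, eventually_ge_atTop 2] with n e1 e2 e3 e4 e5 H hH R hR
  have hn0 : (0 : ℝ) < n := by exact_mod_cast (by omega : 0 < n)
  have hn1 : (1 : ℝ) < n := by exact_mod_cast (by omega : 1 < n)
  have hn1' : (1 : ℝ) ≤ n := hn1.le
  set M : ℕ := ⌊(n : ℝ) ^ β⌋₊ with hM
  set m : ℕ := ⌊(n : ℝ) ^ (β - 2 * ι)⌋₊ with hm
  -- m is large
  have hm1 : (n : ℝ) ^ (β - 3 * ι) ≤ m := by
    have h1 : (n : ℝ) ^ (β - 2 * ι) < m + 1 := Nat.lt_floor_add_one _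
    have h2 : (n : ℝ) ^ (β - 2 * ι) = (n : ℝ) ^ (β - 3 * ι) * (n : ℝ) ^ ι := by
      rw [← Real.rpow_add hn0]
      congr 1
      ring
    have h3 : (n : ℝ) ^ (β - 3 * ι) * 2 ≤ (n : ℝ) ^ (β - 2 * ι) := by
      rw [h2]
      gcongr
    have h4 : 1 ≤ (n : ℝ) ^ (β - 3 * ι) := Real.one_le_rpow hn1' hb3.le
    linarith
  have hm2 : (m : ℝ) ≤ (n : ℝ) ^ (β - 2 * ι) := Nat.floor_le (by positivity)
  have hm3 : (N₀ : ℝ) + 1 ≤ m := e2.trans hm1
  have hmN : N₀ ≤ m := by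
    have : (N₀ : ℝ) ≤ m := by linarith
    exact_mod_cast this
  have hm0r : (0 : ℝ) < m := by
    have : (0 : ℝ) ≤ N₀ := Nat.cast_nonneg _
    linarith
  have hm0 : 0 < m := by exact_mod_cast hm0r
  have hβ1' : 1 ≤ (n : ℝ) ^ β := Real.one_le_rpow hn1' hβ0.le
  have hM1 : (n : ℝ) ^ β / 2 ≤ M := by
    have h1 : (n : ℝ) ^ β < M + 1 := Nat.lt_floor_add_one _
    have h2 : (1 : ℝ) ≤ M := by
      have : 1 ≤ M := Nat.le_floor (by exact_mod_cast hβ1')
      exact_mod_cast this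
    linarith
  have hM0 : 0 < M := by
    have h2 : (0 : ℝ) < M := lt_of_lt_of_le (by positivity) hM1
    exact_mod_cast h2
  have hMn : M ≤ n := by
    rw [hM]
    apply Nat.floor_le_of_le
    calc (n : ℝ) ^ β ≤ (n : ℝ) ^ (1 : ℝ) := Real.rpow_le_rpow_of_exponent_le hn1' hβ1.le
      _ = n := Real.rpow_one _
  by_contra hcon
  push Not at hcon
  have hτ : ∀ y, graph y ≤ H → 1 / 2 + (n : ℝ) ^ (-α) ≤ R.prob (Right k k y) := hcon
  have h4inv : (n : ℝ) ^ (-α) ≤ 1 / 4 := by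
    rw [Real.rpow_neg hn0.le, ← one_div]
    exact one_div_le_one_div_of_le (by norm_num) e4
  obtain ⟨R', hR1, hR2⟩ := rand_proj (m := m) H (by omega : 2 ≤ k) (by omega : 1 ≤ j) hjk hm0 hM0
    hMn (count_ok e5 hβ0 hβ1 (by omega) hjk hjl H hH) R (1 / 2 + (n : ℝ) ^ (-α))
    (by positivity) (by linarith) hτ
  obtain ⟨x, -, -, hx⟩ := hN₀ m hmN m 0 0 (by omega) (by omega) R'
    (fun o' => by
      obtain ⟨o, -, ho⟩ := hR1 o'
      calc (2 : ℝ) ^ (R'.C o').nots ≤ (2 : ℝ) ^ (R.C o).nots :=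
            pow_le_pow_right₀ (by norm_num) ho
        _ ≤ (n : ℝ) ^ γ := (hR o).1
        _ ≤ (n : ℝ) ^ ((β - 3 * ι) * γ') := by
            apply Real.rpow_le_rpow_of_exponent_le hn1'
            have h1 : β * γ' = γ + s * β / 4 := by
              rw [hγ']
              field_simp
            have h2 : 3 * ι * γ' ≤ s * β / 4 := by
              rw [hι]
              have h3 : 0 < s * β := by positivity
              nlinarith
            linarith
        _ = ((n : ℝ) ^ (β - 3 * ι)) ^ γ' := by rw [Real.rpow_mul hn0.le]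
        _ ≤ (m : ℝ) ^ γ' := Real.rpow_le_rpow (by positivity) hm1 hγ'0)
    (fun o' => by
      obtain ⟨o, ho, -⟩ := hR1 o'
      have h5 : ((R'.C o').size : ℝ) ≤ ((R.C o).size : ℝ) := by exact_mod_cast ho
      calc ((R'.C o').size : ℝ) ≤ ((R.C o).size : ℝ) := h5
        _ ≤ (n : ℝ) ^ (c * k) := (hR o).2
        _ < (n : ℝ) ^ ((β - 3 * ι) * (θ * j)) := by
            apply Real.rpow_lt_rpow_of_exponent_lt hn1
            have h1 : θ * β ^ 2 = c + s * β ^ 2 / 4 := by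
              rw [hθ]
              field_simp
            have h2 : c * k < (β - 3 * ι) * (θ * (β * k)) := by
              have h3 : 3 * ι * θ * β < s * β ^ 2 / 4 := by
                rw [hι]
                have h4 : 0 < s * β * β := by positivity
                nlinarith
              have h6 : c < (β - 3 * ι) * θ * β := by nlinarith
              calc c * k < ((β - 3 * ι) * θ * β) * k := by gcongr
                _ = _ := by ring
            refine h2.trans_le ?_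
            gcongr
        _ = ((n : ℝ) ^ (β - 3 * ι)) ^ (θ * j) := by rw [Real.rpow_mul hn0.le]
        _ ≤ (m : ℝ) ^ (θ * j) := Real.rpow_le_rpow (by positivity) hm1 (by positivity))
  have hx2 := hR2 x
  -- the error of the projection
  have hη : (k : ℝ) ^ 2 * m / M ≤ (n : ℝ) ^ (-ι) / 4 := by
    have hM0r : (0 : ℝ) < M := by exact_mod_cast hM0
    rw [div_le_iff₀ hM0r]
    have h1 : (n : ℝ) ^ (β - 2 * ι) = (n : ℝ) ^ (-ι) * (n : ℝ) ^ (-ι) * (n : ℝ) ^ β := by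
      rw [← Real.rpow_add hn0, ← Real.rpow_add hn0]
      congr 1
      ring
    have h2 : 8 * (k : ℝ) ^ 2 * (n : ℝ) ^ (-ι) ≤ 1 := by
      rw [Real.rpow_neg hn0.le, ← div_eq_mul_inv, div_le_one (by positivity)]
      exact e3
    have h3 : 0 ≤ (n : ℝ) ^ (-ι) := by positivity
    have h4 : 0 ≤ (n : ℝ) ^ β := by positivity
    calc (k : ℝ) ^ 2 * m ≤ (k : ℝ) ^ 2 * (n : ℝ) ^ (β - 2 * ι) := by gcongr
      _ = (8 * (k : ℝ) ^ 2 * (n : ℝ) ^ (-ι)) * ((n : ℝ) ^ (-ι) / 4 * ((n : ℝ) ^ β / 2)) := by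
          rw [h1]
          ring
      _ ≤ 1 * ((n : ℝ) ^ (-ι) / 4 * ((n : ℝ) ^ β / 2)) := by gcongr
      _ ≤ (n : ℝ) ^ (-ι) / 4 * M := by
          rw [one_mul]
          gcongr
  have hα1 : (n : ℝ) ^ (-ι) ≤ (n : ℝ) ^ (-α) := by
    apply Real.rpow_le_rpow_of_exponent_le hn1'
    have := min_le_left ι ((β - 3 * ι) * α₀)
    rw [hα]
    linarith
  have hα2 : (m : ℝ) ^ (-α₀) ≤ (n : ℝ) ^ (-α) / 4 := by
    have h1 : (m : ℝ) ^ (-α₀) ≤ ((n : ℝ) ^ (β - 3 * ι)) ^ (-α₀) :=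
      Real.rpow_le_rpow_of_nonpos (by positivity) hm1 (by linarith)
    have h2 : ((n : ℝ) ^ (β - 3 * ι)) ^ (-α₀) ≤ (n : ℝ) ^ (-(2 * α)) := by
      rw [← Real.rpow_mul hn0.le]
      apply Real.rpow_le_rpow_of_exponent_le hn1'
      have := min_le_right ι ((β - 3 * ι) * α₀)
      rw [hα]
      linarith
    have h3 : (n : ℝ) ^ (-(2 * α)) = (n : ℝ) ^ (-α) * (n : ℝ) ^ (-α) := by
      rw [← Real.rpow_add hn0]
      congr 1
      ring
    have h4 : 0 ≤ (n : ℝ) ^ (-α) := by positivity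
    rw [h3] at h2
    nlinarith
  have h5 : 0 < (n : ℝ) ^ (-α) := by positivity
  linarith

end Pool.Agent.W2helper86.HU
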