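import Pool.Agent.W2helper86.HU.Blk
import Pool.Agent.W2helper86.KQ.Low

/-!
# The sharp lower bound for subgraphs of a host graph
-/

set_option autoImplicit false

namespace Pool.Agent.W2helper86.HU

open Finset Filter Pool.Agent.H540R2 Pool.Agent.H540R2.Circuit Pool.Agent.W2helper86.KQ
  Pool.Agent.W953.NW

/-- substitution of monotone functions for the inputs -/
lemma exists_comp {N N' : ℕ} (C : Circuit N) (g : Fin N → BF N') {t e : ℕ}
    (hg : ∀ p, MC (g p) t e) : ∃ C' : Circuit N', C'.size ≤ N * t + C.size ∧ C'.nots ≤ C.nots ∧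
      ∀ x, C'.eval x = C.eval (fun p => g p x) := by
  obtain ⟨P1, p1, a1⟩ := MC.avAll (Circuit.empty N') hg
  obtain ⟨P2, p2, a2⟩ := Av.app P1 C g e a1
  obtain ⟨C', h1, h2, -, h4⟩ := a2.circuit
  refine ⟨C', ?_, ?_, h4⟩
  · rw [h1]
    have e1 := (p1.trans p2).2.1
    have h0 : (Circuit.empty N').size = 0 := rfl
    omega
  · rw [h2]
    have e1 := (p1.trans p2).2.2
    rw [empty_nots] at e1
    omega

/-- A random circuit for the subgraphs of the host graph gives one for all graphs on `m`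
vertices. -/
theorem rand_red {n m k K S : ℕ} (H : SimpleGraph (Fin n)) (ε : ℝ) (hε : 0 ≤ ε)
    (hred : Reduces H k m K S ε) (R : RandCircuit (n.choose 2))
    (τ : ℝ) (hτ0 : 0 ≤ τ) (hτ1 : τ ≤ 1)
    (hR : ∀ y, graph y ≤ H → τ ≤ R.prob (Right k k y)) :
    ∃ R' : RandCircuit (m.choose 2),
      (∀ o', ∃ o, (R'.C o').size ≤ n.choose 2 * S + (R.C o).size ∧
        (R'.C o').nots ≤ (R.C o).nots) ∧
      ∀ x, τ - ε ≤ R'.prob (Right K K x) := by
  classical
  obtain ⟨Φ, hfin, hne, g, hg1, hg2⟩ := hred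
  letI := R.fin
  have hΦc : (0 : ℝ) < Fintype.card Φ := by exact_mod_cast Fintype.card_pos
  choose Z hZ1 hZ2 hZ3 using fun (q : Φ × R.Ω) => exists_comp (R.C q.2) (g q.1) (hg1 q.1)
  let R' : RandCircuit (m.choose 2) :=
    { Ω := Φ × R.Ω
      fin := inferInstance
      w := fun q => R.w q.2 / Fintype.card Φ
      nonneg := fun q => div_nonneg (R.nonneg q.2) hΦc.le
      sum_one := by
        rw [Fintype.sum_prod_type]
        simp only
        rw [Finset.sum_const, card_univ, nsmul_eq_mul, ← Finset.sum_div, R.sum_one]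
        field_simp
      C := Z }
  refine ⟨R', fun q => ⟨q.2, hZ1 q, hZ2 q⟩, fun x => ?_⟩
  obtain ⟨h1, h2, h3⟩ := hg2 x
  -- the bad maps
  set bad : Finset Φ := univ.filter (fun φ => ¬ (graph x).CliqueFree K ∧
    (graph (fun p => g φ p x)).CliqueFree k) with hbad
  have hbc : (bad.card : ℝ) ≤ ε * Fintype.card Φ := by
    by_cases hx : (graph x).CliqueFree K
    · have : bad = ∅ := by
        rw [hbad, filter_eq_empty_iff]
        intro φ _ h
        exact h.1 hx
      rw [this, card_empty, Nat.cast_zero]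
      positivity
    · refine le_trans (le_of_eq ?_) (h3 hx)
      rw [← Set.ncard_coe_finset]
      congr 2
      ext φ
      simp [hbad, hx]
  have hgood : ∀ φ ∉ bad, ∀ o, Right k k (fun p => g φ p x) (R.C o) →
      Right K K x (Z (φ, o)) := by
    intro φ hφ o hr
    rw [hbad, mem_filter] at hφ
    have hφ' : ¬ (graph x).CliqueFree K →
        ¬ (graph (fun p => g φ p x)).CliqueFree k := by
      intro ha hb
      exact hφ ⟨mem_univ _, ha, hb⟩
    unfold Right at hr ⊢
    rw [hZ3 (φ, o)]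
    exact ⟨fun h => hr.1 (hφ' h), fun h => hr.2 (h2 h φ)⟩
  have hprob : R'.prob (Right K K x) =
      ∑ φ : Φ, ∑ o : R.Ω, if Right K K x (Z (φ, o)) then R.w o / Fintype.card Φ else 0 := by
    unfold RandCircuit.prob
    rw [Finset.sum_filter, Fintype.sum_prod_type]
  rw [hprob]
  have hin : ∀ φ : Φ, 0 ≤ ∑ o : R.Ω, (if Right K K x (Z (φ, o)) then R.w o / Fintype.card Φ
      else 0) := by
    intro φ
    refine Finset.sum_nonneg fun o _ => ?_
    split_ifs
    · exact div_nonneg (R.nonneg o) hΦc.le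
    · exact le_rfl
  have hin2 : ∀ φ ∈ badᶜ, τ / Fintype.card Φ ≤
      ∑ o : R.Ω, (if Right K K x (Z (φ, o)) then R.w o / Fintype.card Φ else 0) := by
    intro φ hφ
    rw [mem_compl] at hφ
    have h4 := hR _ (h1 φ)
    have h5 : R.prob (Right k k (fun p => g φ p x)) / Fintype.card Φ ≤
        ∑ o : R.Ω, (if Right K K x (Z (φ, o)) then R.w o / Fintype.card Φ else 0) := by
      unfold RandCircuit.prob
      rw [Finset.sum_div, ← Finset.sum_filter]
      refine Finset.sum_le_sum_of_subset_of_nonneg ?_ fun o _ _ =>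
        div_nonneg (R.nonneg o) hΦc.le
      intro o ho
      rw [mem_filter] at ho ⊢
      exact ⟨mem_univ _, hgood φ hφ o ho.2⟩
    refine le_trans ?_ h5
    gcongr
  calc τ - ε ≤ τ * (1 - (bad.card : ℝ) / Fintype.card Φ) := by
        have h4 : (bad.card : ℝ) / Fintype.card Φ ≤ ε := by
          rw [div_le_iff₀ hΦc]
          exact hbc
        have h5 : 0 ≤ (bad.card : ℝ) / Fintype.card Φ := by positivity
        nlinarith
    _ = ∑ _φ ∈ badᶜ, τ / Fintype.card Φ := by
        rw [Finset.sum_const, nsmul_eq_mul]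
        have h4 : ((badᶜ : Finset Φ).card : ℝ) = Fintype.card Φ - bad.card := by
          rw [card_compl, Nat.cast_sub (card_le_univ bad)]
        rw [h4]
        field_simp
    _ ≤ ∑ φ ∈ badᶜ, ∑ o : R.Ω, (if Right K K x (Z (φ, o)) then R.w o / Fintype.card Φ
          else 0) := Finset.sum_le_sum hin2
    _ ≤ ∑ φ : Φ, ∑ o : R.Ω, (if Right K K x (Z (φ, o)) then R.w o / Fintype.card Φ else 0) :=
        Finset.sum_le_sum_of_subset_of_nonneg (subset_univ _) fun φ _ _ => hin φ

/-- the lower bound for all graphs, uniformly in the size of the cliques -/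
lemma core_unif (γ θ : ℝ) (hγ : 0 ≤ γ) (hθ : 0 < θ) (h : θ + γ / 2 < 1) (Q : ℕ) :
    ∃ α : ℝ, 0 < α ∧ ∀ᶠ r : ℕ in atTop, ∀ K ≤ Q, 3 ≤ K →
      ∀ R : RandCircuit (r.choose 2), (∀ o, (2 : ℝ) ^ (R.C o).nots ≤ (r : ℝ) ^ γ) →
          (∀ o, ((R.C o).size : ℝ) < (r : ℝ) ^ (θ * K)) →
          ∃ x : Fin (r.choose 2) → Bool, R.prob (Right K K x) < 1 / 2 + (r : ℝ) ^ (-α) := by
  induction Q with
  | zero => exact ⟨1, one_pos, Eventually.of_forall fun r K hK hK3 => by omega⟩
  | succ Q ih =>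
    obtain ⟨α₁, hα₁, H₁⟩ := ih
    by_cases hQ : 3 ≤ Q + 1
    · obtain ⟨α₂, hα₂, H₂⟩ := core_gap (Q + 1) (Q + 1) hQ le_rfl γ θ hγ hθ h
      refine ⟨min α₁ α₂, lt_min hα₁ hα₂, ?_⟩
      filter_upwards [H₁, H₂, eventually_ge_atTop 1] with r h1 h2 hr K hK hK3 R ha hb
      have hr1 : (1 : ℝ) ≤ r := by exact_mod_cast hr
      rcases Nat.lt_or_ge K (Q + 1) with hlt | hge
      · obtain ⟨x, hx⟩ := h1 K (by omega) hK3 R ha hb
        refine ⟨x, hx.trans_le ?_⟩
        have : (r : ℝ) ^ (-α₁) ≤ (r : ℝ) ^ (-min α₁ α₂) :=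
          Real.rpow_le_rpow_of_exponent_le hr1 (neg_le_neg (min_le_left _ _))
        linarith
      · have hKQ : K = Q + 1 := by omega
        subst hKQ
        obtain ⟨x, -, -, hx⟩ := h2 r 0 0 (by omega) (by omega) R ha hb
        refine ⟨x, hx.trans_le ?_⟩
        have : (r : ℝ) ^ (-α₂) ≤ (r : ℝ) ^ (-min α₁ α₂) :=
          Real.rpow_le_rpow_of_exponent_le hr1 (neg_le_neg (min_le_right _ _))
        linarith
    · refine ⟨α₁, hα₁, ?_⟩
      filter_upwards [H₁] with r h1 K hK hK3 R ha hb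
      omega

end Pool.Agent.W2helper86.HU
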