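import Pool.Agent.W2helper86.HU.Hit
import Pool.Agent.W2helper86.KQ.Defs

/-!
# Random projections from the clique problem to subgraphs of a host graph
-/

set_option autoImplicit false

namespace Pool.Agent.W2helper86.HU

open Finset Pool.Agent.H540R2 Pool.Agent.W2helper86.KQ

/-! ### tuples and cliques -/

open Classical in
/-- the tuples of `k` pairwise adjacent vertices -/
noncomputable def tup {n : ℕ} (H : SimpleGraph (Fin n)) (k : ℕ) : Finset (Fin k → Fin n) :=
  univ.filter (fun e => ∀ a b, a ≠ b → H.Adj (e a) (e b))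

/-- the number of cliques of `k` vertices -/
noncomputable def cliques {n : ℕ} (H : SimpleGraph (Fin n)) (k : ℕ) : ℕ :=
  {s : Finset (Fin n) | H.IsNClique k s}.ncard

lemma tup_inj {n k : ℕ} {H : SimpleGraph (Fin n)} {e : Fin k → Fin n} (he : e ∈ tup H k) :
    Function.Injective e := by
  classical
  intro a b hab
  by_contra hne
  rw [tup, mem_filter] at he
  have := he.2 a b hne
  rw [hab] at this
  exact H.loopless.irrefl _ this

lemma cliques_le_tup {n : ℕ} (H : SimpleGraph (Fin n)) (k : ℕ) :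
    cliques H k ≤ (tup H k).card := by
  classical
  have h1 : {s : Finset (Fin n) | H.IsNClique k s} ⊆
      ((tup H k).image (fun e => univ.image e) : Finset (Finset (Fin n))) := by
    intro s hs
    have hs' : H.IsNClique k s := hs
    rw [coe_image, Set.mem_image]
    refine ⟨s.orderEmbOfFin hs'.card_eq, ?_, ?_⟩
    · rw [mem_coe, tup, mem_filter]
      refine ⟨mem_univ _, fun a b hab => ?_⟩
      apply hs'.isClique
      · exact s.orderEmbOfFin_mem hs'.card_eq a
      · exact s.orderEmbOfFin_mem hs'.card_eq b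
      · intro h
        exact hab ((s.orderEmbOfFin hs'.card_eq).injective h)
    · ext v
      rw [mem_image]
      constructor
      · rintro ⟨a, -, rfl⟩
        exact s.orderEmbOfFin_mem hs'.card_eq a
      · intro hv
        have h2 := s.range_orderEmbOfFin hs'.card_eq
        have h3 : v ∈ Set.range (s.orderEmbOfFin hs'.card_eq) := by
          rw [h2]
          exact hv
        obtain ⟨a, ha⟩ := h3
        exact ⟨a, mem_univ _, ha⟩
  unfold cliques
  refine (Set.ncard_le_ncard h1 (Finset.finite_toSet _)).trans ?_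
  rw [Set.ncard_coe_finset]
  exact card_image_le

/-! ### a spread subfamily -/

lemma exists_spread {V : Type} [Fintype V] [DecidableEq V] {k : ℕ} (T : Finset (Fin k → V))
    (hT : T.Nonempty) (M : ℕ) (hM : 0 < M) : ∃ (I : Finset (Fin k)) (e0 : Fin k → V),
      (T.filter (fun e => ∀ a ∈ I, e a = e0 a)).Nonempty ∧
      T.card ≤ (T.filter (fun e => ∀ a ∈ I, e a = e0 a)).card * M ^ I.card ∧
      ∀ e ∈ T.filter (fun e => ∀ a ∈ I, e a = e0 a), ∀ A : Finset (Fin k), A ⊆ Iᶜ →
        ((T.filter (fun e => ∀ a ∈ I, e a = e0 a)).filter (fun e' => ∀ a ∈ A, e' a = e a)).card *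
          M ^ A.card ≤ (T.filter (fun e => ∀ a ∈ I, e a = e0 a)).card := by
  classical
  obtain ⟨t, ht⟩ := hT
  obtain ⟨⟨I, e0⟩, -, hmax⟩ := exists_max_image
    (univ : Finset (Finset (Fin k) × (Fin k → V)))
    (fun p => (T.filter (fun e => ∀ a ∈ p.1, e a = p.2 a)).card * M ^ p.1.card)
    ⟨(∅, t), mem_univ _⟩
  have h0 : T.card ≤ (T.filter (fun e => ∀ a ∈ I, e a = e0 a)).card * M ^ I.card := by
    have h1 := hmax (∅, t) (mem_univ _)
    have h2 : T.filter (fun e => ∀ a ∈ (∅ : Finset (Fin k)), e a = t a) = T := by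
      rw [filter_true_of_mem]
      intro e _ a ha
      exact absurd ha (notMem_empty a)
    simp only [h2, card_empty, pow_zero, mul_one] at h1
    exact h1
  refine ⟨I, e0, ?_, h0, ?_⟩
  · have hTc : 0 < T.card := card_pos.mpr ⟨t, ht⟩
    rw [← card_pos]
    by_contra hcon
    have h1 : (T.filter (fun e => ∀ a ∈ I, e a = e0 a)).card = 0 := by omega
    rw [h1, zero_mul] at h0
    omega
  · intro e he A hA
    have h1 := hmax (I ∪ A, e) (mem_univ _)
    have hdisj : Disjoint I A := by
      rw [disjoint_left]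
      intro a ha hb
      exact (mem_compl.mp (hA hb)) ha
    have h2 : T.filter (fun e' => ∀ a ∈ I ∪ A, e' a = e a) =
        (T.filter (fun e => ∀ a ∈ I, e a = e0 a)).filter (fun e' => ∀ a ∈ A, e' a = e a) := by
      rw [mem_filter] at he
      ext e'
      simp only [mem_filter, mem_union]
      constructor
      · rintro ⟨h3, h4⟩
        exact ⟨⟨h3, fun a ha => (h4 a (Or.inl ha)).trans (he.2 a ha)⟩,
          fun a ha => h4 a (Or.inr ha)⟩
      · rintro ⟨⟨h3, h4⟩, h5⟩
        refine ⟨h3, fun a ha => ?_⟩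
        rcases ha with ha | ha
        · rw [h4 a ha, he.2 a ha]
        · exact h5 a ha
    simp only [h2, card_union_of_disjoint hdisj, pow_add] at h1
    have h3 : 0 < M ^ I.card := pow_pos hM _
    have h4 : (((T.filter (fun e => ∀ a ∈ I, e a = e0 a)).filter
        (fun e' => ∀ a ∈ A, e' a = e a)).card * M ^ A.card) * M ^ I.card ≤
        (T.filter (fun e => ∀ a ∈ I, e a = e0 a)).card * M ^ I.card := by
      calc _ = ((T.filter (fun e => ∀ a ∈ I, e a = e0 a)).filter
        (fun e' => ∀ a ∈ A, e' a = e a)).card * (M ^ I.card * M ^ A.card) := by ring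
        _ ≤ _ := h1
    exact Nat.le_of_mul_le_mul_right h4 h3

/-- many free positions -/
lemma free_large {n k j M : ℕ} (T : Finset (Fin k → Fin n)) (hMn : M ≤ n)
    (hj1 : 1 ≤ j) (hjk : j ≤ k) (hT : n ^ (j - 1) * M ^ (k - j + 1) < T.card)
    (I : Finset (Fin k)) (e0 : Fin k → Fin n)
    (h : T.card ≤ (T.filter (fun e => ∀ a ∈ I, e a = e0 a)).card * M ^ I.card) :
    j ≤ Iᶜ.card := by
  classical
  by_contra hcon
  push Not at hcon
  have hI : I.card ≤ k := by
    have := card_le_univ I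
    rwa [Fintype.card_fin] at this
  have hIc : Iᶜ.card = k - I.card := by rw [card_compl, Fintype.card_fin]
  have h1 : (T.filter (fun e => ∀ a ∈ I, e a = e0 a)).card ≤ n ^ (k - I.card) := by
    have h2 : T.filter (fun e => ∀ a ∈ I, e a = e0 a) ⊆
        univ.filter (fun e : Fin k → Fin n => ∀ a ∈ I, e a = e0 a) :=
      filter_subset_filter _ (subset_univ _)
    have h3 := card_le_card h2
    have h4 := card_fix (V := Fin k) (β := Fin n) I e0
    rw [Fintype.card_fin, Fintype.card_fin] at h4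
    refine h3.trans (le_of_eq ?_)
    convert h4
  obtain ⟨d, hd⟩ : ∃ d, j - 1 = (k - I.card) + d := ⟨j - 1 - (k - I.card), by omega⟩
  have h4 : I.card = (k - j + 1) + d := by omega
  have h5 : T.card ≤ n ^ (k - I.card) * M ^ I.card := h.trans (Nat.mul_le_mul_right _ h1)
  have h6 : n ^ (k - I.card) * M ^ I.card ≤ n ^ (j - 1) * M ^ (k - j + 1) := by
    calc n ^ (k - I.card) * M ^ I.card = n ^ (k - I.card) * (M ^ (k - j + 1) * M ^ d) := by
          rw [← pow_add, ← h4]
      _ ≤ n ^ (k - I.card) * (M ^ (k - j + 1) * n ^ d) := by gcongr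
      _ = n ^ (j - 1) * M ^ (k - j + 1) := by rw [hd, pow_add]; ring
  omega

/-! ### the projection -/

section proj

variable {n m k : ℕ} (H : SimpleGraph (Fin n)) (I U : Finset (Fin k)) (e0 : Fin k → Fin n)
  (φ : Fin n → Fin k × Fin m)

/-- the fixed vertices -/
def InR (u : Fin n) : Prop := ∃ a ∈ I, e0 a = u

/-- the usable other vertices -/
def Free (u : Fin n) : Prop := ¬ InR I e0 u ∧ (φ u).1 ∉ I

/-- a pair which may be an edge -/
def Base (u v : Fin n) : Prop := H.Adj u v ∧ (InR I e0 u ∨ Free I e0 φ u) ∧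
  (InR I e0 v ∨ Free I e0 φ v) ∧ (Free I e0 φ u → Free I e0 φ v → (φ u).1 ≠ (φ v).1)

/-- a pair which depends on the given graph -/
def Dep (u v : Fin n) : Prop := Free I e0 φ u ∧ Free I e0 φ v ∧ (φ u).1 ∉ U ∧ (φ v).1 ∉ U

lemma base_symm {u v : Fin n} (h : Base H I e0 φ u v) : Base H I e0 φ v u :=
  ⟨h.1.symm, h.2.2.1, h.2.1, fun h1 h2 => (h.2.2.2 h2 h1).symm⟩

lemma dep_symm {u v : Fin n} (h : Dep I U e0 φ u v) : Dep I U e0 φ v u :=
  ⟨h.2.1, h.1, h.2.2.2, h.2.2.1⟩

/-- the projected graph -/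
def proj (F : SimpleGraph (Fin m)) : SimpleGraph (Fin n) where
  Adj u v := Base H I e0 φ u v ∧ (Dep I U e0 φ u v → F.Adj (φ u).2 (φ v).2)
  symm := ⟨fun _ _ h => ⟨base_symm H I e0 φ h.1,
    fun h1 => (h.2 (dep_symm I U e0 φ h1)).symm⟩⟩
  loopless := ⟨fun u h => H.loopless.irrefl u h.1.1⟩

lemma proj_le (F : SimpleGraph (Fin m)) : proj H I U e0 φ F ≤ H := fun _ _ h => h.1.1

lemma proj_sound (F : SimpleGraph (Fin m)) (j : ℕ) (hk : 2 ≤ k)
    (hUj : U.card + j ≤ Iᶜ.card) (h : ¬ (proj H I U e0 φ F).CliqueFree k) :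
    ¬ F.CliqueFree j := by
  classical
  intro hF
  apply h
  intro Q hQ
  have hall : ∀ u ∈ Q, InR I e0 u ∨ Free I e0 φ u := by
    intro u hu
    have h1 : 1 < Q.card := by
      rw [hQ.card_eq]
      omega
    obtain ⟨v, hv, hvu⟩ := exists_mem_ne h1 u
    have h2 := hQ.isClique (mem_coe.mpr hu) (mem_coe.mpr hv) hvu.symm
    exact h2.1.2.1
  set QR := Q.filter (fun u => InR I e0 u) with hQR
  set QF := Q.filter (fun u => Free I e0 φ u) with hQF
  have hcard1 : Q.card ≤ QR.card + QF.card := by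
    have h1 : Q ⊆ QR ∪ QF := by
      intro u hu
      rw [mem_union, hQR, hQF, mem_filter, mem_filter]
      rcases hall u hu with h2 | h2
      · exact Or.inl ⟨hu, h2⟩
      · exact Or.inr ⟨hu, h2⟩
    exact (card_le_card h1).trans (card_union_le _ _)
  have hcard2 : QR.card ≤ I.card := by
    have h1 : QR ⊆ I.image e0 := by
      intro u hu
      rw [hQR, mem_filter] at hu
      obtain ⟨a, ha, hau⟩ := hu.2
      exact mem_image.mpr ⟨a, ha, hau⟩
    exact (card_le_card h1).trans card_image_le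
  have hinj : ∀ u ∈ QF, ∀ v ∈ QF, (φ u).1 = (φ v).1 → u = v := by
    intro u hu v hv huv
    by_contra hne
    rw [hQF, mem_filter] at hu hv
    have h2 := hQ.isClique (mem_coe.mpr hu.1) (mem_coe.mpr hv.1) hne
    exact h2.1.2.2.2 hu.2 hv.2 huv
  set W := QF.filter (fun u => (φ u).1 ∉ U) with hW
  have hcard3 : QF.card ≤ W.card + U.card := by
    have h1 : QF.card = W.card + (QF.filter (fun u => ¬ (φ u).1 ∉ U)).card :=
      (card_filter_add_card_filter_not (s := QF) (fun u => (φ u).1 ∉ U)).symm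
    have h2 : (QF.filter (fun u => ¬ (φ u).1 ∉ U)).card ≤ U.card := by
      refine card_le_card_of_injOn (fun u => (φ u).1) ?_ ?_
      · intro u hu
        rw [mem_coe, mem_filter, not_not] at hu
        exact hu.2
      · intro u hu v hv huv
        rw [mem_coe, mem_filter] at hu hv
        exact hinj u hu.1 v hv.1 huv
    omega
  have hI : I.card + Iᶜ.card = k := by
    rw [card_add_card_compl, Fintype.card_fin]
  have hWj : j ≤ W.card := by
    have := hQ.card_eq
    omega
  have hadj : ∀ u ∈ W, ∀ v ∈ W, u ≠ v → F.Adj (φ u).2 (φ v).2 := by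
    intro u hu v hv hne
    rw [hW, mem_filter, hQF, mem_filter] at hu hv
    have h2 := hQ.isClique (mem_coe.mpr hu.1.1) (mem_coe.mpr hv.1.1) hne
    exact h2.2 ⟨hu.1.2, hv.1.2, hu.2, hv.2⟩
  have hFW : F.CliqueFree W.card := hF.mono hWj
  apply hFW (W.image (fun u => (φ u).2))
  constructor
  · intro a ha b hb hab
    rw [mem_coe, mem_image] at ha hb
    obtain ⟨u, hu, rfl⟩ := ha
    obtain ⟨v, hv, rfl⟩ := hb
    exact hadj u hu v hv (fun h1 => hab (by rw [h1]))
  · rw [card_image_of_injOn]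
    intro u hu v hv huv
    by_contra hne
    have h2 := hadj u (mem_coe.mp hu) v (mem_coe.mp hv) hne
    have h3 : (φ u).2 = (φ v).2 := huv
    rw [h3] at h2
    exact F.loopless.irrefl _ h2

lemma proj_complete (F : SimpleGraph (Fin m)) (x : Fin k → Fin m)
    (hx : ∀ a b, a ∉ I → b ∉ I → a ∉ U → b ∉ U → a ≠ b → F.Adj (x a) (x b))
    (e : Fin k → Fin n) (he : e ∈ tup H k) (he0 : ∀ a ∈ I, e a = e0 a)
    (hφ : ∀ a ∉ I, φ (e a) = (a, x a)) : ¬ (proj H I U e0 φ F).CliqueFree k := by
  classical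
  have hinj := tup_inj he
  have he' := he
  rw [tup, mem_filter] at he
  have hR : ∀ a ∈ I, InR I e0 (e a) := fun a ha => ⟨a, ha, (he0 a ha).symm⟩
  have hRn : ∀ a ∉ I, ¬ InR I e0 (e a) := by
    rintro a ha ⟨b, hb, hbe⟩
    rw [← he0 b hb] at hbe
    exact ha ((hinj hbe) ▸ hb)
  have hF : ∀ a ∉ I, Free I e0 φ (e a) := by
    intro a ha
    refine ⟨hRn a ha, ?_⟩
    rw [hφ a ha]
    exact ha
  have hRnot : ∀ a ∈ I, ¬ Free I e0 φ (e a) := fun a ha h => h.1 (hR a ha)
  intro hcf
  apply hcf (univ.image e)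
  constructor
  · intro u hu v hv huv
    rw [mem_coe, mem_image] at hu hv
    obtain ⟨a, -, rfl⟩ := hu
    obtain ⟨b, -, rfl⟩ := hv
    have hab : a ≠ b := fun h => huv (by rw [h])
    refine ⟨⟨he.2 a b hab, ?_, ?_, ?_⟩, ?_⟩
    · by_cases ha : a ∈ I
      · exact Or.inl (hR a ha)
      · exact Or.inr (hF a ha)
    · by_cases hb : b ∈ I
      · exact Or.inl (hR b hb)
      · exact Or.inr (hF b hb)
    · intro h1 h2
      have ha : a ∉ I := fun ha => hRnot a ha h1
      have hb : b ∉ I := fun hb => hRnot b hb h2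
      rw [hφ a ha, hφ b hb]
      exact hab
    · rintro ⟨h1, h2, h3, h4⟩
      have ha : a ∉ I := fun ha => hRnot a ha h1
      have hb : b ∉ I := fun hb => hRnot b hb h2
      rw [hφ a ha] at h3
      rw [hφ b hb] at h4
      rw [hφ a ha, hφ b hb]
      exact hx a b ha hb h3 h4 hab
  · rw [card_image_of_injective _ hinj, card_univ, Fintype.card_fin]

end proj

/-! ### nodes -/

/-- the bit of the pair `a, b` -/
noncomputable def en {m : ℕ} (a b : Fin m) : Node (m.choose 2) :=
  if h : a < b then .var (pairNo m ⟨(a, b), h⟩)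
  else if h : b < a then .var (pairNo m ⟨(b, a), h⟩) else .const false

lemma en_wires {m : ℕ} (a b : Fin m) (l : ℕ) : (en a b).wires l = 0 := by
  unfold en
  split_ifs <;> rfl

lemma graph_adj {n : ℕ} (y : Fin (n.choose 2) → Bool) {u v : Fin n} (h : u < v) :
    (graph y).Adj u v ↔ y (pairNo n ⟨(u, v), h⟩) = true := by
  unfold graph
  rw [SimpleGraph.fromRel_adj]
  constructor
  · rintro ⟨-, ⟨h1, h2⟩ | ⟨h1, h2⟩⟩
    · exact h2
    · exact absurd h1 (not_lt.mpr h.le)
  · intro h1
    exact ⟨h.ne, Or.inl ⟨h, h1⟩⟩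

lemma en_eval {m : ℕ} (x : Fin (m.choose 2) → Bool) (w : ℕ → Bool) (a b : Fin m) :
    (en a b).eval x w = true ↔ (graph x).Adj a b := by
  unfold en
  split_ifs with h1 h2
  · rw [graph_adj x h1]
    rfl
  · rw [SimpleGraph.adj_comm, graph_adj x h2]
    rfl
  · have h3 : a = b := le_antisymm (not_lt.mp h2) (not_lt.mp h1)
    subst h3
    constructor
    · intro h
      exact absurd h (by simp [Node.eval])
    · intro h
      exact absurd h ((graph x).loopless.irrefl a)

open Classical in
/-- the node for a pair of vertices of the host graph -/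
noncomputable def nd {n m k : ℕ} (H : SimpleGraph (Fin n)) (I U : Finset (Fin k))
    (e0 : Fin k → Fin n) (φ : Fin n → Fin k × Fin m) (p : Fin (n.choose 2)) :
    Node (m.choose 2) :=
  let q := (pairNo n).symm p
  if Base H I e0 φ q.1.1 q.1.2 then
    if Dep I U e0 φ q.1.1 q.1.2 then en (φ q.1.1).2 (φ q.1.2).2 else .const true
  else .const false

lemma nd_wires {n m k : ℕ} (H : SimpleGraph (Fin n)) (I U : Finset (Fin k))
    (e0 : Fin k → Fin n) (φ : Fin n → Fin k × Fin m) (p : Fin (n.choose 2)) (l : ℕ) :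
    (nd H I U e0 φ p).wires l = 0 := by
  simp only [nd]
  split_ifs
  · exact en_wires _ _ _
  · rfl
  · rfl

lemma nd_graph {n m k : ℕ} (H : SimpleGraph (Fin n)) (I U : Finset (Fin k))
    (e0 : Fin k → Fin n) (φ : Fin n → Fin k × Fin m) (x : Fin (m.choose 2) → Bool)
    (w : ℕ → Bool) :
    graph (fun p => (nd H I U e0 φ p).eval x w) = proj H I U e0 φ (graph x) := by
  classical
  have hlt : ∀ u v : Fin n, u < v →
      ((graph (fun p => (nd H I U e0 φ p).eval x w)).Adj u v ↔
        (proj H I U e0 φ (graph x)).Adj u v) := by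
    intro u v huv
    rw [graph_adj _ huv]
    simp only [nd, Equiv.symm_apply_apply]
    show _ ↔ Base H I e0 φ u v ∧ (Dep I U e0 φ u v → (graph x).Adj (φ u).2 (φ v).2)
    by_cases hb : Base H I e0 φ u v
    · rw [if_pos hb]
      by_cases hd : Dep I U e0 φ u v
      · rw [if_pos hd, en_eval]
        exact ⟨fun h => ⟨hb, fun _ => h⟩, fun h => h.2 hd⟩
      · rw [if_neg hd]
        exact ⟨fun _ => ⟨hb, fun h => absurd h hd⟩, fun _ => rfl⟩
    · rw [if_neg hb]
      constructor
      · intro h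
        exact absurd h (by simp [Node.eval])
      · intro h
        exact absurd h.1 hb
  ext u v
  rcases lt_trichotomy u v with h | h | h
  · exact hlt u v h
  · subst h
    constructor
    · intro h1
      exact absurd h1 (SimpleGraph.irrefl _)
    · intro h1
      exact absurd h1 (SimpleGraph.irrefl _)
  · rw [SimpleGraph.adj_comm, hlt v u h, SimpleGraph.adj_comm]

/-- **Random projections to the subgraphs of a host graph.** -/
theorem projection {n m k j M : ℕ} (H : SimpleGraph (Fin n)) (hk : 2 ≤ k) (hj1 : 1 ≤ j)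
    (hjk : j ≤ k) (hm : 0 < m) (hM : 0 < M) (hMn : M ≤ n)
    (hN : n ^ (j - 1) * M ^ (k - j + 1) < (tup H k).card) :
    ∃ σ : (Fin n → Fin k × Fin m) → Fin (n.choose 2) → Node (m.choose 2),
      (∀ φ p l, (σ φ p).wires l = 0) ∧
      ∀ (x : Fin (m.choose 2) → Bool) (w : ℕ → Bool),
        (∀ φ, graph (fun p => (σ φ p).eval x w) ≤ H) ∧
        ((graph x).CliqueFree j → ∀ φ, (graph (fun p => (σ φ p).eval x w)).CliqueFree k) ∧
        (¬ (graph x).CliqueFree j →
          ({φ : Fin n → Fin k × Fin m |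
              (graph (fun p => (σ φ p).eval x w)).CliqueFree k}.ncard : ℝ) ≤
            (k : ℝ) ^ 2 * m / M * Fintype.card (Fin n → Fin k × Fin m)) := by
  classical
  have hT : (tup H k).Nonempty := by
    rw [← card_pos]
    omega
  obtain ⟨I, e0, hne, hcard, hsp⟩ := exists_spread (tup H k) hT M hM
  have hJ : j ≤ Iᶜ.card := free_large (tup H k) hMn hj1 hjk hN I e0 hcard
  obtain ⟨U, hU1, hU2⟩ := exists_subset_card_eq (s := Iᶜ) (n := Iᶜ.card - j) (by omega)
  refine ⟨fun φ => nd H I U e0 φ, fun φ p l => nd_wires H I U e0 φ p l, fun x w => ?_⟩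
  simp only [nd_graph]
  refine ⟨fun φ => proj_le H I U e0 φ _, fun hx φ => ?_, fun hx => ?_⟩
  · by_contra hcon
    exact proj_sound H I U e0 φ (graph x) j hk (by omega) hcon hx
  · -- the targets
    have hW : (Iᶜ \ U).card = j := by
      rw [card_sdiff_of_subset hU1, hU2]
      omega
    obtain ⟨f⟩ : Nonempty ((⊤ : SimpleGraph (Fin j)) ↪g graph x) :=
      ⟨SimpleGraph.topEmbeddingOfNotCliqueFree hx⟩
    set ε := (Iᶜ \ U).equivFinOfCardEq hW with hε
    set z : Fin k → Fin m := fun a => if h : a ∈ Iᶜ \ U then f (ε ⟨a, h⟩) else ⟨0, hm⟩ with hz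
    have hzadj : ∀ a b, a ∉ I → b ∉ I → a ∉ U → b ∉ U → a ≠ b → (graph x).Adj (z a) (z b) := by
      intro a b ha hb ha' hb' hab
      have h1 : a ∈ Iᶜ \ U := by
        rw [mem_sdiff, mem_compl]
        exact ⟨ha, ha'⟩
      have h2 : b ∈ Iᶜ \ U := by
        rw [mem_sdiff, mem_compl]
        exact ⟨hb, hb'⟩
      simp only [hz]
      rw [dif_pos h1, dif_pos h2, f.map_adj_iff, SimpleGraph.top_adj]
      intro h3
      have h4 := ε.injective h3
      exact hab (congrArg Subtype.val h4)
    set Fm := (tup H k).filter (fun e => ∀ a ∈ I, e a = e0 a) with hFm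
    have hkm : Fintype.card (Fin k × Fin m) = k * m := by
      rw [Fintype.card_prod, Fintype.card_fin, Fintype.card_fin]
    have hkm0 : 0 < Fintype.card (Fin k × Fin m) := by
      rw [hkm]
      exact Nat.mul_pos (by omega) hm
    have hhit := spread_hit (V := Fin n) (β := Fin k × Fin m) I Fm
      (fun e he => tup_inj (mem_filter.mp he).1) (fun a => (a, z a))
      (fun a _ b _ hab => (Prod.mk.inj hab).1) (M : ℝ) (by exact_mod_cast hM) hne hkm0
      (fun e he A hA => by
        have := hsp e he A hA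
        exact_mod_cast this)
    have hsub : {φ : Fin n → Fin k × Fin m | (proj H I U e0 φ (graph x)).CliqueFree k} ⊆
        (univ.filter (fun φ : Fin n → Fin k × Fin m =>
          ∀ e ∈ Fm, ¬ ∀ a ∉ I, φ (e a) = (a, z a)) : Finset _) := by
      intro φ hφ
      rw [mem_coe, mem_filter]
      refine ⟨mem_univ _, fun e he hcon => ?_⟩
      rw [hFm, mem_filter] at he
      exact proj_complete H I U e0 φ (graph x) z hzadj e he.1 he.2 hcon hφ
    have hc := Set.ncard_le_ncard hsub (Finset.finite_toSet _)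
    rw [Set.ncard_coe_finset] at hc
    have hc' : (({φ : Fin n → Fin k × Fin m |
        (proj H I U e0 φ (graph x)).CliqueFree k}.ncard : ℕ) : ℝ) ≤
        ((univ.filter (fun φ : Fin n → Fin k × Fin m =>
          ∀ e ∈ Fm, ¬ ∀ a ∉ I, φ (e a) = (a, z a))).card : ℝ) := by exact_mod_cast hc
    refine hc'.trans (hhit.trans (le_of_eq ?_))
    have hfun : (Fintype.card (Fin n → Fin k × Fin m) : ℝ) =
        (Fintype.card (Fin k × Fin m) : ℝ) ^ Fintype.card (Fin n) := by
      rw [Fintype.card_fun]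
      push_cast
      rfl
    rw [hfun, hkm]
    push_cast
    ring

end Pool.Agent.W2helper86.HU
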