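import Mathlib

/-!
# Regular subfamilies of a family of tuples, and weighted spread families
-/

set_option autoImplicit false

namespace Pool.Agent.W2helper86.HU

open Finset

section reg

variable {V : Type} [Fintype V] [DecidableEq V] {k : ℕ}

/-- the tuples of `T` which agree with `e` at the first `a` positions -/
def cls (T : Finset (Fin k → V)) (a : ℕ) (e : Fin k → V) : Finset (Fin k → V) :=
  T.filter (fun e' => ∀ i : Fin k, i.val < a → e' i = e i)

/-- the number of the values at the position `i` of the tuples which agree with `e` before `i` -/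
def dg (T : Finset (Fin k → V)) (i : Fin k) (e : Fin k → V) : ℕ :=
  ((cls T i.val e).image (fun e' => e' i)).card

lemma mem_cls {T : Finset (Fin k → V)} {a : ℕ} {e e' : Fin k → V} :
    e' ∈ cls T a e ↔ e' ∈ T ∧ ∀ i : Fin k, i.val < a → e' i = e i := mem_filter

lemma cls_full {T : Finset (Fin k → V)} (e : Fin k → V) : (cls T k e).card ≤ 1 := by
  rw [card_le_one]
  intro x hx y hy
  rw [mem_cls] at hx hy
  funext i
  rw [hx.2 i i.2, hy.2 i i.2]

lemma cls_zero {T : Finset (Fin k → V)} (e : Fin k → V) : cls T 0 e = T := by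
  unfold cls
  rw [filter_true_of_mem]
  intro e' _ i hi
  exact absurd hi (Nat.not_lt_zero _)

/-- the fibre over a value -/
lemma cls_fibre {T : Finset (Fin k → V)} (a : Fin k) (e e'' : Fin k → V)
    (h : e'' ∈ cls T a.val e) :
    (cls T a.val e).filter (fun e' => e' a = e'' a) = cls T (a.val + 1) e'' := by
  rw [mem_cls] at h
  ext e'
  rw [mem_filter, mem_cls, mem_cls]
  constructor
  · rintro ⟨⟨h1, h2⟩, h3⟩
    refine ⟨h1, fun i hi => ?_⟩
    rcases Nat.lt_succ_iff_lt_or_eq.mp hi with h4 | h4
    · rw [h2 i h4, h.2 i h4]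
    · have : i = a := Fin.ext h4
      rw [this]
      exact h3
  · rintro ⟨h1, h2⟩
    refine ⟨⟨h1, fun i hi => ?_⟩, h2 a (Nat.lt_succ_self _)⟩
    rw [h2 i (by omega), h.2 i hi]

/-- upper bound for the number of tuples -/
lemma cls_upper (T : Finset (Fin k → V)) (u : ℕ → ℕ)
    (h : ∀ e ∈ T, ∀ i : Fin k, dg T i e ≤ u i) : ∀ d ≤ k, ∀ e ∈ T,
      (cls T (k - d) e).card ≤ ∏ i ∈ Finset.Ico (k - d) k, u i := by
  intro d
  induction d with
  | zero =>
    intro _ e _
    rw [Nat.sub_zero, Finset.Ico_self, prod_empty]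
    exact cls_full e
  | succ d ih =>
    intro hd e he
    have ha : k - (d + 1) < k := by omega
    obtain ⟨a, ha'⟩ : ∃ a : Fin k, a.val = k - (d + 1) := ⟨⟨k - (d + 1), ha⟩, rfl⟩
    have hs : k - d = a.val + 1 := by omega
    rw [Finset.prod_eq_prod_Ico_succ_bot ha]
    have h1 := card_le_mul_card_image (f := fun e' : Fin k → V => e' a) (cls T a.val e)
      (∏ i ∈ Finset.Ico (k - d) k, u i) (by
        intro v hv
        rw [mem_image] at hv
        obtain ⟨e'', h2, rfl⟩ := hv
        rw [cls_fibre a e e'' h2, ← hs]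
        exact ih (by omega) e'' (mem_cls.mp h2).1)
    have h3 := h e he a
    unfold dg at h3
    rw [← ha']
    refine h1.trans ?_
    rw [mul_comm, hs]
    exact Nat.mul_le_mul_right _ h3

/-- the classes of a union of classes -/
lemma cls_sub {T : Finset (Fin k → V)} (P : (Fin k → V) → Prop) [DecidablePred P] (a i : ℕ)
    (hai : a ≤ i) (hP : ∀ e ∈ T, ∀ e' ∈ T, (∀ l : Fin k, l.val < a → e' l = e l) → P e → P e')
    (e : Fin k → V) (he : e ∈ T.filter P) : cls (T.filter P) i e = cls T i e := by
  rw [mem_filter] at he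
  ext e'
  rw [mem_cls, mem_cls, mem_filter]
  constructor
  · rintro ⟨⟨h1, -⟩, h2⟩
    exact ⟨h1, h2⟩
  · rintro ⟨h1, h2⟩
    exact ⟨⟨h1, hP e he.1 e' h1 (fun l hl => h2 l (by omega)) he.2⟩, h2⟩

/-- **Regular subfamilies.** -/
theorem exists_reg (T : Finset (Fin k → V)) (hT : T.Nonempty) (s B : ℕ) (hs : 2 ≤ s)
    (hV : Fintype.card V ≤ s ^ B) : ∀ d ≤ k, ∃ T' ⊆ T, ∃ b : ℕ → ℕ, T'.Nonempty ∧
      (∀ i, b i ≤ B) ∧ T.card ≤ (B + 1) ^ d * T'.card ∧
      (∀ e ∈ T', ∀ i : Fin k, k - d ≤ i.val → dg T' i e ≤ s ^ b i) ∧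
      (∀ e ∈ T', s ^ (∑ i ∈ Finset.Ico (k - d) k, b i) ≤ s ^ d * (cls T' (k - d) e).card) := by
  classical
  intro d
  induction d with
  | zero =>
    intro _
    refine ⟨T, Subset.rfl, fun _ => 0, hT, fun _ => Nat.zero_le _, by simp, ?_, ?_⟩
    · intro e _ i hi
      exact absurd i.2 (by omega)
    · intro e he
      rw [Nat.sub_zero, Finset.Ico_self, sum_empty, pow_zero, one_mul]
      exact card_pos.mpr ⟨e, mem_cls.mpr ⟨he, fun _ _ => rfl⟩⟩
  | succ d ih =>
    intro hd
    obtain ⟨T', hT', b, hne, hb, hc, hdeg, hlow⟩ := ih (by omega)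
    have ha : k - (d + 1) < k := by omega
    obtain ⟨a, ha'⟩ : ∃ a : Fin k, a.val = k - (d + 1) := ⟨⟨k - (d + 1), ha⟩, rfl⟩
    have hs' : k - d = a.val + 1 := by omega
    -- the buckets
    set bk : (Fin k → V) → ℕ := fun e => Nat.clog s (dg T' a e) with hbk
    have hbk1 : ∀ e, bk e ≤ B := by
      intro e
      rw [hbk]
      apply Nat.clog_le_of_le_pow
      refine le_trans ?_ hV
      exact card_le_univ _
    have hbk2 : ∀ e, dg T' a e ≤ s ^ bk e := fun e => Nat.le_pow_clog (by omega) _
    have hbk3 : ∀ e ∈ T', s ^ bk e ≤ s * dg T' a e := by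
      intro e he
      have h1 : 1 ≤ dg T' a e := by
        unfold dg
        apply card_pos.mpr
        exact ⟨e a, mem_image.mpr ⟨e, mem_cls.mpr ⟨he, fun _ _ => rfl⟩, rfl⟩⟩
      rcases Nat.eq_or_lt_of_le h1 with h2 | h2
      · rw [hbk]
        simp only
        rw [← h2, Nat.clog_one_right, pow_zero]
        omega
      · have h3 : 1 ≤ bk e := by
          rw [hbk]
          exact Nat.clog_pos (by omega) h2
        have h4 := Nat.pow_pred_clog_lt_self (b := s) (by omega) h2
        have h5 : s ^ bk e = s * s ^ (bk e).pred := by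
          have h6 : (bk e).pred + 1 = bk e := Nat.succ_pred_eq_of_pos h3
          rw [← pow_succ', h6]
        rw [h5]
        exact Nat.mul_le_mul_left _ h4.le
    -- the popular bucket
    obtain ⟨c, hcB, hcc⟩ : ∃ c ≤ B, T'.card ≤ (B + 1) * (T'.filter (fun e => bk e = c)).card := by
      by_contra hcon
      push Not at hcon
      have h1 : T'.card = ∑ c ∈ range (B + 1), (T'.filter (fun e => bk e = c)).card :=
        card_eq_sum_card_fiberwise (fun e _ => by
          rw [mem_coe, mem_range]
          exact Nat.lt_succ_of_le (hbk1 e))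
      have h2 : (B + 1) * T'.card = ∑ c ∈ range (B + 1),
          (B + 1) * (T'.filter (fun e => bk e = c)).card := by
        rw [← mul_sum, ← h1]
      have h3 : ∑ c ∈ range (B + 1), (B + 1) * (T'.filter (fun e => bk e = c)).card <
          ∑ _c ∈ range (B + 1), T'.card := by
        apply sum_lt_sum_of_nonempty
        · exact ⟨0, mem_range.mpr (Nat.succ_pos _)⟩
        · intro c hc
          exact hcon c (Nat.lt_succ_iff.mp (mem_range.mp hc))
      rw [sum_const, card_range, smul_eq_mul] at h3
      omega
    have hPinv : ∀ e ∈ T', ∀ e' ∈ T', (∀ l : Fin k, l.val < a.val → e' l = e l) → bk e = c →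
        bk e' = c := by
      intro e _ e' _ h1 h2
      rw [← h2]
      simp only [hbk]
      congr 1
      unfold dg
      congr 2
      ext e''
      rw [mem_cls, mem_cls]
      constructor
      · rintro ⟨h3, h4⟩
        exact ⟨h3, fun i hi => (h4 i hi).trans (h1 i hi)⟩
      · rintro ⟨h3, h4⟩
        exact ⟨h3, fun i hi => (h4 i hi).trans (h1 i hi).symm⟩
    have hcls : ∀ i, a.val ≤ i → ∀ e ∈ T'.filter (fun e => bk e = c),
        cls (T'.filter (fun e => bk e = c)) i e = cls T' i e := fun i hi e he =>
      cls_sub (fun e => bk e = c) a.val i hi hPinv e he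
    have hbne : ∀ i, a.val + 1 ≤ i → Function.update b a.val c i = b i := by
      intro i hi
      rw [Function.update_of_ne (by omega)]
    refine ⟨T'.filter (fun e => bk e = c), (filter_subset _ _).trans hT',
      Function.update b a.val c, ?_, ?_, ?_, ?_, ?_⟩
    · rw [← card_pos]
      have := card_pos.mpr hne
      by_contra h0
      have h1 : (T'.filter (fun e => bk e = c)).card = 0 := by omega
      rw [h1] at hcc
      omega
    · intro i
      by_cases hi : i = a.val
      · rw [hi, Function.update_self]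
        exact hcB
      · rw [Function.update_of_ne hi]
        exact hb i
    · calc T.card ≤ (B + 1) ^ d * T'.card := hc
        _ ≤ (B + 1) ^ d * ((B + 1) * (T'.filter (fun e => bk e = c)).card) :=
            Nat.mul_le_mul_left _ hcc
        _ = (B + 1) ^ (d + 1) * (T'.filter (fun e => bk e = c)).card := by ring
    · intro e he i hi
      have he' := (mem_filter.mp he).1
      have h1 : dg (T'.filter (fun e => bk e = c)) i e = dg T' i e := by
        unfold dg
        rw [hcls i.val (by omega) e he]
      rw [h1]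
      by_cases hia : i.val = a.val
      · have h2 : i = a := Fin.ext hia
        rw [hia, Function.update_self, h2]
        have h3 := hbk2 e
        rw [(mem_filter.mp he).2] at h3
        exact h3
      · rw [hbne i.val (by omega)]
        exact hdeg e he' i (by omega)
    · intro e he
      have he' := (mem_filter.mp he).1
      rw [← ha', hcls a.val le_rfl e he]
      rw [Finset.sum_eq_sum_Ico_succ_bot a.2]
      have h1 : ∑ i ∈ Finset.Ico (a.val + 1) k, Function.update b a.val c i =
          ∑ i ∈ Finset.Ico (k - d) k, b i := by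
        rw [← hs']
        exact sum_congr rfl fun i hi => hbne i (by rw [mem_Ico] at hi; omega)
      rw [h1, Function.update_self, pow_add]
      -- the fibres
      have h2 : ∀ v ∈ (cls T' a.val e).image (fun e' => e' a),
          s ^ (∑ i ∈ Finset.Ico (k - d) k, b i) ≤
            s ^ d * ((cls T' a.val e).filter (fun e' => e' a = v)).card := by
        intro v hv
        rw [mem_image] at hv
        obtain ⟨e'', h3, rfl⟩ := hv
        rw [cls_fibre a e e'' h3, ← hs']
        exact hlow e'' (mem_cls.mp h3).1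
      have h3 : dg T' a e * s ^ (∑ i ∈ Finset.Ico (k - d) k, b i) ≤
          s ^ d * (cls T' a.val e).card := by
        have h4 : (cls T' a.val e).card = ∑ v ∈ (cls T' a.val e).image (fun e' => e' a),
            ((cls T' a.val e).filter (fun e' => e' a = v)).card :=
          card_eq_sum_card_image _ _
        rw [h4, mul_sum]
        unfold dg
        rw [← smul_eq_mul]
        exact card_nsmul_le_sum _ _ _ h2
      have h5 := hbk3 e he'
      rw [(mem_filter.mp he).2] at h5
      calc s ^ c * s ^ (∑ i ∈ Finset.Ico (k - d) k, b i)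
          ≤ (s * dg T' a e) * s ^ (∑ i ∈ Finset.Ico (k - d) k, b i) :=
            Nat.mul_le_mul_right _ h5
        _ = s * (dg T' a e * s ^ (∑ i ∈ Finset.Ico (k - d) k, b i)) := by ring
        _ ≤ s * (s ^ d * (cls T' a.val e).card) := Nat.mul_le_mul_left _ h3
        _ = s ^ (d + 1) * (cls T' a.val e).card := by ring

end reg

end Pool.Agent.W2helper86.HU
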